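import Pool.Agent.P.MP_a0f0ad_al.Fi.N.Iface2
import Pool.Agent.P.MP_a0f0ad_al.Fi.Z.Bq

/-! Chapter N: toolbox. -/

namespace Pool.Agent.P.MP_a0f0ad_al.Fi

open Set MeasureTheory

theorem n_tay {f f1 : ℝ → ℝ} (hf : ∀ x, HasDerivAt f (f1 x) x) {L A B : ℝ}
    (hL : ∀ x ∈ Icc A B, ∀ y ∈ Icc A B, |f1 x - f1 y| ≤ L * |x - y|) (hL0 : 0 ≤ L)
    {x y : ℝ} (hx : x ∈ Icc A B) (hy : y ∈ Icc A B) :
    |f y - f x - f1 x * (y - x)| ≤ L * (y - x) ^ 2 := by
  have hsub : uIcc x y ⊆ Icc A B := uIcc_subset_Icc hx hy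
  have h := Convex.norm_image_sub_le_of_norm_hasDerivWithin_le
    (f := fun z => f z - f1 x * z) (f' := fun z => f1 z - f1 x) (s := uIcc x y)
    (C := L * |y - x|) (x := x) (y := y)
    (fun z _ => ((hf z).sub ((hasDerivAt_id z).const_mul (f1 x))).hasDerivWithinAt.congr_deriv
      (by simp))
    (fun z hz => by
      rw [Real.norm_eq_abs]
      refine (hL z (hsub hz) x hx).trans (mul_le_mul_of_nonneg_left ?_ hL0)
      exact abs_sub_left_of_mem_uIcc hz)
    (convex_uIcc x y) left_mem_uIcc right_mem_uIcc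
  rw [Real.norm_eq_abs, Real.norm_eq_abs] at h
  calc |f y - f x - f1 x * (y - x)| = |f y - f1 x * y - (f x - f1 x * x)| := by ring_nf
    _ ≤ L * |y - x| * |y - x| := h
    _ = L * (y - x) ^ 2 := by rw [mul_assoc, abs_mul_abs_self]; ring

/-- one sided version of the root localisation -/
theorem n_root_aux {f f1 : ℝ → ℝ} (hf : ∀ x, HasDerivAt f (f1 x) x) (hc : Continuous f1)
    {A x e th : ℝ} (hth : 0 < th) (he : 0 ≤ e) (hAx : A ≤ x)
    (hlow : ∀ y ∈ Icc A x, 0 < f y → f y ≤ e → th ≤ |f1 y|)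
    (h0 : 0 < f x) (h1 : f x ≤ e) (h2 : 0 < f1 x) :
    ∃ r ∈ Icc A x, x - r ≤ e / th ∧ (f r = 0 ∨ r = A) := by
  by_contra hcon
  push Not at hcon
  have hfc : Continuous f := continuous_iff_continuousAt.2 fun y => (hf y).continuousAt
  have hq : 0 ≤ e / th := by positivity
  have hA : A < x - e / th := by
    by_contra h
    push Not at h
    exact (hcon A ⟨le_rfl, hAx⟩ (by linarith)).2 rfl
  have hpos : ∀ y ∈ Icc (x - e / th) x, 0 < f y := by
    intro y hy
    by_contra h
    push Not at h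
    obtain ⟨r, hr, hr0⟩ := intermediate_value_Icc hy.2 hfc.continuousOn
      (show (0 : ℝ) ∈ Icc (f y) (f x) from ⟨h, h0.le⟩)
    exact (hcon r ⟨by linarith [hr.1, hy.1], hr.2⟩ (by linarith [hr.1, hy.1])).1 hr0
  -- the derivative stays positive
  have hder : ∀ y ∈ Icc (x - e / th) x, th ≤ f1 y := by
    by_contra h
    push Not at h
    obtain ⟨y0, hy0, hy0'⟩ := h
    set K : Set ℝ := {y | y ∈ Icc (x - e / th) x ∧ f1 y ≤ th / 2}
    have hKc : IsCompact K := by
      refine isCompact_Icc.of_isClosed_subset ?_ (fun y hy => hy.1)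
      exact isClosed_Icc.inter (isClosed_le hc continuous_const)
    have key : ∀ y ∈ Icc (x - e / th) x, (∀ z ∈ Ioc y x, 0 < f1 z) → th ≤ |f1 y| := by
      intro y hy hz
      refine hlow y ⟨by linarith [hy.1], hy.2⟩ (hpos y hy) (le_trans ?_ h1)
      have hm : MonotoneOn f (Icc y x) := by
        refine monotoneOn_of_deriv_nonneg (convex_Icc y x) hfc.continuousOn
          (fun z _ => (hf z).differentiableAt.differentiableWithinAt) fun z hz' => ?_
        rw [interior_Icc] at hz'
        rw [(hf z).deriv]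
        exact (hz z ⟨hz'.1, hz'.2.le⟩).le
      exact hm ⟨le_rfl, hy.2⟩ ⟨hy.2, le_rfl⟩ hy.2
    have hx1 : th ≤ f1 x := by
      have := key x ⟨by linarith, le_rfl⟩ (fun z hz => absurd hz.2 (not_le.2 hz.1))
      rwa [abs_of_pos h2] at this
    by_cases hK : K.Nonempty
    · obtain ⟨s, hs, hsm⟩ := hKc.exists_isMaxOn hK continuous_id.continuousOn
      have hz : ∀ z ∈ Ioc s x, 0 < f1 z := by
        intro z hz
        by_contra h
        push Not at h
        have : z ∈ K := ⟨⟨by linarith [hs.1.1, hz.1], hz.2⟩, by linarith⟩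
        have := hsm this
        simp only [id] at this
        exact absurd this (not_le.2 hz.1)
      have h3 := key s hs.1 hz
      have h4 : f1 s ≤ -th := by
        rcases abs_cases (f1 s) with h | h <;> linarith [hs.2]
      obtain ⟨z, hz1, hz2⟩ := intermediate_value_Icc hs.1.2 hc.continuousOn
        (show (0 : ℝ) ∈ Icc (f1 s) (f1 x) from ⟨by linarith, h2.le⟩)
      rcases hz1.1.eq_or_lt with h | h
      · rw [← h] at hz2; linarith
      · exact absurd (hz z ⟨h, hz1.2⟩) (by rw [hz2]; exact lt_irrefl _)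
    · have hz : ∀ z ∈ Icc (x - e / th) x, 0 < f1 z := by
        intro z hz
        by_contra h
        push Not at h
        exact hK ⟨z, hz, by linarith⟩
      have h3 := key y0 hy0 fun z hz' => hz z ⟨by linarith [hy0.1, hz'.1], hz'.2⟩
      rw [abs_of_pos (hz y0 hy0)] at h3
      linarith
  have hmv := (convex_Icc (x - e / th) x).mul_sub_le_image_sub_of_le_deriv hfc.continuousOn
    (fun z _ => (hf z).differentiableAt.differentiableWithinAt) (C := th)
    (fun z hz => by
      rw [(hf z).deriv]; exact hder z (interior_subset hz))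
    (x - e / th) ⟨le_rfl, by linarith⟩ x ⟨by linarith, le_rfl⟩ (by linarith)
  have h5 := hpos (x - e / th) ⟨le_rfl, by linarith⟩
  have h6 : th * (x - (x - e / th)) = e := by field_simp; ring
  linarith

/-- a point where `f` is almost `c` lies near a root or near an end of the interval -/
theorem n_root {f f1 : ℝ → ℝ} (hf : ∀ x, HasDerivAt f (f1 x) x) (hc : Continuous f1)
    {A B c x e th : ℝ} (hth : 0 < th) (hx : x ∈ Icc A B)
    (hlow : ∀ y ∈ Icc A B, |f y - c| ≤ e → th ≤ |f1 y|) (h1 : |f x - c| ≤ e) :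
    ∃ r ∈ Icc A B, |x - r| ≤ e / th ∧ (f r = c ∨ r = A ∨ r = B) := by
  have he : 0 ≤ e := (abs_nonneg _).trans h1
  have hx1 := hlow x hx h1
  have hne : f1 x ≠ 0 := fun h => by rw [h, abs_zero] at hx1; linarith
  rcases lt_trichotomy (f x) c with h | h | h
  · rcases hne.lt_or_gt with h2 | h2
    · obtain ⟨r, hr, hr1, hr2⟩ := n_root_aux (f := fun y => c - f y) (f1 := fun y => - f1 y)
        (fun y => (hf y).const_sub c) hc.neg hth he hx.1
        (fun y hy h3 h4 => by
          rw [abs_neg]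
          exact hlow y ⟨hy.1, hy.2.trans hx.2⟩ (by rw [abs_sub_comm, abs_of_pos h3]; exact h4))
        (by simpa using h) (by rw [abs_sub_comm] at h1; exact (le_abs_self _).trans h1)
        (by simpa using h2)
      refine ⟨r, ⟨hr.1, hr.2.trans hx.2⟩, by rw [abs_of_nonneg (by linarith [hr.2])]; exact hr1, ?_⟩
      rcases hr2 with h5 | h5
      · left; linarith
      · right; left; exact h5
    · obtain ⟨r, hr, hr1, hr2⟩ := n_root_aux (f := fun y => c - f (-y)) (f1 := fun y => f1 (-y))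
        (A := -B) (x := -x)
        (fun y => by
          have := ((hf (-y)).comp y (hasDerivAt_neg y)).const_sub c
          simpa using this) (hc.comp continuous_neg) hth he (by linarith [hx.2])
        (fun y hy h3 h4 =>
          hlow (-y) ⟨by linarith [hy.2, hx.1], by linarith [hy.1]⟩
            (by rw [abs_sub_comm, abs_of_pos h3]; exact h4))
        (by simpa using h) (by rw [abs_sub_comm] at h1; simpa using (le_abs_self _).trans h1)
        (by simpa using h2)
      refine ⟨-r, ⟨by linarith [hr.2, hx.1], by linarith [hr.1]⟩, ?_, ?_⟩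
      · rw [abs_of_nonpos (by linarith [hr.2])]; linarith
      · rcases hr2 with h5 | h5
        · left; linarith
        · right; right; linarith
  · exact ⟨x, hx, by simp; positivity, Or.inl h⟩
  · rcases hne.lt_or_gt with h2 | h2
    · obtain ⟨r, hr, hr1, hr2⟩ := n_root_aux (f := fun y => f (-y) - c) (f1 := fun y => - f1 (-y))
        (A := -B) (x := -x)
        (fun y => by
          have := ((hf (-y)).comp y (hasDerivAt_neg y)).sub_const c
          simpa using this) (hc.comp continuous_neg).neg hth he (by linarith [hx.2])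
        (fun y hy h3 h4 => by
          rw [abs_neg]
          exact hlow (-y) ⟨by linarith [hy.2, hx.1], by linarith [hy.1]⟩
            (by rw [abs_of_pos h3]; exact h4))
        (by simpa using h) (by simpa using (le_abs_self _).trans h1)
        (by simpa using h2)
      refine ⟨-r, ⟨by linarith [hr.2, hx.1], by linarith [hr.1]⟩, ?_, ?_⟩
      · rw [abs_of_nonpos (by linarith [hr.2])]; linarith
      · rcases hr2 with h5 | h5
        · left; linarith
        · right; right; linarith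
    · obtain ⟨r, hr, hr1, hr2⟩ := n_root_aux (f := fun y => f y - c) (f1 := f1)
        (fun y => (hf y).sub_const c) hc hth he hx.1
        (fun y hy h3 h4 =>
          hlow y ⟨hy.1, hy.2.trans hx.2⟩ (by rw [abs_of_pos h3]; exact h4))
        (by simpa using h) ((le_abs_self _).trans h1) h2
      refine ⟨r, ⟨hr.1, hr.2.trans hx.2⟩, by rw [abs_of_nonneg (by linarith [hr.2])]; exact hr1, ?_⟩
      rcases hr2 with h5 | h5
      · left; linarith
      · right; left; exact h5

/-- an integrand that is small away from finitely many points -/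
theorem n_cover {h : ℝ → ℝ} {A B K k0 r : ℝ} (F : Finset ℝ) (hAB : A ≤ B) (hr : 0 ≤ r)
    (hi : IntervalIntegrable h volume A B) (hk : k0 ≤ K)
    (h1 : ∀ x ∈ Icc A B, h x ≤ K)
    (h2 : ∀ x ∈ Icc A B, (∀ z ∈ F, r < |x - z|) → h x ≤ k0) :
    ∫ x in A..B, h x ≤ k0 * (B - A) + (K - k0) * (2 * r * F.card) := by
  classical
  have hind : ∀ z : ℝ, Integrable ((Icc (z - r) (z + r)).indicator fun _ : ℝ => (K - k0))
      (volume : Measure ℝ) := fun z =>
    (integrable_indicator_iff measurableSet_Icc).2 (integrableOn_const (by simp))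
  have hsum : Integrable (fun x => ∑ z ∈ F,
      (Icc (z - r) (z + r)).indicator (fun _ : ℝ => (K - k0)) x) (volume : Measure ℝ) :=
    integrable_finsetSum _ fun z _ => hind z
  have hle : ∫ x in A..B, h x ≤ ∫ x in A..B, (k0 + ∑ z ∈ F,
      (Icc (z - r) (z + r)).indicator (fun _ : ℝ => (K - k0)) x) := by
    refine intervalIntegral.integral_mono_on hAB hi
      (intervalIntegrable_const.add hsum.intervalIntegrable) fun x hx => ?_
    have hnn : ∀ z ∈ F, 0 ≤ (Icc (z - r) (z + r)).indicator (fun _ : ℝ => (K - k0)) x :=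
      fun z _ => indicator_nonneg (fun _ _ => by linarith) _
    by_cases hx2 : ∀ z ∈ F, r < |x - z|
    · have := Finset.sum_nonneg hnn
      linarith [h2 x hx hx2]
    · push Not at hx2
      obtain ⟨z, hz, hz2⟩ := hx2
      have h3 := Finset.single_le_sum hnn hz
      have h4 : x ∈ Icc (z - r) (z + r) := by
        rw [abs_le] at hz2; constructor <;> linarith [hz2.1, hz2.2]
      rw [indicator_of_mem h4] at h3
      linarith [h1 x hx]
  refine hle.trans ?_
  rw [intervalIntegral.integral_add intervalIntegrable_const hsum.intervalIntegrable,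
    intervalIntegral.integral_const, smul_eq_mul, mul_comm (B - A)]
  gcongr
  rw [intervalIntegral.integral_of_le hAB]
  calc ∫ x in Ioc A B, ∑ z ∈ F, (Icc (z - r) (z + r)).indicator (fun _ : ℝ => (K - k0)) x
      ≤ ∫ x, ∑ z ∈ F, (Icc (z - r) (z + r)).indicator (fun _ : ℝ => (K - k0)) x :=
        setIntegral_le_integral hsum (Filter.Eventually.of_forall fun x =>
          Finset.sum_nonneg fun z _ => indicator_nonneg (fun _ _ => by linarith) _)
    _ = ∑ z ∈ F, (K - k0) * (2 * r) := by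
        rw [integral_finsetSum _ fun z _ => hind z]
        refine Finset.sum_congr rfl fun z _ => ?_
        rw [integral_indicator_const _ measurableSet_Icc, Real.volume_real_Icc_of_le (by linarith),
          smul_eq_mul]
        ring
    _ = (K - k0) * (2 * r * F.card) := by
        rw [Finset.sum_const, nsmul_eq_mul]; ring

variable {d : ℕ}

/-- one constant for values, increments and first order Taylor remainders -/
theorem n_bd (d : ℕ) (L : ℝ) : ∃ K : ℝ, 1 ≤ K ∧ ∀ (q : Fin d → ℝ) (k : ℕ) (x y : ℝ),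
    |x| ≤ L → |y| ≤ L → |ev q k x| ≤ K * ‖q‖ ∧ |ev q k y - ev q k x| ≤ K * ‖q‖ * |y - x| ∧
      |ev q k y - ev q k x - (y - x) * ev q (k + 1) x| ≤ K * ‖q‖ * (y - x) ^ 2 := by
  obtain ⟨C, hC, h⟩ := exists_Vd_bound d L
  obtain ⟨C', hC', h'⟩ := exists_Vd_taylor d L
  have hd : (0 : ℝ) ≤ d := Nat.cast_nonneg d
  refine ⟨C + d * C', by nlinarith, fun q k x y hx hy => ⟨?_, ?_, ?_⟩⟩
  · have := (h k x hx).2 q
    have h0 : 0 ≤ d * C' * ‖q‖ := by positivity
    nlinarith
  · have h1 := abs_dot_le q (Vd k y - Vd k x)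
    rw [dot_sub_right] at h1
    have h2 := (h' k x y hx hy).1
    have h3 : (d : ℝ) * ‖q‖ * ‖(Vd k y - Vd k x : Fin d → ℝ)‖ ≤ d * ‖q‖ * (C' * |y - x|) := by gcongr
    have h0 : 0 ≤ C * ‖q‖ * |y - x| := by positivity
    change |dot q (Vd k y) - dot q (Vd k x)| ≤ _
    nlinarith
  · have h1 := abs_dot_le q (Vd k y - Vd k x - (y - x) • Vd (k + 1) x)
    rw [dot_sub_right, dot_sub_right, dot_smul_right] at h1
    have h2 := (h' k x y hx hy).2.1
    rw [sq_abs] at h2
    have h3 : (d : ℝ) * ‖q‖ * ‖(Vd k y - Vd k x - (y - x) • Vd (k + 1) x : Fin d → ℝ)‖ ≤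
        d * ‖q‖ * (C' * (y - x) ^ 2) := by gcongr
    have h0 : 0 ≤ C * ‖q‖ * (y - x) ^ 2 := by positivity
    change |dot q (Vd k y) - dot q (Vd k x) - (y - x) * dot q (Vd (k + 1) x)| ≤ _
    nlinarith

/-- an almost touching point with an almost feasible neighbourhood is almost critical;
`B` is the Taylor constant, e.g. `K * ‖q‖` from `n_bd` -/
theorem n_touch {f0 f1 fl fr Q e e' B δ : ℝ} (hl : |fl| ≤ Q + e) (hr : |fr| ≤ Q + e)
    (h0 : Q - e' ≤ |f0|) (tl : |fl - f0 - (-δ) * f1| ≤ B * δ ^ 2)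
    (tr : |fr - f0 - δ * f1| ≤ B * δ ^ 2) (hδ : 0 ≤ δ) : |f1| * δ ≤ e + e' + B * δ ^ 2 := by
  rw [abs_le] at hl hr tl tr
  rcases abs_cases f0 with h | h <;> rcases abs_cases f1 with k | k <;> rw [k.1] <;>
    linarith [hl.1, hl.2, hr.1, hr.2, tl.1, tl.2, tr.1, tr.2, h.1]

/-- the same for a polynomial, with the constant of `n_bd` -/
theorem n_touch_ev {L K : ℝ} (hK : ∀ (q : Fin d → ℝ) (k : ℕ) (x y : ℝ),
    |x| ≤ L → |y| ≤ L → |ev q k x| ≤ K * ‖q‖ ∧ |ev q k y - ev q k x| ≤ K * ‖q‖ * |y - x| ∧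
      |ev q k y - ev q k x - (y - x) * ev q (k + 1) x| ≤ K * ‖q‖ * (y - x) ^ 2)
    (q : Fin d → ℝ) {x δ Q e e' : ℝ} (hδ : 0 ≤ δ) (hx : |x| + δ ≤ L)
    (hl : |ev q 0 (x - δ)| ≤ Q + e) (hr : |ev q 0 (x + δ)| ≤ Q + e) (h0 : Q - e' ≤ |ev q 0 x|) :
    |ev q 1 x| * δ ≤ e + e' + K * ‖q‖ * δ ^ 2 := by
  have hx0 : |x| ≤ L := by linarith
  have h1 := (hK q 0 x (x - δ) hx0 (by
    have := abs_sub x δ
    rw [abs_of_nonneg hδ] at this; linarith)).2.2
  have h2 := (hK q 0 x (x + δ) hx0 (by
    have := abs_add_le x δ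
    rw [abs_of_nonneg hδ] at this; linarith)).2.2
  rw [show x - δ - x = -δ by ring, neg_sq] at h1
  rw [show x + δ - x = δ by ring] at h2
  exact n_touch hl hr h0 h1 h2 hδ

/-- an interior touching point is critical -/
theorem n_crit {D : LD d} {q : Fin d → ℝ} {m M z : ℝ} (h : D.Feas q m M) (h1 : m < z) (h2 : z < M)
    (h3 : |ev q 0 z| = D.Q) : ev q 1 z = 0 := by
  have hn : Icc m M ∈ nhds z := Icc_mem_nhds h1 h2
  rcases abs_cases (ev q 0 z) with k | k
  · have : IsLocalMax (ev q 0) z := Filter.mem_of_superset hn fun x hx => by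
      have := (abs_le.1 (h x hx)).2
      simp only [mem_setOf_eq]; linarith [k.1]
    exact this.hasDerivAt_eq_zero (hasDerivAt_ev q 0 z)
  · have : IsLocalMin (ev q 0) z := Filter.mem_of_superset hn fun x hx => by
      have := (abs_le.1 (h x hx)).1
      simp only [mem_setOf_eq]; linarith [k.1]
    exact this.hasDerivAt_eq_zero (hasDerivAt_ev q 0 z)

theorem dv_eq_cf (q : Fin d → ℝ) : dv q = cf d (Polynomial.derivative (pol q)) := by
  funext i
  rw [cf, Polynomial.coeff_derivative, dv, co]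
  split_ifs with h
  · have := congrFun (cf_pol q) ⟨i + 1, h⟩
    simp only [cf] at this
    rw [this]; ring
  · rw [Polynomial.coeff_eq_zero_of_degree_lt
      ((degree_pol_lt q).trans_le (by exact_mod_cast not_lt.1 h))]
    simp

theorem ev_dv (q : Fin d → ℝ) (k : ℕ) (x : ℝ) : ev (dv q) k x = ev q (k + 1) x := by
  rw [dv_eq_cf, ev_cf (Polynomial.degree_derivative_le.trans_lt (degree_pol_lt q)), ev_eq_eval,
    Function.iterate_succ_apply]

theorem dv_sub (q q' : Fin d → ℝ) : dv (q - q') = dv q - dv q' := by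
  funext i
  simp only [dv, co, Pi.sub_apply]
  split_ifs <;> ring

theorem norm_dv_le (q : Fin d → ℝ) : ‖dv q‖ ≤ d * ‖q‖ := by
  refine (pi_norm_le_iff_of_nonneg (by positivity)).2 fun i => ?_
  rw [dv, co, norm_mul]
  have hi : ((i : ℕ) : ℝ) + 1 ≤ d := by exact_mod_cast i.2
  refine mul_le_mul (by rw [Real.norm_eq_abs, abs_of_nonneg (by positivity)]; exact hi) ?_
    (norm_nonneg _) (by positivity)
  split_ifs
  · exact norm_le_pi_norm q _
  · simp

theorem ev_jy (q : Fin d → ℝ) (x : ℝ) : ev (jy q) 0 x = x * ev q 1 x := by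
  have h : dot (jy q) (Vd 0 x) = dot q (jy (Vd 0 x)) := by
    simp only [dot, jy]
    exact Finset.sum_congr rfl fun j _ => by ring
  rw [ev, h, ← smul_Vd_one, dot_smul_right, ev]

theorem jy_sub (q q' : Fin d → ℝ) : jy (q - q') = jy q - jy q' := by
  funext i
  simp only [jy, Pi.sub_apply]
  ring

theorem norm_jy_le (q : Fin d → ℝ) : ‖jy q‖ ≤ d * ‖q‖ := by
  refine (pi_norm_le_iff_of_nonneg (by positivity)).2 fun i => ?_
  rw [jy, norm_mul]
  have hi : ((i : ℕ) : ℝ) ≤ d := by exact_mod_cast i.2.le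
  exact mul_le_mul (by rw [Real.norm_eq_abs, abs_of_nonneg (by positivity)]; exact hi)
    (norm_le_pi_norm q _) (norm_nonneg _) (by positivity)

/-- translates of a polynomial -/
theorem exists_shift (q : Fin d → ℝ) (s : ℝ) :
    ∃ g : Fin d → ℝ, ∀ x, ev g 0 x = ev q 0 (x + s) := by
  refine ⟨cf d (Polynomial.taylor s (pol q)), fun x => ?_⟩
  have hdeg : (Polynomial.taylor s (pol q)).degree < d := by
    rw [Polynomial.degree_taylor]; exact degree_pol_lt q
  rw [ev_cf hdeg, ev_eq_eval]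
  simp [Polynomial.taylor_eval]

/-- the value of coordinate `j` as a pairing -/
theorem ev_single (j : Fin d) (x : ℝ) : ev (Pi.single j 1 : Fin d → ℝ) 0 x = x ^ (j : ℕ) := by
  simp [ev, dot, Vd, Pi.single_apply]

theorem dot_single (j : Fin d) (y : Fin d → ℝ) : dot (Pi.single j 1 : Fin d → ℝ) y = y j := by
  simp [dot, Pi.single_apply]

theorem norm_sq_le_dot (y : Fin d → ℝ) : ‖y‖ ^ 2 ≤ dot y y := by
  have h0 : 0 ≤ dot y y := Finset.sum_nonneg fun j _ => mul_self_nonneg _
  have : ‖y‖ ≤ Real.sqrt (dot y y) := by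
    refine (pi_norm_le_iff_of_nonneg (Real.sqrt_nonneg _)).2 fun i => ?_
    rw [Real.norm_eq_abs]
    refine Real.abs_le_sqrt ?_
    rw [sq]
    exact Finset.single_le_sum (f := fun j => y j * y j) (fun j _ => mul_self_nonneg _)
      (Finset.mem_univ i)
  calc ‖y‖ ^ 2 ≤ Real.sqrt (dot y y) ^ 2 := by gcongr
    _ = dot y y := Real.sq_sqrt h0

/-- `lp 0` lies in `(0, 1]` and the window has size at least three -/
theorem LD.Spec.lp_zero_le {S : Finset (G d)} {D : LD d} (h : D.Spec S) :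
    0 < D.lp 0 ∧ D.lp 0 ≤ 1 ∧ D.lp 0 * D.Lam = 3 := by
  have hi : D.idx 0 ≤ D.n := by
    simpa [LD.idx] using Finset.card_filter_le (Finset.range D.n) (fun k => D.th k < 0)
  have ha : (1 : ℝ) ≤ ((D.A (D.idx 0)).a : ℝ) := by exact_mod_cast (h.memA _ hi).2
  have e : D.lp 0 = 1 / ((D.A (D.idx 0)).a : ℝ) := by simp [LD.lp]
  have h0 : 0 < D.lp 0 := by rw [e]; positivity
  refine ⟨h0, by rw [e, div_le_one (by linarith)]; exact ha, ?_⟩
  rw [LD.Lam]; field_simp

/-- a range of cost at most two lies well inside the window -/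
theorem LD.Spec.win {S : Finset (G d)} {D : LD d} (h : D.Spec S) {m M : ℝ} (hm : m ≤ 0)
    (hM : 0 ≤ M) (hc : D.lp 0 * (M - m) ≤ 2) : |m| + 1 ≤ D.Lam ∧ |M| + 1 ≤ D.Lam := by
  obtain ⟨h0, h1, h2⟩ := h.lp_zero_le
  rw [abs_of_nonpos hm, abs_of_nonneg hM]
  constructor
  · by_contra k
    have : D.lp 0 * D.Lam < D.lp 0 * (-m + 1) := mul_lt_mul_of_pos_left (not_le.1 k) h0
    nlinarith
  · by_contra k
    have : D.lp 0 * D.Lam < D.lp 0 * (M + 1) := mul_lt_mul_of_pos_left (not_le.1 k) h0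
    nlinarith

end Pool.Agent.P.MP_a0f0ad_al.Fi
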