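import Pool.Agent.P.MP_a0f0ad_al.Fi.Z.Defs

/-! Chapter N: geodesic words follow a good representation. -/

namespace Pool.Agent.P.MP_a0f0ad_al.Fi

open Finset MeasureTheory

-- deps: HOM PUB
-- imports: Pool.Agent.P.MP_a0f0ad_al.Fi.N.Basic Pool.Agent.P.MP_a0f0ad_al.Fi.Z.Bm
/-- the dual polynomial is far from constant -/
def S_QLOW : Prop :=
  ∀ (d : ℕ) (S : Finset (G d)) (D : LD d), D.Spec S → ∃ c : ℝ, 0 < c ∧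
    ∀ (u : E d) (pa : ℝ) (ρ : RD d), 0 < u.1 → D.NN u ≤ 1 → ρ.Opt D u pa → Nonconst ρ.q →
      d ≤ ρ.eN D u.1 → ∃ j : Fin d, 1 ≤ (j : ℕ) ∧ c ≤ |ρ.q j|

-- deps: HOM PUB NLOC NCMP NOM NYQ NATM NFLA NFLB NFRA NFRB
-- imports: Pool.Agent.P.MP_a0f0ad_al.Fi.N.Basic Pool.Agent.P.MP_a0f0ad_al.Fi.Z.Bm
/-- stability of the range -/
def S_STABR : Prop :=
  ∃ k : ℕ, 0 < k ∧ ∀ (d : ℕ) (S : Finset (G d)) (D : LD d), D.Spec S → ∃ C : ℝ, 0 < C ∧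
    ∀ (v ζ pa : ℝ) (u u' : E d) (ρ ρ' : RD d), 0 < v → v ≤ 1 → 0 < ζ → C * ζ ≤ v ^ k →
      D.NN u ≤ 1 → Nonconst ρ.q → ρ.Opt D u pa → ρ.Good D u pa v → ρ'.Rep D u' →
      D.lp 0 * (ρ'.M - ρ'.m) ≤ 2 → ‖u' - u‖ ≤ ζ ^ k → ‖ρ'.q - ρ.q‖ ≤ ζ ^ k →
      |D.Bf ρ'.q ρ'.m ρ'.M u' - D.NN u| ≤ ζ ^ k →
      (|ρ'.m - ρ.m| ≤ ζ ∧ |ρ'.M - ρ.M| ≤ ζ) ∨
      (ρ.m < 0 ∧ d < ρ.eN D u.1 ∧ ∃ σ : RD d, σ.Opt D u pa ∧ σ.q = ρ.q ∧ d < σ.eN D u.1 ∧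
        |ρ'.m - σ.m| ≤ ζ ∧ |ρ'.M - σ.M| ≤ ζ)

-- deps: MARK PEN HOM KKT PUB ACC FB STABR NPIN NID NOM NRNG NTRIM
-- imports: Pool.Agent.P.MP_a0f0ad_al.Fi.N.Basic Pool.Agent.P.MP_a0f0ad_al.Fi.Z.Bm
/-- geodesic words of the window follow the representation or its partner -/
def S_NEAR : Prop :=
  ∃ k : ℕ, 0 < k ∧ ∀ (d : ℕ) (S : Finset (G d)) (D : LD d), 2 ≤ d → D.Spec S →
    ∃ C : ℝ, 0 < C ∧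
    ∀ (v ζ T r : ℝ) (u p : E d) (ρ : RD d) (w : List (G d)), 0 < v → v ≤ 1 → 0 < ζ →
      C * ζ ≤ v ^ k → 0 < r → r ≤ ζ → 1 ≤ T * r * ζ ^ (2 * k) → D.NN u ≤ 1 → Grad D.NN p u →
      Osc D.NN u p r (ζ ^ k) → ρ.q = p.2 → Nonconst ρ.q → ρ.Opt D u p.1 →
      ρ.Good D u p.1 v → Geo S w →
      ζ * ‖nx T w.prod - T • u‖ ≤ 1 →
      Near D S T u p ρ w ζ (C / ell u ^ d) ∨
      (ρ.m < 0 ∧ d < ρ.eN D u.1 ∧ ∃ σ : RD d, σ.Opt D u p.1 ∧ σ.q = ρ.q ∧ d < σ.eN D u.1 ∧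
        Near D S T u p σ w ζ (C / ell u ^ d))

-- deps: MARK PEN HOM ATT SUBG KKT PUB
/-- the open set of the strict gain -/
def S_EXR : Prop :=
  ∀ (d : ℕ) (S : Finset (G d)) (D : LD d), 6 ≤ d → Even d → D.Spec S →
    ∃ (A : Set (E d)) (v : ℝ), IsOpen A ∧ A.Nonempty ∧ 0 < v ∧ v ≤ 1 ∧ ∀ u ∈ A,
      0 < u.1 ∧ D.NN u < 1 ∧ (∀ p, Grad D.NN p u → Nonconst p.2) ∧
      ∀ (pa : ℝ) (ρ : RD d), ρ.Opt D u pa → Nonconst ρ.q → ρ.Nice D u v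

end Pool.Agent.P.MP_a0f0ad_al.Fi
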