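import Pool.Agent.P.MP_a0f0ad_al.Fi.N.Iface
import Pool.Agent.P.MP_a0f0ad_al.Fi.V.Iface
import Pool.Agent.P.MP_a0f0ad_al.Fi.T.Exra
import Pool.Agent.P.MP_a0f0ad_al.Fi.T.Ech
import Pool.Agent.P.MP_a0f0ad_al.Fi.T.Ecb
import Pool.Agent.P.MP_a0f0ad_al.Fi.T.Esr
import Pool.Agent.P.MP_a0f0ad_al.Fi.T.Eat
import Pool.Agent.P.MP_a0f0ad_al.Fi.T.Edn
import Pool.Agent.P.MP_a0f0ad_al.Fi.T.Emg
import Pool.Agent.P.MP_a0f0ad_al.Fi.T.Enc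
import Pool.Agent.P.MP_a0f0ad_al.Fi.T.Euq
import Pool.Agent.P.MP_a0f0ad_al.Fi.T.Ecp
import Pool.Agent.P.MP_a0f0ad_al.Fi.T.Eus
import Pool.Agent.P.MP_a0f0ad_al.Fi.T.Ecv
import Pool.Agent.P.MP_a0f0ad_al.Fi.T.Exs
import Pool.Agent.P.MP_a0f0ad_al.Fi.T.Ebs

/-! Step EXR of the filiform project. -/

namespace Pool.Agent.P.MP_a0f0ad_al.Fi

open Finset MeasureTheory

theorem p_EXR (hMARK : S_MARK) (hPEN : S_PEN) (hHOM : S_HOM) (hATT : S_ATT) (hSUBG : S_SUBG) (hKKT : S_KKT) (hPUB : S_PUB) :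
    S_EXR := by
  have hEAT := p_EAT p_ECB p_ESR
  have hECP := p_ECP hMARK
  have hEUS := p_EUS hPEN hHOM hPUB p_ECB hECP
  exact p_EXRA hATT hSUBG hPUB (p_ENC p_ESR hEAT p_EDN (p_EMG hEAT)) hEUS
    (p_ECV hPEN p_ECB hECP p_EUQ hEUS) (p_EBS p_ECH (p_EXS p_ECB))

end Pool.Agent.P.MP_a0f0ad_al.Fi
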