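import Pool.Agent.P.MP_a0f0ad_al.Fi.N.Iface

/-! Chapter N: the steps. -/

namespace Pool.Agent.P.MP_a0f0ad_al.Fi

open Finset MeasureTheory

/-- coefficients of the derivative -/
noncomputable def dv {d : ℕ} (q : Fin d → ℝ) : Fin d → ℝ :=
  fun i => (((i : ℕ) : ℝ) + 1) * co q (i + 1)

-- deps:
-- imports: Pool.Agent.P.MP_a0f0ad_al.Fi.N.Basic
/-- almost critical values are taken near a root only -/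
def S_NLOC : Prop :=
  ∀ (d : ℕ) (D : LD d) (u : E d) (ρ : RD d) (v : ℝ), 0 < v → v ≤ 1 → ρ.Good0 D u v →
    (∀ z x, ρ.IsT u.1 z → |x - z| ≤ v → v * |x - z| ≤ |ev ρ.q 1 x|) ∧
    (ρ.Rep D u → ∀ z x, ρ.IsT u.1 z → |x - z| ≤ v → ev ρ.q 0 z * ev ρ.q 0 x ≤ D.Q ^ 2) ∧
    ∀ x w η, |x| + 1 ≤ D.Lam → w ∈ D.ThA → |ev ρ.q 0 x - w| ≤ η → 8 * η ≤ v ^ 3 →
      ∃ r, ev ρ.q 0 r = w ∧ v * (x - r) ^ 2 ≤ 2 * η ∧ (ρ.IsT u.1 r ∨ v ^ 2 ≤ |ev ρ.q 1 r|)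

-- deps:
-- imports: Pool.Agent.P.MP_a0f0ad_al.Fi.N.Basic Pool.Agent.P.MP_a0f0ad_al.Fi.Z.Bm
/-- margins at pinned ends -/
def S_NPIN : Prop :=
  ∀ (d : ℕ) (S : Finset (G d)) (D : LD d), D.Spec S → ∃ c : ℝ, 0 < c ∧ c ≤ 1 ∧
    ∀ (u : E d) (ρ : RD d) (v : ℝ), 0 < v → v ≤ 1 → ρ.Rep D u → ρ.Good0 D u v →
      (ρ.m = 0 → c * v ≤ ρ.Dm D) ∧ (ρ.M = u.1 → c * v ≤ ρ.DM D)

-- deps: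
-- imports: Pool.Agent.P.MP_a0f0ad_al.Fi.N.Basic Pool.Agent.P.MP_a0f0ad_al.Fi.Z.Bm
/-- the two identities for the end derivatives -/
def S_NID : Prop :=
  ∀ (d : ℕ) (S : Finset (G d)) (D : LD d), D.Spec S → ∀ (u : E d) (ρ : RD d), ρ.Rep D u →
    ρ.Dm D - ρ.DM D = dot (dv ρ.q) u.2 + D.lp (-ev ρ.q 0 0) - D.lp (-ev ρ.q 0 u.1) ∧
    ρ.M * ρ.DM D - ρ.m * ρ.Dm D =
      D.Bf ρ.q ρ.m ρ.M u - dot ρ.q u.2 - dot (jy ρ.q) u.2 + u.1 * D.lp (-ev ρ.q 0 u.1)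

-- deps: NID
-- imports: Pool.Agent.P.MP_a0f0ad_al.Fi.N.Basic Pool.Agent.P.MP_a0f0ad_al.Fi.Z.Bm
/-- comparison of two representations with close data and close cost -/
def S_NCMP : Prop :=
  ∀ (d : ℕ) (S : Finset (G d)) (D : LD d) (L : ℝ), D.Spec S → ∃ C : ℝ, 0 < C ∧
    ∀ (u u' : E d) (ρ ρ' : RD d) (W e : ℝ), ρ.Rep D u → ρ'.Rep D u' → 0 ≤ u.1 → 0 ≤ u'.1 →
      -L ≤ ρ.m → ρ.M ≤ L → -L ≤ ρ'.m → ρ'.M ≤ L → ‖u‖ ≤ L → 1 ≤ W → ‖ρ.q‖ ≤ W → e ≤ 1 →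
      ‖u' - u‖ ≤ e → ‖ρ'.q - ρ.q‖ ≤ e →
      |D.Bf ρ'.q ρ'.m ρ'.M u' - D.Bf ρ.q ρ.m ρ.M u| ≤ e →
      |(∫ x in ρ.M..ρ'.M, D.om (ev ρ.q 0 x)) + ∫ x in ρ'.m..ρ.m, D.om (ev ρ.q 0 x)| ≤ C * W * e ∧
      |ρ'.Dm D - ρ'.DM D - (ρ.Dm D - ρ.DM D)| ≤ C * W * e ∧
      |ρ'.M * ρ'.DM D - ρ'.m * ρ'.Dm D - (ρ.M * ρ.DM D - ρ.m * ρ.Dm D)| ≤ C * W * e

-- deps: NLOC
-- imports: Pool.Agent.P.MP_a0f0ad_al.Fi.N.Basic Pool.Agent.P.MP_a0f0ad_al.Fi.Z.Bm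
/-- the cost of an almost feasible interval -/
def S_NOM : Prop :=
  ∀ (d : ℕ) (S : Finset (G d)) (D : LD d), D.Spec S → ∃ C : ℝ, 0 < C ∧
    ∀ (u : E d) (ρ : RD d) (v s t e : ℝ), 0 < v → v ≤ 1 → Nonconst ρ.q → ρ.Good0 D u v →
      |s| + 1 ≤ D.Lam → |t| + 1 ≤ D.Lam → s ≤ t → 0 ≤ e → e ≤ 1 →
      (∀ x ∈ Set.Icc s t, |ev ρ.q 0 x| ≤ D.Q + e) →
      -(C * e) ≤ ∫ x in s..t, D.om (ev ρ.q 0 x) ∧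
      ∫ x in s..t, D.om (ev ρ.q 0 x) ≤ C * (t - s) ∧
      ∀ δ : ℝ, 0 < δ → δ ≤ v → δ ≤ t - s → C * e ≤ v * δ ^ 2 →
        v * δ ^ 3 ≤ C * ∫ x in s..t, D.om (ev ρ.q 0 x)

-- deps: NLOC
-- imports: Pool.Agent.P.MP_a0f0ad_al.Fi.N.Basic Pool.Agent.P.MP_a0f0ad_al.Fi.Z.Bm
/-- continuity of the deposit -/
def S_NYQ : Prop :=
  ∀ (d : ℕ) (S : Finset (G d)) (D : LD d), D.Spec S → ∃ C : ℝ, 0 < C ∧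
    ∀ (u : E d) (ρ : RD d) (q' f : Fin d → ℝ) (v s m M a m' M' a' : ℝ), 0 < v → v ≤ 1 →
      Nonconst ρ.q → ρ.Good0 D u v → 0 < s → s ≤ v → C * ‖q' - ρ.q‖ ≤ v * s ^ 2 → ‖f‖ ≤ 1 →
      |m| ≤ D.Lam → |M| ≤ D.Lam → |a| ≤ D.Lam → |m'| + 1 ≤ D.Lam → |M'| + 1 ≤ D.Lam →
      m' ≤ 0 → 0 ≤ a' → a' ≤ M' → |m' - m| ≤ s → |M' - M| ≤ s → |a' - a| ≤ s →
      |dot f (D.Yq q' m' M' a') - dot f (D.Yq ρ.q m M a)| ≤ C * s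

-- deps: NLOC
-- imports: Pool.Agent.P.MP_a0f0ad_al.Fi.N.Basic Pool.Agent.P.MP_a0f0ad_al.Fi.Z.Bm
/-- the atoms of a nearby representation sit near touching atoms or are light -/
def S_NATM : Prop :=
  ∀ (d : ℕ) (S : Finset (G d)) (D : LD d), D.Spec S → D.om D.Q = 0 → ∃ C : ℝ, 0 < C ∧
    ∀ (u u' : E d) (ρ ρ' : RD d) (f : Fin d → ℝ) (v s e : ℝ), 0 < v → v ≤ 1 → ρ.Good0 D u v →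
      ρ'.Rep D u' → |ρ'.m| + 1 ≤ D.Lam → |ρ'.M| + 1 ≤ D.Lam → 0 < s → C * s ≤ v ^ 3 →
      C * ‖ρ'.q - ρ.q‖ ≤ v * s ^ 2 → ‖f‖ ≤ 1 → D.Q * ∑ z ∈ ρ'.Z, |ρ'.mu z| ≤ 2 →
      |ρ'.Dm D| ≤ e → |ρ'.DM D| ≤ e →
      (∀ x, ρ.IsT u.1 x → ρ'.m - s ≤ x → x ≤ ρ'.M + s → ev f 0 x * ev ρ.q 0 x ≤ 0) →
      v ^ 2 * ∑ z ∈ ρ'.Z, ρ'.mu z * ev f 0 z ≤ C * (s + e)

/-- the common hypotheses of the two far cases -/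
structure NFar {d : ℕ} (D : LD d) (v h pa : ℝ) (u u' : E d) (ρ ρ' : RD d) : Prop where
  v0 : 0 < v
  v1 : v ≤ 1
  h0 : 0 < h
  opt : ρ.Opt D u pa
  good : ρ.Good0 D u v
  rep : ρ'.Rep D u'
  bm : |ρ.m| + 1 ≤ D.Lam
  bM : |ρ.M| + 1 ≤ D.Lam
  bm' : |ρ'.m| + 1 ≤ D.Lam
  bM' : |ρ'.M| + 1 ≤ D.Lam
  mass : D.Q * ∑ z ∈ ρ'.Z, |ρ'.mu z| ≤ 2
  da : |u'.1 - u.1| ≤ h ^ 16
  dq : ‖ρ'.q - ρ.q‖ ≤ h ^ 16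
  i1 : |ρ'.Dm D - ρ'.DM D - (ρ.Dm D - ρ.DM D)| ≤ h ^ 15
  i2 : |ρ'.M * ρ'.DM D - ρ'.m * ρ'.Dm D - (ρ.M * ρ.DM D - ρ.m * ρ.Dm D)| ≤ h ^ 15

-- deps: NLOC NPIN
-- imports: Pool.Agent.P.MP_a0f0ad_al.Fi.N.Basic Pool.Agent.P.MP_a0f0ad_al.Fi.Z.Bm
/-- the range moved to the left: the left end is a touching atom -/
def S_NFLA : Prop :=
  ∀ (d : ℕ) (S : Finset (G d)) (D : LD d), D.Spec S → ∃ C : ℝ, 0 < C ∧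
    ∀ (v h pa : ℝ) (u u' : E d) (ρ ρ' : RD d), NFar D v h pa u u' ρ ρ' → C * h ≤ v ^ 4 →
      ρ'.m + h ^ 4 ≤ ρ.m → ρ'.M + h ^ 4 ≤ ρ.M →
      D.om D.Q = 0 ∧ ρ.IsT u.1 ρ.m ∧ |ρ'.Dm D| ≤ h ^ 13 ∧ |ρ'.DM D| ≤ h ^ 13

-- deps: NLOC
-- imports: Pool.Agent.P.MP_a0f0ad_al.Fi.N.Basic Pool.Agent.P.MP_a0f0ad_al.Fi.Z.Bm
/-- the range moved to the left: its ends are near an exit and near a touching atom -/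
def S_NFLB : Prop :=
  ∀ (d : ℕ) (S : Finset (G d)) (D : LD d), D.Spec S → ∃ C : ℝ, 0 < C ∧
    ∀ (v h pa : ℝ) (u u' : E d) (ρ ρ' : RD d), NFar D v h pa u u' ρ ρ' → C * h ≤ v ^ 4 →
      ρ'.m + h ^ 4 ≤ ρ.m → ρ'.M + h ^ 4 ≤ ρ.M → |ρ'.Dm D| ≤ h ^ 13 → |ρ'.DM D| ≤ h ^ 13 →
      ∃ α z, -D.Lam ≤ α ∧ α < ρ.m ∧ D.Feas ρ.q α ρ.m ∧ |ev ρ.q 0 α| = D.Q ∧ ev ρ.q 1 α ≠ 0 ∧
        ρ.IsT u.1 z ∧ u.1 < z ∧ z < ρ.M ∧ |ρ'.m - α| ≤ h ^ 5 ∧ |ρ'.M - z| ≤ h ^ 5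

-- deps: NLOC NPIN
-- imports: Pool.Agent.P.MP_a0f0ad_al.Fi.N.Basic Pool.Agent.P.MP_a0f0ad_al.Fi.Z.Bm
/-- the range moved to the right: the right end is a touching atom -/
def S_NFRA : Prop :=
  ∀ (d : ℕ) (S : Finset (G d)) (D : LD d), D.Spec S → ∃ C : ℝ, 0 < C ∧
    ∀ (v h pa : ℝ) (u u' : E d) (ρ ρ' : RD d), NFar D v h pa u u' ρ ρ' → C * h ≤ v ^ 4 →
      ρ.m + h ^ 4 ≤ ρ'.m → ρ.M + h ^ 4 ≤ ρ'.M →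
      D.om D.Q = 0 ∧ ρ.IsT u.1 ρ.M ∧ |ρ'.Dm D| ≤ h ^ 13 ∧ |ρ'.DM D| ≤ h ^ 13

-- deps: NLOC
-- imports: Pool.Agent.P.MP_a0f0ad_al.Fi.N.Basic Pool.Agent.P.MP_a0f0ad_al.Fi.Z.Bm
/-- the range moved to the right: its ends are near a touching atom and near an exit -/
def S_NFRB : Prop :=
  ∀ (d : ℕ) (S : Finset (G d)) (D : LD d), D.Spec S → ∃ C : ℝ, 0 < C ∧
    ∀ (v h pa : ℝ) (u u' : E d) (ρ ρ' : RD d), NFar D v h pa u u' ρ ρ' → C * h ≤ v ^ 4 →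
      ρ.m + h ^ 4 ≤ ρ'.m → ρ.M + h ^ 4 ≤ ρ'.M → |ρ'.Dm D| ≤ h ^ 13 → |ρ'.DM D| ≤ h ^ 13 →
      ∃ α z, α ≤ D.Lam ∧ ρ.M < α ∧ D.Feas ρ.q ρ.M α ∧ |ev ρ.q 0 α| = D.Q ∧ ev ρ.q 1 α ≠ 0 ∧
        ρ.IsT u.1 z ∧ z < 0 ∧ ρ.m < z ∧ |ρ'.m - z| ≤ h ^ 5 ∧ |ρ'.M - α| ≤ h ^ 5

-- deps: FO GRW
-- imports: Pool.Agent.P.MP_a0f0ad_al.Fi.Z.Bp Pool.Agent.P.MP_a0f0ad_al.Fi.Z.Bg
/-- the height range of a word is bounded below -/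
def S_NRNG : Prop :=
  ∀ (d : ℕ) (S : Finset (G d)) (L : ℝ), 2 ≤ d → ∃ C : ℝ, 0 < C ∧
    ∀ (T : ℝ) (w : List (G d)) (τ1 τ2 : ℕ) (u : E d), 1 ≤ T → Wd S w → (w.length : ℝ) ≤ L * T →
      (∀ k ≤ w.length, ht w τ1 ≤ ht w k ∧ ht w k ≤ ht w τ2) → 1 ≤ w.prod.a → ‖u‖ ≤ L →
      C * ‖T⁻¹ • nx T w.prod - u‖ ≤ ell u ^ d → C ≤ T * ell u ^ d →
      ell u ≤ C * ((ht w τ2 : ℝ) / T - ht w τ1 / T)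

-- deps: HOM PUB NID
-- imports: Pool.Agent.P.MP_a0f0ad_al.Fi.N.Basic Pool.Agent.P.MP_a0f0ad_al.Fi.Z.Bm
/-- trimming the two down passes gains the end derivatives -/
def S_NTRIM : Prop :=
  ∀ (d : ℕ) (S : Finset (G d)) (D : LD d), D.Spec S → ∃ C : ℝ, 1 ≤ C ∧
    ∀ (u u' p : E d) (ρ ρ' : RD d) (W r e s s' : ℝ), ρ.q = p.2 → ρ.Opt D u p.1 →
      Osc D.NN u p r e → ρ'.Rep D u' → 0 ≤ u.1 → 0 ≤ u'.1 → D.NN u ≤ 1 →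
      D.Bf ρ'.q ρ'.m ρ'.M u' ≤ 2 → 1 ≤ W → ‖ρ.q‖ ≤ W → 0 ≤ e → r ≤ 1 →
      0 ≤ s → s ≤ ρ'.M - u'.1 → 0 ≤ s' → s' ≤ -ρ'.m → ‖u' - u‖ + C * (s + s') ≤ r →
      D.NN u + pair p (u' - u) - e * ‖u' - u‖ + s * ρ.DM D + s' * ρ.Dm D -
        C * (e + ‖ρ'.q - ρ.q‖ + W * r) * (s + s') ≤ D.Bf ρ'.q ρ'.m ρ'.M u'

end Pool.Agent.P.MP_a0f0ad_al.Fi
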