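import Pool.Agent.P.MP_a0f0ad_al.Fi.N.Iface2
import Pool.Agent.P.MP_a0f0ad_al.Fi.N.Basic
import Pool.Agent.P.MP_a0f0ad_al.Fi.Z.Bm

/-! Step NATM of the filiform project. -/

namespace Pool.Agent.P.MP_a0f0ad_al.Fi

open Finset MeasureTheory

namespace NatmA

theorem touch {mu w fr fz K s v Q : ℝ} (hQ : 0 < Q) (hw : |w| = Q) (h1 : 0 < mu * w)
    (h2 : fr * w ≤ 0) (h3 : |fz - fr| ≤ K * s) (hv : 0 < v) (hv1 : v ≤ 1) :
    v ^ 2 * (mu * fz) ≤ K * s * |mu| := by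
  have hw2 : 0 < w ^ 2 := by rw [← sq_abs, hw]; positivity
  have k1 : mu * fr ≤ 0 := by
    by_contra hc
    have := mul_pos (not_le.1 hc) hw2
    nlinarith [mul_nonneg h1.le (neg_nonneg.2 h2)]
  have k2 : mu * (fz - fr) ≤ K * s * |mu| := by
    calc mu * (fz - fr) ≤ |mu * (fz - fr)| := le_abs_self _
      _ = |mu| * |fz - fr| := abs_mul _ _
      _ ≤ |mu| * (K * s) := mul_le_mul_of_nonneg_left h3 (abs_nonneg _)
      _ = K * s * |mu| := mul_comm _ _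
  have k3 : 0 ≤ K * s * |mu| := mul_nonneg ((abs_nonneg _).trans h3) (abs_nonneg _)
  have k4 : v ^ 2 ≤ 1 := pow_le_one₀ hv.le hv1
  have k5 : mu * fz ≤ K * s * |mu| := by linarith
  calc v ^ 2 * (mu * fz) ≤ v ^ 2 * (K * s * |mu|) :=
        mul_le_mul_of_nonneg_left k5 (sq_nonneg v)
    _ ≤ 1 * (K * s * |mu|) := mul_le_mul_of_nonneg_right k4 k3
    _ = _ := one_mul _

theorem light {mu g fz K e v : ℝ} (h1 : v ^ 2 / 2 ≤ |g|) (h2 : |mu * g| ≤ e) (h3 : |fz| ≤ K) :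
    v ^ 2 * (mu * fz) ≤ 2 * K * e := by
  rw [abs_mul] at h2
  have hK : 0 ≤ K := (abs_nonneg _).trans h3
  have k1 : |mu| * (v ^ 2 / 2) ≤ e := (mul_le_mul_of_nonneg_left h1 (abs_nonneg _)).trans h2
  have k2 : mu * fz ≤ |mu| * K := by
    calc mu * fz ≤ |mu * fz| := le_abs_self _
      _ = |mu| * |fz| := abs_mul _ _
      _ ≤ |mu| * K := mul_le_mul_of_nonneg_left h3 (abs_nonneg _)
  calc v ^ 2 * (mu * fz) ≤ v ^ 2 * (|mu| * K) := mul_le_mul_of_nonneg_left k2 (sq_nonneg v)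
    _ = 2 * K * (|mu| * (v ^ 2 / 2)) := by ring
    _ ≤ 2 * K * e := mul_le_mul_of_nonneg_left k1 (by positivity)

end NatmA

theorem p_NATM (hNLOC : S_NLOC) :
    S_NATM := by
  classical
  intro d S D hD hom
  obtain ⟨K, hK1, hK⟩ := n_bd d D.Lam
  have hQ := hD.Qpos
  have hKQ : 0 ≤ 2 * K / D.Q := by positivity
  refine ⟨8 * K + 2 * K / D.Q, by positivity, ?_⟩
  intro u u' ρ ρ' f v s e hv hv1 hg hr hm hM hs hCs hCq hf hmass hDm hDM hT
  have he : 0 ≤ e := (abs_nonneg _).trans hDm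
  have hN : 0 ≤ ‖ρ'.q - ρ.q‖ := norm_nonneg _
  have a1 : 8 * K * s ≤ v ^ 3 := by nlinarith [mul_nonneg hKQ hs.le]
  have a2 : 8 * (K * ‖ρ'.q - ρ.q‖) ≤ v * s ^ 2 := by nlinarith [mul_nonneg hKQ hN]
  have v2 : v ^ 2 ≤ 1 := pow_le_one₀ hv.le hv1
  have v3 : v ^ 3 ≤ v := by nlinarith
  have a3 : s ≤ v := by nlinarith
  have a4 : s ^ 2 ≤ v ^ 2 := pow_le_pow_left₀ hs.le a3 2
  have a5 : v * s ^ 2 ≤ v ^ 3 := by nlinarith
  have a6 : v ^ 3 ≤ v ^ 2 := by nlinarith [sq_nonneg v]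
  have a7 : K * ‖ρ.q‖ * s ≤ v ^ 2 / 8 := by
    have b1 := hg.hq
    have b2 : 0 ≤ ‖ρ.q‖ := norm_nonneg _
    have b3 : 8 * K * s * ‖ρ.q‖ ≤ v ^ 3 * ‖ρ.q‖ := mul_le_mul_of_nonneg_right a1 b2
    have b4 : v ^ 2 * (v * ‖ρ.q‖) ≤ v ^ 2 * 1 := mul_le_mul_of_nonneg_left b1 (sq_nonneg v)
    nlinarith
  obtain ⟨-, -, -, hF, hZ, -⟩ := hr
  have key : ∀ z ∈ ρ'.Z, v ^ 2 * (ρ'.mu z * ev f 0 z) ≤ K * s * |ρ'.mu z| +
      ((if z = ρ'.m then 2 * K * e else 0) + if z = ρ'.M then 2 * K * e else 0) := by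
    intro z hz
    obtain ⟨z1, z2, z3, z4⟩ := hZ z hz
    have hz1 : |z| + 1 ≤ D.Lam := by
      have := le_abs_self ρ'.M
      have := neg_abs_le ρ'.m
      rcases abs_cases z with k | k <;> linarith [k.1]
    have hz0 : |z| ≤ D.Lam := by linarith
    have hKe : 0 ≤ 2 * K * e := by positivity
    have i1 : 0 ≤ (if z = ρ'.m then 2 * K * e else 0) := by split_ifs <;> simp [hKe]
    have i2 : 0 ≤ (if z = ρ'.M then 2 * K * e else 0) := by split_ifs <;> simp [hKe]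
    have hw : ev ρ'.q 0 z ∈ D.ThA := by
      rcases abs_cases (ev ρ'.q 0 z) with k | k
      · exact Or.inl (by linarith [k.1])
      · exact Or.inr (Or.inl (by linarith [k.1]))
    have hη : |ev ρ.q 0 z - ev ρ'.q 0 z| ≤ K * ‖ρ'.q - ρ.q‖ := by
      rw [abs_sub_comm, ← ev_sub]
      exact (hK _ 0 z z hz0 hz0).1
    obtain ⟨r, r1, r2, r3⟩ :=
      (hNLOC d D u ρ v hv hv1 hg).2.2 z _ _ hz1 hw hη (a2.trans a5)
    have r4 : |z - r| ≤ s := by
      refine abs_le_of_sq_le_sq' ?_ hs.le |> abs_le.2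
      have : v * (z - r) ^ 2 ≤ v * s ^ 2 := by nlinarith [mul_nonneg (zero_le_one.trans hK1) hN]
      exact le_of_mul_le_mul_left this hv
    have hr0 : |r| ≤ D.Lam := by
      have := abs_sub_abs_le_abs_sub r z
      rw [abs_sub_comm] at this
      linarith
    have hK0 : 0 ≤ K := zero_le_one.trans hK1
    have hKf : K * ‖f‖ ≤ K := by nlinarith [norm_nonneg f]
    rcases r3 with r3 | r3
    · have t1 := hT r r3 (by linarith [(abs_le.1 r4).2]) (by linarith [(abs_le.1 r4).1])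
      rw [r1] at t1
      have t2 : |ev f 0 z - ev f 0 r| ≤ K * s :=
        (hK f 0 r z hr0 hz0).2.1.trans (mul_le_mul hKf r4 (abs_nonneg _) hK0)
      linarith [NatmA.touch hQ z3 z4 t1 t2 hv hv1]
    · have t1 : |ev ρ.q 1 z - ev ρ.q 1 r| ≤ K * ‖ρ.q‖ * s :=
        (hK ρ.q 1 r z hr0 hz0).2.1.trans (mul_le_mul_of_nonneg_left r4 (by positivity))
      have t2 : |ev ρ'.q 1 z - ev ρ.q 1 z| ≤ K * ‖ρ'.q - ρ.q‖ := by
        rw [← ev_sub]
        exact (hK _ 1 z z hz0 hz0).1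
      have t3 : v ^ 2 / 2 ≤ |ev ρ'.q 1 z| := by
        have b1 := abs_sub_abs_le_abs_sub (ev ρ.q 1 r) (ev ρ.q 1 z)
        have b2 := abs_sub_abs_le_abs_sub (ev ρ.q 1 z) (ev ρ'.q 1 z)
        rw [abs_sub_comm] at b1 b2
        have b3 := sq_nonneg v
        linarith only [b1, b2, b3, t1, t2, r3, a2, a5, a6, a7]
      have t4 : |ev f 0 z| ≤ K := (hK f 0 z z hz0 hz0).1.trans hKf
      have t5 : D.om (ev ρ'.q 0 z) = 0 := by
        rcases abs_cases (ev ρ'.q 0 z) with k | k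
        · rw [show ev ρ'.q 0 z = D.Q by linarith [k.1], hom]
        · rw [show ev ρ'.q 0 z = -D.Q by linarith [k.1], D.om_neg, hom]
      have t6 : 0 ≤ K * s * |ρ'.mu z| := by positivity
      by_cases c1 : z = ρ'.m
      · have : |ρ'.mu z * ev ρ'.q 1 z| ≤ e := by
          rw [RD.Dm, ← c1, t5, zero_add, RD.muAt, if_pos hz] at hDm
          exact hDm
        rw [if_pos c1]
        linarith [NatmA.light t3 this t4]
      by_cases c2 : z = ρ'.M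
      · have : |ρ'.mu z * ev ρ'.q 1 z| ≤ e := by
          rw [RD.DM, ← c2, t5, zero_sub, abs_neg, RD.muAt, if_pos hz] at hDM
          exact hDM
        rw [if_pos c2]
        linarith [NatmA.light t3 this t4]
      have t7 := n_crit hF (lt_of_le_of_ne z1 (Ne.symm c1)) (lt_of_le_of_ne z2 c2) z3
      rw [t7, abs_zero] at t3
      have := pow_pos hv 2
      linarith
  have hKe : 0 ≤ 2 * K * e := by positivity
  have s1 : ∀ c : ℝ, ∑ z ∈ ρ'.Z, (if z = c then 2 * K * e else 0) ≤ 2 * K * e := fun c => by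
    rw [Finset.sum_ite_eq']
    split_ifs
    exacts [le_rfl, hKe]
  have s2 : ∑ z ∈ ρ'.Z, |ρ'.mu z| ≤ 2 / D.Q := by
    rw [le_div_iff₀ hQ, mul_comm]
    exact hmass
  have s3 := Finset.sum_le_sum key
  rw [← Finset.mul_sum, Finset.sum_add_distrib, Finset.sum_add_distrib, ← Finset.mul_sum] at s3
  have s4 : K * s * ∑ z ∈ ρ'.Z, |ρ'.mu z| ≤ K * s * (2 / D.Q) :=
    mul_le_mul_of_nonneg_left s2 (by positivity)
  have s5 : K * s * (2 / D.Q) = 2 * K / D.Q * s := by ring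
  have s6 := s1 ρ'.m
  have s7 := s1 ρ'.M
  have hK0 : 0 ≤ K := zero_le_one.trans hK1
  nlinarith [mul_nonneg hKQ he, mul_nonneg hK0 hs.le, mul_nonneg hK0 he]

end Pool.Agent.P.MP_a0f0ad_al.Fi
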