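import Pool.Agent.P.MP_a0f0ad_al.Fi.N.Iface2
import Pool.Agent.P.MP_a0f0ad_al.Fi.N.Basic
import Pool.Agent.P.MP_a0f0ad_al.Fi.Z.Bm

/-! Step NCMP of the filiform project. -/

namespace Pool.Agent.P.MP_a0f0ad_al.Fi

open Finset MeasureTheory

namespace NcmpA

theorem dot_cmp {d : ℕ} {p p' y y' : Fin d → ℝ} {c L W e : ℝ} (hc : 0 ≤ c) (he1 : e ≤ 1)
    (hW : 1 ≤ W) (h1 : ‖p' - p‖ ≤ c * e) (h2 : ‖p‖ ≤ c * W) (h3 : ‖y‖ ≤ L) (h4 : ‖y' - y‖ ≤ e) :
    |dot p' y' - dot p y| ≤ d * c * (L + 2) * (W * e) := by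
  have he : 0 ≤ e := (norm_nonneg _).trans h4
  have hL : 0 ≤ L := (norm_nonneg _).trans h3
  have hd : (0 : ℝ) ≤ d := Nat.cast_nonneg d
  have h5 : ‖y'‖ ≤ L + 1 := by
    have := norm_add_le (y' - y) y
    rw [sub_add_cancel] at this
    linarith
  have e1 : dot p' y' - dot p y = dot (p' - p) y' + dot p (y' - y) := by
    rw [dot_sub_left, dot_sub_right]; ring
  have a1 : |dot (p' - p) y'| ≤ d * (c * e) * (L + 1) :=
    (abs_dot_le _ _).trans (mul_le_mul (mul_le_mul_of_nonneg_left h1 hd) h5 (norm_nonneg _)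
      (by positivity))
  have a2 : |dot p (y' - y)| ≤ d * (c * W) * e :=
    (abs_dot_le _ _).trans (mul_le_mul (mul_le_mul_of_nonneg_left h2 hd) h4 (norm_nonneg _)
      (by positivity))
  have a3 : d * c * (L + 1) * e ≤ d * c * (L + 1) * (W * e) :=
    mul_le_mul_of_nonneg_left (le_mul_of_one_le_left he hW) (by positivity)
  rw [e1]
  refine (abs_add_le _ _).trans ?_
  linarith

theorem int_bd {f : ℝ → ℝ} {B L s t : ℝ} (h : ∀ x, |x| ≤ L → |f x| ≤ B) (hs : |s| ≤ L)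
    (ht : |t| ≤ L) : |∫ x in s..t, f x| ≤ B * |t - s| := by
  have := intervalIntegral.norm_integral_le_of_norm_le_const (f := f) (a := s) (b := t) (C := B)
    fun x hx => by
      rw [Real.norm_eq_abs]
      refine h x ?_
      have hx' := Set.uIoc_subset_uIcc hx
      rw [abs_le] at hs ht ⊢
      rcases Set.mem_uIcc.1 hx' with a | a <;> constructor <;> linarith [a.1, a.2, hs.1, ht.1]
  rwa [Real.norm_eq_abs] at this

theorem int_cmp {f g : ℝ → ℝ} (hf : Continuous f) (hg : Continuous g) {B L s t : ℝ} (hB : 0 ≤ B)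
    (h : ∀ x, |x| ≤ L → |f x - g x| ≤ B) (hs : |s| ≤ L) (ht : |t| ≤ L) :
    |(∫ x in s..t, f x) - ∫ x in s..t, g x| ≤ B * (2 * L) := by
  rw [← intervalIntegral.integral_sub (hf.intervalIntegrable _ _) (hg.intervalIntegrable _ _)]
  refine (int_bd h hs ht).trans (mul_le_mul_of_nonneg_left ?_ hB)
  have := abs_sub t s
  linarith

end NcmpA

open NcmpA in
theorem p_NCMP (hNID : S_NID) :
    S_NCMP := by
  intro d S D L h
  by_cases hL : 0 ≤ L
  swap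
  · refine ⟨1, one_pos, fun u u' ρ ρ' W e _ _ _ _ _ _ _ _ a => ?_⟩
    exact absurd ((norm_nonneg _).trans a) hL
  obtain ⟨K, hK1, hK⟩ := n_bd d L
  obtain ⟨C0, hC1, -, -, hC, -⟩ := h.exists_bound
  obtain ⟨c, hc⟩ : ∃ c : ℝ, c = C0 * K := ⟨_, rfl⟩
  have hC0 : 0 ≤ C0 := by linarith
  have hK0 : 0 ≤ K := by linarith
  have c0 : 0 ≤ c := by rw [hc]; positivity
  have hd : (0 : ℝ) ≤ d := Nat.cast_nonneg d
  refine ⟨2 + d * 1 * (L + 2) + d * d * (L + 2) + 6 * (c * L) + 4 * c, by positivity, ?_⟩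
  intro u u' ρ ρ' W e hR hR' ha ha' m1 M1 m2 M2 hu hW hq he1 hdu hdq hB
  have he : 0 ≤ e := (norm_nonneg _).trans hdu
  have hW0 : 0 ≤ W := by linarith
  obtain ⟨t, ht⟩ : ∃ t : ℝ, t = W * e := ⟨_, rfl⟩
  have het : e ≤ t := by rw [ht]; exact le_mul_of_one_le_left he hW
  have t0 : 0 ≤ t := he.trans het
  have z0 : |(0 : ℝ)| ≤ L := by rwa [abs_zero]
  have za : |u.1| ≤ L := by rw [abs_of_nonneg ha]; exact hR.2.1.trans M1
  have za' : |u'.1| ≤ L := by rw [abs_of_nonneg ha']; exact hR'.2.1.trans M2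
  have zm : |ρ'.m| ≤ L := by rw [abs_of_nonpos hR'.1]; linarith
  have zM : |ρ'.M| ≤ L := by rw [abs_of_nonneg (ha'.trans hR'.2.1)]; exact M2
  have da : |u'.1 - u.1| ≤ e := (norm_fst_le (u' - u)).trans hdu
  have dy : ‖u'.2 - u.2‖ ≤ e := (norm_snd_le (u' - u)).trans hdu
  have ny : ‖u.2‖ ≤ L := (norm_snd_le u).trans hu
  have hn : ∀ x y, |D.lp (-x) - D.lp (-y)| ≤ C0 * |x - y| := fun x y => by
    have := hC (-x) (-y)
    rwa [show -x - -y = -(x - y) by ring, abs_neg] at this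
  have b0 : ∀ x, |x| ≤ L → C0 * |ev ρ'.q 0 x - ev ρ.q 0 x| ≤ c * t := fun x hx => by
    rw [← ev_sub, hc, mul_assoc]
    exact mul_le_mul_of_nonneg_left ((hK _ 0 x x hx hx).1.trans
      (mul_le_mul_of_nonneg_left (hdq.trans het) hK0)) hC0
  have b1 : ∀ x, |x| ≤ L → |D.lp (ev ρ'.q 0 x) - D.lp (ev ρ.q 0 x)| ≤ c * t :=
    fun x hx => (hC _ _).trans (b0 x hx)
  have b2 : ∀ x, |x| ≤ L → |D.lp (-ev ρ'.q 0 x) - D.lp (-ev ρ.q 0 x)| ≤ c * t :=
    fun x hx => (hn _ _).trans (b0 x hx)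
  have b3 : ∀ x, |x| ≤ L → |D.lp (-ev ρ.q 0 x)| ≤ (1 + c) * W := fun x hx => by
    have a1 := hn (ev ρ.q 0 x) 0
    rw [sub_zero, neg_zero] at a1
    have a2 : C0 * |ev ρ.q 0 x| ≤ c * W := by
      rw [hc, mul_assoc]
      exact mul_le_mul_of_nonneg_left ((hK _ 0 x x hx hx).1.trans
        (mul_le_mul_of_nonneg_left hq hK0)) hC0
    have a3 := abs_add_le (D.lp (-ev ρ.q 0 x) - D.lp 0) (D.lp 0)
    rw [sub_add_cancel, abs_of_pos h.lp_zero_le.1] at a3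
    linarith [h.lp_zero_le.2.1]
  have b4 : |D.lp (-ev ρ'.q 0 u'.1) - D.lp (-ev ρ.q 0 u.1)| ≤ 2 * (c * t) := by
    have a1 := b2 _ za'
    have a2 : |D.lp (-ev ρ.q 0 u'.1) - D.lp (-ev ρ.q 0 u.1)| ≤ c * t := by
      refine (hn _ _).trans ?_
      rw [hc, mul_assoc]
      refine mul_le_mul_of_nonneg_left ((hK _ 0 _ _ za za').2.1.trans ?_) hC0
      rw [ht, mul_assoc]
      exact mul_le_mul_of_nonneg_left (mul_le_mul hq da (abs_nonneg _) hW0) hK0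
    have a3 := abs_sub_le (D.lp (-ev ρ'.q 0 u'.1)) (D.lp (-ev ρ.q 0 u'.1))
      (D.lp (-ev ρ.q 0 u.1))
    linarith
  have b5 : (1 + c) * W * |u'.1 - u.1| ≤ (1 + c) * t := by
    rw [ht, mul_assoc]
    exact mul_le_mul_of_nonneg_left (mul_le_mul_of_nonneg_left da hW0) (by positivity)
  have d1 := dot_cmp (p := ρ.q) (p' := ρ'.q) zero_le_one he1 hW (by rwa [one_mul])
    (by rwa [one_mul]) ny dy
  have d2 := dot_cmp (p := dv ρ.q) (p' := dv ρ'.q) hd he1 hW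
    (by rw [← dv_sub]; exact (norm_dv_le _).trans (mul_le_mul_of_nonneg_left hdq hd))
    ((norm_dv_le _).trans (mul_le_mul_of_nonneg_left hq hd)) ny dy
  have d3 := dot_cmp (p := jy ρ.q) (p' := jy ρ'.q) hd he1 hW
    (by rw [← jy_sub]; exact (norm_jy_le _).trans (mul_le_mul_of_nonneg_left hdq hd))
    ((norm_jy_le _).trans (mul_le_mul_of_nonneg_left hq hd)) ny dy
  rw [← ht] at d1 d2 d3
  have cp : ∀ q : Fin d → ℝ, Continuous fun x => D.lp (ev q 0 x) :=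
    fun q => h.continuous_lp.comp (continuous_ev q 0)
  have cn : ∀ q : Fin d → ℝ, Continuous fun x => D.lp (-ev q 0 x) :=
    fun q => h.continuous_lp.comp (continuous_ev q 0).neg
  have ct : 0 ≤ c * t := mul_nonneg c0 t0
  have p1 : 0 ≤ d * 1 * (L + 2) * t := by positivity
  have p2 : 0 ≤ d * d * (L + 2) * t := by positivity
  have p3 : 0 ≤ c * L * t := by positivity
  rw [mul_assoc _ W e, ← ht]
  refine ⟨?_, ?_, ?_⟩
  · have i1 := int_cmp (cp ρ'.q) (cp ρ.q) ct b1 zm zM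
    have i2 := int_cmp (cn ρ'.q) (cn ρ.q) ct b2 zm z0
    have i3 := int_cmp (cn ρ'.q) (cn ρ.q) ct b2 za' zM
    have i4 := int_bd b3 za' za
    rw [abs_sub_comm u.1] at i4
    have i5 := intervalIntegral.integral_add_adjacent_intervals
      ((cn ρ.q).intervalIntegrable (μ := volume) u'.1 u.1)
      ((cn ρ.q).intervalIntegrable (μ := volume) u.1 ρ'.M)
    rw [← h.Bf_sub ρ.q ρ.m ρ.M ρ'.m ρ'.M u]
    rw [abs_le] at i1 i2 i3 hB d1 ⊢
    have i6 := abs_le.1 (i4.trans b5)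
    have e1 : D.Bf ρ'.q ρ'.m ρ'.M u' = _ := rfl
    have e2 : D.Bf ρ.q ρ'.m ρ'.M u = _ := rfl
    conv_rhs at e1 => unfold LD.Bf
    conv_rhs at e2 => unfold LD.Bf
    constructor <;> linarith [i1.1, i1.2, i2.1, i2.2, i3.1, i3.2, i6.1, i6.2, hB.1, hB.2, d1.1,
      d1.2]
  · rw [(hNID d S D h u ρ hR).1, (hNID d S D h u' ρ' hR').1]
    have i1 := b2 _ z0
    rw [abs_le] at i1 b4 d2 ⊢
    constructor <;> linarith [i1.1, i1.2, b4.1, b4.2, d2.1, d2.2]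
  · rw [(hNID d S D h u ρ hR).2, (hNID d S D h u' ρ' hR').2]
    have i1 : |u'.1 * D.lp (-ev ρ'.q 0 u'.1) - u.1 * D.lp (-ev ρ.q 0 u.1)| ≤
        L * (2 * (c * t)) + (1 + c) * t := by
      rw [show u'.1 * D.lp (-ev ρ'.q 0 u'.1) - u.1 * D.lp (-ev ρ.q 0 u.1) =
        u'.1 * (D.lp (-ev ρ'.q 0 u'.1) - D.lp (-ev ρ.q 0 u.1)) +
          D.lp (-ev ρ.q 0 u.1) * (u'.1 - u.1) by ring]
      refine (abs_add_le _ _).trans (add_le_add ?_ ?_)
      · rw [abs_mul]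
        exact mul_le_mul za' b4 (abs_nonneg _) hL
      · rw [abs_mul]
        exact (mul_le_mul_of_nonneg_right (b3 _ za) (abs_nonneg _)).trans b5
    rw [abs_le] at i1 hB d1 d3 ⊢
    constructor <;> linarith [i1.1, i1.2, hB.1, hB.2, d1.1, d1.2, d3.1, d3.2]

end Pool.Agent.P.MP_a0f0ad_al.Fi
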