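import Pool.Agent.P.MP_a0f0ad_al.Fi.N.Near1

/-! Step NEAR of the filiform project: the representation attached to a range. -/

namespace Pool.Agent.P.MP_a0f0ad_al.Fi

open Finset MeasureTheory

namespace NearA

variable {d : ℕ}

/-- a range whose dual value is almost the affine approximation carries a close representation -/
theorem rep (hPEN : S_PEN) (hHOM : S_HOM) (hKKT : S_KKT) {S : Finset (G d)} {D : LD d}
    (hD : D.Spec S) (C1 : ℝ) (hC1 : 1 ≤ C1) : ∃ C : ℝ, 1 ≤ C ∧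
    ∀ (j : ℕ) (v h T r m M : ℝ) (u ug p : E d) (ρ : RD d), 0 < v → v ≤ 1 → 0 < h → C * h ≤ v →
      0 < r → r ≤ h → 1 ≤ T * r * h ^ (2 * (2 * j + 8)) → D.NN u ≤ 1 →
      Osc D.NN u p r (h ^ (2 * j + 8)) → ρ.q = p.2 → ρ.Rep D u → ρ.Good0 D u v →
      m ≤ 0 → v / 2 ≤ ug.1 → ug.1 ≤ M → T * ‖ug - u‖ * h ≤ 1 → ‖p‖ ≤ C1 / v →
      (∀ φ, D.Feas φ m M → ‖φ‖ ≤ C1 / v ∧
        T * D.Bf φ m M ug ≤ T * (D.NN u + pair p (ug - u)) + C1 / v) →
      ∃ (ρ' : RD d) (u' : E d), ρ'.m = m ∧ ρ'.M = M ∧ u'.1 = ug.1 ∧ ρ'.Rep D u' ∧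
        ‖ρ'.q - ρ.q‖ ≤ h ^ (j + 3) ∧ ‖u' - u‖ ≤ r * h ^ (2 * j + 6) ∧
        T * h ^ (2 * j + 8) * ‖u' - u‖ ≤ 2 * h ^ (j + 3) ∧
        |D.Bf ρ'.q m M u' - D.NN u| ≤ h ^ (j + 3) ∧ D.lp 0 * (M - m) ≤ 2 ∧
        D.Bf ρ'.q m M u' - pair p (u' - u) ≤ D.Bf ρ'.q m M ug - pair p (ug - u) := by
  obtain ⟨K, hK, hb⟩ := n_bd d 0
  obtain ⟨c0, hc0, hc1, -, -, hgap, -⟩ := hD.exists_slack
  have hd : (0 : ℝ) ≤ d := Nat.cast_nonneg d
  have c2 : 0 < (d + 1) * C1 := by positivity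
  have c3 : 0 < 2 * K / c0 := by positivity
  refine ⟨4 + 2 * C1 + (d + 1) * C1 + 2 * K / c0, by linarith, ?_⟩
  intro j v h T r m M u ug p ρ hv hv1 hh hC hr hrh hT hN ho hq hρ hg hm ha hM hug hp hφ
  have sm : ∀ c : ℝ, c ≤ 4 + 2 * C1 + (d + 1) * C1 + 2 * K / c0 → c * h ≤ v := fun c hc =>
    (mul_le_mul_of_nonneg_right hc hh.le).trans hC
  have sm' : ∀ c : ℝ, c ≤ 4 + 2 * C1 + (d + 1) * C1 + 2 * K / c0 → c / v * h ≤ 1 := fun c hc => by
    rw [div_mul_eq_mul_div, div_le_one hv]; exact sm c hc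
  have h4 : 4 * h ≤ v := sm 4 (by linarith)
  have hh1 : h ≤ 1 := by linarith
  have pw : ∀ {a b : ℕ}, a ≤ b → h ^ b ≤ h ^ a := fun hab => pow_le_pow_of_le_one hh.le hh1 hab
  have hT0 : 0 < T := by
    by_contra k
    have : T * r * h ^ (2 * (2 * j + 8)) ≤ 0 :=
      mul_nonpos_of_nonpos_of_nonneg (mul_nonpos_of_nonpos_of_nonneg (not_lt.1 k) hr.le)
        (by positivity)
    linarith
  set H : ℝ := h ^ (j + 3) with hH
  have hH0 : 0 < H := by positivity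
  have hH1 : H ≤ h := by simpa using pw (show 1 ≤ j + 3 by omega)
  have eH : h ^ (2 * j + 6) = H ^ 2 := by rw [hH]; ring
  have ee : h ^ (2 * j + 8) = H ^ 2 * h ^ 2 := by rw [hH]; ring
  have eT : h ^ (2 * (2 * j + 8)) = (H ^ 2 * h ^ 2) ^ 2 := by rw [hH]; ring
  rw [eH]
  rw [ee] at ho ⊢
  rw [eT] at hT
  set e : ℝ := H ^ 2 * h ^ 2 with he
  have he0 : 0 < e := by positivity
  have heh : e ≤ H ^ 2 * h := by rw [he]; gcongr; nlinarith
  have hH2 : H ^ 2 ≤ H := by nlinarith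
  have he1 : e ≤ 1 := by nlinarith
  set t : ℝ := (T * e)⁻¹ with ht
  have ht0 : 0 < t := by positivity
  have hte : T * e * t = 1 := mul_inv_cancel₀ (by positivity)
  have htr : t ≤ r * e := by
    rw [ht, inv_le_iff_one_le_mul₀' (by positivity)]; linarith
  have hqv : ‖p.2‖ ≤ 1 / v := by rw [le_div_iff₀ hv, mul_comm, ← hq]; exact hg.hq
  have hW : ∀ φ, D.Feas φ m M → ‖φ - p.2‖ ≤ (C1 + 1) / v := fun φ hf => by
    rw [add_div]; linarith [norm_sub_le φ p.2, (hφ φ hf).1]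
  have hWh := sm' (C1 + 1) (by linarith)
  have hW0 : 0 < (C1 + 1) / v := by positivity
  -- the two small displacements
  have d1 : ‖ug - u‖ ≤ r * (H ^ 2 * h) := by
    have k1 : T * (‖ug - u‖ * h) ≤ T * (r * e ^ 2) := by linarith
    have k2 := le_of_mul_le_mul_left k1 hT0
    have k3 : r * e ^ 2 ≤ r * (H ^ 2 * h) * h := by
      have : e ^ 2 ≤ e := by nlinarith
      calc r * e ^ 2 ≤ r * e := by gcongr
        _ = r * (H ^ 2 * h) * h := by rw [he]; ring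
    exact le_of_mul_le_mul_right (k2.trans k3) hh
  have d2 : t * ((C1 + 1) / v) ≤ r * (H ^ 2 * h) := by
    calc t * ((C1 + 1) / v) ≤ r * e * ((C1 + 1) / v) := by gcongr
      _ = r * (H ^ 2 * h) * ((C1 + 1) / v * h) := by rw [he]; ring
      _ ≤ r * (H ^ 2 * h) * 1 := by gcongr
      _ = _ := mul_one _
  have d3 : r * (H ^ 2 * h) + r * (H ^ 2 * h) ≤ r * H ^ 2 := by
    have : 0 < r * H ^ 2 := by positivity
    nlinarith
  have d4 : r * H ^ 2 ≤ r := by nlinarith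
  obtain ⟨q, u', e1, hf, hB, n1, n2, n3⟩ := pen hPEN hHOM hD hm (by linarith) hM (by linarith)
    ht0.le ho hW (by linarith)
  have hdq := hW q hf
  have n4 : ‖u' - u‖ ≤ r * H ^ 2 := by
    have : t * ‖q - p.2‖ ≤ t * ((C1 + 1) / v) := by gcongr
    linarith
  have n5 : T * e * ‖u' - u‖ ≤ H ^ 2 * h + ‖q - p.2‖ := by
    calc T * e * ‖u' - u‖ ≤ T * e * (‖ug - u‖ + t * ‖q - p.2‖) := by gcongr
      _ = T * ‖ug - u‖ * h * (H ^ 2 * h) + T * e * t * ‖q - p.2‖ := by rw [he]; ring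
      _ ≤ 1 * (H ^ 2 * h) + 1 * ‖q - p.2‖ := by rw [hte]; gcongr
      _ = _ := by ring
  have hup := (hφ q hf).2
  have n6 : ‖q - p.2‖ ≤ H := by
    have k1 : T * (t * ‖q - p.2‖ ^ 2) ≤ C1 / v + T * (e * ‖u' - u‖) := by nlinarith
    have k2 : H ^ 2 * h ≤ 1 / v := by
      rw [le_div_iff₀ hv]; nlinarith [mul_pos (pow_pos hH0 2) hh]
    have k3 : T * (t * ‖q - p.2‖ ^ 2) ≤ (2 * C1 + 2) / v := by
      have : (2 * C1 + 2) / v = C1 / v + 1 / v + (C1 + 1) / v := by ring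
      linarith
    have k4 := sm' (2 * C1 + 2) (by linarith)
    have k5 : ‖q - p.2‖ ^ 2 ≤ H ^ 2 := by
      calc ‖q - p.2‖ ^ 2 = T * e * t * ‖q - p.2‖ ^ 2 := by rw [hte, one_mul]
        _ = T * (t * ‖q - p.2‖ ^ 2) * h * (H ^ 2 * h) := by rw [he]; ring
        _ ≤ (2 * C1 + 2) / v * h * (H ^ 2 * h) := by gcongr
        _ ≤ 1 * (H ^ 2 * 1) := by gcongr
        _ = H ^ 2 := by ring
    exact abs_le_of_sq_le_sq' k5 hH0.le |>.2
  have n7 : |pair p (u' - u)| ≤ H ^ 2 := by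
    refine (abs_pair_le _ _).trans ?_
    calc ((d : ℝ) + 1) * ‖p‖ * ‖u' - u‖ ≤ (d + 1) * (C1 / v) * (h * H ^ 2) := by
          gcongr; exact n4.trans (by gcongr)
      _ = (d + 1) * C1 / v * h * H ^ 2 := by ring
      _ ≤ 1 * H ^ 2 := by gcongr; exact sm' _ (by linarith)
      _ = _ := one_mul _
  have n8 : C1 / v ≤ T * H ^ 2 := by
    have k1 := sm' C1 (by linarith)
    have k2 : T * r * e ^ 2 ≤ T * h * H ^ 2 := by
      gcongr T * ?_ * ?_
      nlinarith [mul_pos (pow_pos hH0 2) hh]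
    have : C1 / v * h ≤ T * H ^ 2 * h := by linarith
    exact le_of_mul_le_mul_right this hh
  have n9 : D.Bf q m M ug ≤ D.NN u + pair p (ug - u) + H ^ 2 := by
    have : T * D.Bf q m M ug ≤ T * (D.NN u + pair p (ug - u) + H ^ 2) := by linarith
    exact le_of_mul_le_mul_left this hT0
  have n10 : 0 ≤ t * ‖q - p.2‖ ^ 2 := by positivity
  have n11 : e * ‖u' - u‖ ≤ H ^ 2 := by
    calc e * ‖u' - u‖ ≤ 1 * (1 * H ^ 2) := by gcongr; exact n4.trans (by gcongr; linarith)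
      _ = _ := by ring
  have n12 : 2 * H ^ 2 ≤ H := by nlinarith
  have n13 : |D.Bf q m M u' - D.NN u| ≤ H := by
    rw [abs_le] at n7 ⊢
    constructor <;> linarith [n7.1, n7.2]
  have hKH : K * H ≤ c0 * v / 2 := by
    have k1 := sm (2 * K / c0) (by linarith)
    rw [div_mul_eq_mul_div, div_le_iff₀ hc0] at k1
    have : K * H ≤ K * h := by gcongr
    linarith
  have hav : ∀ k < D.n, ev q 0 0 ≠ D.th k ∧ ev q 0 0 ≠ -D.th k := by
    refine avoid hD hgap hρ hg (e := K * H) ?_ (by nlinarith) (by nlinarith)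
    rw [hq, ← ev_sub]
    exact (hb (q - p.2) 0 0 0 (by simp) (by simp)).1.trans (by gcongr)
  obtain ⟨Z, mu, -, hR⟩ := hKKT d S D hD u' q m M hm (by linarith) (by linarith) (by linarith) hf hB
    (Or.inr hav)
  refine ⟨⟨q, m, M, Z, mu⟩, u', rfl, rfl, e1, hR, by rwa [hq], n4, ?_, n13, ?_, by linarith⟩
  · have : H ^ 2 * h ≤ H := by nlinarith
    linarith
  · have := ((hHOM d S D hD).2.2.1 u' m M hm (by linarith) (by linarith) (by linarith)).2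
    linarith [(abs_le.1 n13).2]

end NearA

end Pool.Agent.P.MP_a0f0ad_al.Fi
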