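import Pool.Agent.P.MP_a0f0ad_al.Fi.N.Near1

/-! Step NEAR of the filiform project: the reverse order and the pinned ends. -/

namespace Pool.Agent.P.MP_a0f0ad_al.Fi

open Finset MeasureTheory

namespace NearA

variable {d : ℕ}

/-- three passes over the middle are expensive -/
theorem rev (hNOM : S_NOM) {S : Finset (G d)} {D : LD d} (hD : D.Spec S) : ∃ C : ℝ, 1 ≤ C ∧
    ∀ (v h a : ℝ) (u : E d) (ρ : RD d) (q : Fin d → ℝ), 0 < v → v ≤ 1 → 0 < h → C * h ≤ v ^ 4 →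
      Nonconst ρ.q → ρ.Good0 D u v → v / 2 ≤ a → a + 1 ≤ D.Lam → D.Feas q 0 a →
      ‖q - ρ.q‖ ≤ h → h ≤ ∫ x in (0 : ℝ)..a, D.om (ev q 0 x) := by
  obtain ⟨K, hK, hb⟩ := n_bd d D.Lam
  obtain ⟨C0, hC0, -, -, -, hom, -⟩ := hD.exists_bound
  obtain ⟨C2, hC2, h2⟩ := hNOM d S D hD
  have hL := hD.Lam_pos
  have c1 : 0 < C2 * K := by positivity
  have c2 : 0 < C2 * (1 + C0 * K * D.Lam) := by positivity
  refine ⟨1 + K + 4 * (C2 * K) + 8 * (C2 * (1 + C0 * K * D.Lam)), by linarith, ?_⟩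
  intro v h a u ρ q hv hv1 hh hC hq hg ha haL hf hdq
  have sm : ∀ c : ℝ, c ≤ 1 + K + 4 * (C2 * K) + 8 * (C2 * (1 + C0 * K * D.Lam)) → c * h ≤ v ^ 4 :=
    fun c hc => (mul_le_mul_of_nonneg_right hc hh.le).trans hC
  have v3 : v ^ 4 ≤ v ^ 3 := pow_le_pow_of_le_one hv.le hv1 (by norm_num)
  have v1 : v ^ 4 ≤ 1 := pow_le_one₀ hv.le hv1
  have ha0 : 0 ≤ a := by linarith
  have hx : ∀ x ∈ Set.Icc 0 a, |ev q 0 x - ev ρ.q 0 x| ≤ K * h := fun x hx => by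
    have hx' : |x| ≤ D.Lam := by rw [abs_of_nonneg hx.1]; linarith [hx.2]
    rw [← ev_sub]
    exact (hb _ 0 x x hx' hx').1.trans (by gcongr)
  have k1 := (h2 u ρ v 0 a (K * h) hv hv1 hq hg (by simp; linarith)
    (by rwa [abs_of_nonneg ha0]) ha0 (by positivity) ((sm K (by linarith)).trans v1)
    (fun x hx' => by
      have k := abs_sub_abs_le_abs_sub (ev ρ.q 0 x) (ev q 0 x)
      rw [abs_sub_comm] at k
      linarith [hx x hx', hf x hx'])).2.2 (v / 2) (by linarith) (by linarith) (by linarith)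
      (by linarith [sm (4 * (C2 * K)) (by linarith)])
  have hc : ∀ f : Fin d → ℝ, Continuous fun x => D.om (ev f 0 x) := fun f =>
    hD.continuous_om.comp (continuous_ev f 0)
  have k2 : ∫ x in (0 : ℝ)..a, D.om (ev ρ.q 0 x) ≤
      ∫ x in (0 : ℝ)..a, (D.om (ev q 0 x) + C0 * (K * h)) := by
    refine intervalIntegral.integral_mono_on ha0 ((hc _).intervalIntegrable _ _)
      (((hc _).add continuous_const).intervalIntegrable _ _) fun x hx' => ?_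
    have k := hom (ev q 0 x) (ev ρ.q 0 x)
    have k' : C0 * |ev q 0 x - ev ρ.q 0 x| ≤ C0 * (K * h) := by gcongr; exact hx x hx'
    linarith [(abs_le.1 k).1]
  rw [intervalIntegral.integral_add ((hc _).intervalIntegrable _ _) intervalIntegrable_const,
    intervalIntegral.integral_const, smul_eq_mul, sub_zero] at k2
  have k3 : a * (C0 * (K * h)) ≤ D.Lam * (C0 * (K * h)) := by gcongr; linarith
  have k4 := sm (8 * (C2 * (1 + C0 * K * D.Lam))) (by linarith)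
  have k5 : C2 * ((1 + C0 * K * D.Lam) * h) ≤ C2 * ∫ x in (0 : ℝ)..a, D.om (ev ρ.q 0 x) := by
    linarith
  linarith [le_of_mul_le_mul_left k5 hC2]

/-- the overshoot at pinned ends is paid for -/
theorem gain (hNPIN : S_NPIN) (hNTRIM : S_NTRIM) {S : Finset (G d)} {D : LD d} (hD : D.Spec S)
    (C1 : ℝ) (hC1 : 1 ≤ C1) : ∃ C : ℝ, 1 ≤ C ∧
    ∀ (v h T r e lin B : ℝ) (u u' p : E d) (ρ ρ' : RD d), 0 < v → v ≤ 1 → 0 < h →
      C * h ≤ v ^ 4 → 0 < r → r ≤ h → 1 ≤ T * r * h ^ 3 → 0 ≤ e → e ≤ h ^ 3 → D.NN u ≤ 1 →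
      Osc D.NN u p r e → ρ.q = p.2 → ρ.Opt D u p.1 → ρ.Good0 D u v → ρ'.Rep D u' → 0 ≤ u'.1 →
      D.Bf ρ'.q ρ'.m ρ'.M u' ≤ 2 → ‖ρ'.q - ρ.q‖ ≤ h ^ 3 → ‖u' - u‖ ≤ r * h ^ 3 →
      T * e * ‖u' - u‖ ≤ 2 * h ^ 3 →
      D.Bf ρ'.q ρ'.m ρ'.M u' - pair p (u' - u) ≤ B - lin → T * B ≤ T * (D.NN u + lin) + C1 / v →
      T * (D.NN u + lin) + ρ.DM D * (T * (ρ'.M - u'.1)) + ρ.Dm D * (T * -ρ'.m) - h / 2 ≤
        T * B := by
  obtain ⟨c, hc, hc1, hp⟩ := hNPIN d S D hD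
  obtain ⟨CT, hCT, ht⟩ := hNTRIM d S D hD
  have c1 : 0 < 16 * (C1 + 1) / c := by positivity
  have c2 : 0 < 16 * CT * (C1 + 1) / c := by positivity
  refine ⟨8 + 3 * CT + 16 * (C1 + 1) / c + 16 * CT * (C1 + 1) / c, by linarith, ?_⟩
  intro v h T r e lin B u u' p ρ ρ' hv hv1 hh hC hr hrh hT he0 he hN ho hq hO hg hR ha' hB hdq hdu
    hTe hlin hup
  have v2 : v ^ 4 ≤ v ^ 2 := pow_le_pow_of_le_one hv.le hv1 (by norm_num)
  have v1 : v ^ 2 ≤ v := by nlinarith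
  have sm : ∀ x : ℝ, x ≤ 8 + 3 * CT + 16 * (C1 + 1) / c + 16 * CT * (C1 + 1) / c →
      x * h ≤ v ^ 2 := fun x hx => (mul_le_mul_of_nonneg_right hx hh.le).trans (hC.trans v2)
  have h8 : 8 * h ≤ 1 := by linarith [sm 8 (by linarith)]
  have hT0 : 0 < T := by
    by_contra k
    have : T * r * h ^ 3 ≤ 0 :=
      mul_nonpos_of_nonpos_of_nonneg (mul_nonpos_of_nonpos_of_nonneg (not_lt.1 k) hr.le)
        (by positivity)
    linarith
  have ha := hg.ha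
  obtain ⟨p1, p2⟩ := hp u ρ v hv hv1 hO.1 hg
  have hA : ρ.DM D = 0 ∨ c * v ≤ ρ.DM D := by
    rcases hO.1.2.1.lt_or_eq with k | k
    · exact Or.inl (hO.2.2.2.1 k)
    · exact Or.inr (p2 k.symm)
  have hA' : ρ.Dm D = 0 ∨ c * v ≤ ρ.Dm D := by
    rcases hO.1.1.lt_or_eq with k | k
    · exact Or.inl (hO.2.2.2.2.2.1 k)
    · exact Or.inr (p1 k)
  have s1 : 16 * (C1 + 1) * h ≤ c * v ^ 2 := by
    have := sm (16 * (C1 + 1) / c) (by linarith)
    rw [div_mul_eq_mul_div, div_le_iff₀ hc] at this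
    linarith
  have s2 : 16 * CT * (C1 + 1) * h ≤ c * v ^ 2 := by
    have := sm (16 * CT * (C1 + 1) / c) (by linarith)
    rw [div_mul_eq_mul_div, div_le_iff₀ hc] at this
    linarith
  have s3 : 3 * CT * h ≤ v := (sm (3 * CT) (by linarith)).trans v1
  have h2 : 0 < h ^ 2 := by positivity
  have h3 : h ^ 3 ≤ h ^ 2 / 8 := by nlinarith
  have h2' : h ^ 2 ≤ h / 8 := by nlinarith
  have hrr : r * h ^ 2 ≤ r := by nlinarith
  have hv' : 1 ≤ v⁻¹ := (one_le_inv₀ hv).2 hv1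
  have hε : CT * (e + ‖ρ'.q - ρ.q‖ + v⁻¹ * (r * h ^ 2)) ≤ h ^ 2 := by
    have k1 : v⁻¹ * (r * h ^ 2) ≤ v⁻¹ * h ^ 3 := by
      gcongr; calc r * h ^ 2 ≤ h * h ^ 2 := by gcongr
        _ = h ^ 3 := by ring
    have k2 : h ^ 3 ≤ v⁻¹ * h ^ 3 := le_mul_of_one_le_left (by positivity) hv'
    calc CT * (e + ‖ρ'.q - ρ.q‖ + v⁻¹ * (r * h ^ 2)) ≤ CT * (3 * (v⁻¹ * h ^ 3)) := by
          gcongr; linarith
      _ = 3 * CT * h * v⁻¹ * h ^ 2 := by ring
      _ ≤ v * v⁻¹ * h ^ 2 := by gcongr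
      _ = h ^ 2 := by rw [mul_inv_cancel₀ hv.ne', one_mul]
  have hcv : 0 < c * v := by positivity
  have hb1 : C1 / v + 1 ≤ (C1 + 1) / v := by
    rw [add_div, one_div]; linarith
  have key := two_ends (T := T) (o := ρ'.M - u'.1) (o' := -ρ'.m) (s0 := r * h ^ 2 / (4 * CT))
    (A := ρ.DM D) (A' := ρ.Dm D) (ε := h ^ 2) (b := (C1 + 1) / v) (cv := c * v)
    (Y := T * B - T * (D.NN u + lin) + 2 * h ^ 3) hT0 (by linarith [hR.2.1]) (by linarith [hR.1])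
    (by positivity) hA hA' h2.le
    (by nlinarith [mul_pos hc hv]) (by positivity) ?_ (by linarith) hcv ?_
  · have k1 : h ^ 2 * (4 * ((C1 + 1) / v) / (c * v)) ≤ h / 4 := by
      have e1 : h ^ 2 * (4 * ((C1 + 1) / v) / (c * v)) = h / 4 * (16 * (C1 + 1) * h / (c * v ^ 2)) := by
        field_simp; ring
      rw [e1]
      refine mul_le_of_le_one_right (by positivity) ?_
      rwa [div_le_one (by positivity)]
    linarith
  · have e1 : T * (r * h ^ 2 / (4 * CT)) * (c * v) = T * r * h ^ 3 * (c * v ^ 2 / (4 * CT * h * v)) := by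
      field_simp
    have e2 : 4 * ((C1 + 1) / v) ≤ c * v ^ 2 / (4 * CT * h * v) := by
      rw [le_div_iff₀ (by positivity)]
      have : 4 * ((C1 + 1) / v) * (4 * CT * h * v) = 16 * CT * (C1 + 1) * h := by field_simp; ring
      linarith
    have e3 : 0 < (C1 + 1) / v := by positivity
    rw [e1]
    nlinarith
  · intro s s' a1 a2 a3 b1 b2 b3
    have k0 : CT * (s + s') ≤ r * h ^ 2 / 2 := by
      calc CT * (s + s') ≤ CT * (r * h ^ 2 / (4 * CT) + r * h ^ 2 / (4 * CT)) := by gcongr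
        _ = r * h ^ 2 / 2 := by field_simp; ring
    have k0' : r * h ^ 3 ≤ r * (h ^ 2 / 8) := by gcongr
    have k0'' : 0 < r * h ^ 2 := by positivity
    have k1 := ht u u' p ρ ρ' v⁻¹ (r * h ^ 2) e s s' hq hO
      (fun y hy => ho y (hy.trans hrr)) hR (by linarith) ha' hN hB hv'
      (by rw [← one_div, le_div_iff₀ hv, mul_comm]; exact hg.hq) he0 (by linarith) a1 a2 b1 b2
      (by linarith)
    have k2 : CT * (e + ‖ρ'.q - ρ.q‖ + v⁻¹ * (r * h ^ 2)) * (s + s') ≤ h ^ 2 * (s + s') := by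
      gcongr
    have k3 : T * (D.NN u + lin - e * ‖u' - u‖ + s * ρ.DM D + s' * ρ.Dm D - h ^ 2 * (s + s')) ≤
        T * B := by gcongr; linarith
    linarith

end NearA

end Pool.Agent.P.MP_a0f0ad_al.Fi
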