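import Pool.Agent.P.MP_a0f0ad_al.Fi.V.Iface
import Pool.Agent.P.MP_a0f0ad_al.Fi.N.Basic
import Pool.Agent.P.MP_a0f0ad_al.Fi.Z.Bm

/-! Step NEAR of the filiform project: the continuous part. -/

namespace Pool.Agent.P.MP_a0f0ad_al.Fi

open Finset MeasureTheory

namespace NearA

variable {d : ℕ}

/-- the penalised dual problem -/
theorem pen (hPEN : S_PEN) (hHOM : S_HOM) {S : Finset (G d)} {D : LD d} (hD : D.Spec S)
    {u ug p : E d} {m M t r e W : ℝ} (hm : m ≤ 0) (ha : 0 ≤ ug.1) (hM : ug.1 ≤ M) (hmM : m < M)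
    (ht : 0 ≤ t) (ho : Osc D.NN u p r e) (hW : ∀ φ, D.Feas φ m M → ‖φ - p.2‖ ≤ W)
    (hr : ‖ug - u‖ + t * W ≤ r) :
    ∃ (q : Fin d → ℝ) (u' : E d), u'.1 = ug.1 ∧ D.Feas q m M ∧ D.Bf q m M u' = D.Psi m M u' ∧
      ‖u' - u‖ ≤ ‖ug - u‖ + t * ‖q - p.2‖ ∧
      D.NN u + pair p (u' - u) - e * ‖u' - u‖ ≤ D.Bf q m M u' ∧
      D.Bf q m M u' - pair p (u' - u) + t * ‖q - p.2‖ ^ 2 ≤ D.Bf q m M ug - pair p (ug - u) := by
  obtain ⟨q, hq, hB⟩ := (hPEN d S D hD m M ug hm ha hM hmM).2 p.2 t ht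
  have hn : ‖((ug.1, ug.2 - t • (q - p.2)) : E d) - u‖ ≤ ‖ug - u‖ + t * ‖q - p.2‖ := by
    have e1 : ((ug.1, ug.2 - t • (q - p.2)) : E d) - u = (ug - u) - ((0, t • (q - p.2)) : E d) := by
      ext <;> simp
      ring
    rw [e1]
    refine (norm_sub_le _ _).trans (add_le_add le_rfl (le_of_eq ?_))
    rw [Prod.norm_mk, norm_zero, max_eq_right (norm_nonneg _), norm_smul, Real.norm_eq_abs,
      abs_of_nonneg ht]
  refine ⟨q, (ug.1, ug.2 - t • (q - p.2)), rfl, hq, hB, hn, ?_, ?_⟩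
  · have h1 := ho _ (hn.trans (le_trans (by gcongr; exact hW q hq) hr))
    have h2 := ((hHOM d S D hD).2.2.1 (ug.1, ug.2 - t • (q - p.2)) m M hm ha hM hmM).1
    rw [hB]
    linarith [(abs_le.1 h1).1]
  · have h1 := norm_sq_le_dot (q - p.2)
    have h2 : t * ‖q - p.2‖ ^ 2 ≤ t * dot (q - p.2) (q - p.2) := by gcongr
    rw [dot_sub_left] at h2
    simp only [LD.Bf, pair, Prod.fst_sub, Prod.snd_sub, dot_sub_right, dot_smul_right] at h2 ⊢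
    linarith

theorem one_end {T o s0 A ε b cv : ℝ} (hT : 0 < T) (ho : 0 ≤ o) (hs0 : 0 ≤ s0)
    (hA : A = 0 ∨ cv ≤ A) (hε : 2 * ε ≤ cv) (hb0 : 0 ≤ b) (hb : 2 * b < T * s0 * cv)
    (h : ∀ s, 0 ≤ s → s ≤ o → s ≤ s0 → T * s * (A - ε) ≤ b) :
    ∃ s, 0 ≤ s ∧ s ≤ o ∧ s ≤ s0 ∧ s * A = o * A ∧ T * s * cv ≤ 2 * b := by
  rcases hA with rfl | hA
  · exact ⟨0, le_rfl, ho, hs0, by simp, by simpa using by linarith⟩
  · have key : ∀ s, 0 ≤ s → s ≤ o → s ≤ s0 → T * s * cv ≤ 2 * b := fun s h1 h2 h3 => by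
      have h4 := h s h1 h2 h3
      have h5 : T * s * (cv / 2) ≤ T * s * (A - ε) := by gcongr; linarith
      linarith
    have hos : o ≤ s0 := by
      by_contra k
      linarith [key s0 hs0 (not_le.1 k).le le_rfl]
    exact ⟨o, ho, le_rfl, hos, rfl, key o ho le_rfl hos⟩

theorem two_ends {T o o' s0 A A' ε b cv Y : ℝ} (hT : 0 < T) (ho : 0 ≤ o) (ho' : 0 ≤ o')
    (hs0 : 0 ≤ s0) (hA : A = 0 ∨ cv ≤ A) (hA' : A' = 0 ∨ cv ≤ A') (hε0 : 0 ≤ ε)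
    (hε : 2 * ε ≤ cv) (hb0 : 0 ≤ b) (hb : 2 * b < T * s0 * cv) (hY : Y ≤ b) (hcv : 0 < cv)
    (h : ∀ s s', 0 ≤ s → s ≤ o → s ≤ s0 → 0 ≤ s' → s' ≤ o' → s' ≤ s0 →
      T * s * (A - ε) + T * s' * (A' - ε) ≤ Y) :
    A * (T * o) + A' * (T * o') - ε * (4 * b / cv) ≤ Y := by
  obtain ⟨s, a1, a2, a3, a4, a5⟩ := one_end hT ho hs0 hA hε hb0 hb fun s h1 h2 h3 => by
    have := h s 0 h1 h2 h3 le_rfl ho' hs0
    simp only [mul_zero, zero_mul, add_zero] at this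
    linarith
  obtain ⟨s', b1, b2, b3, b4, b5⟩ := one_end hT ho' hs0 hA' hε hb0 hb fun s h1 h2 h3 => by
    have := h 0 s le_rfl ho hs0 h1 h2 h3
    simp only [mul_zero, zero_mul, zero_add] at this
    linarith
  have h1 := h s s' a1 a2 a3 b1 b2 b3
  have h2 : T * s + T * s' ≤ 4 * b / cv := by rw [le_div_iff₀ hcv]; linarith
  have h3 : ε * (T * s + T * s') ≤ ε * (4 * b / cv) := by gcongr
  have h4 : T * (s * A) = T * (o * A) := by rw [a4]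
  have h5 : T * (s' * A') = T * (o' * A') := by rw [b4]
  linarith

/-- the dual polynomial of the word avoids the thresholds at the origin -/
theorem avoid {S : Finset (G d)} {D : LD d} (hD : D.Spec S) {c0 v e : ℝ} {u : E d} {ρ : RD d}
    (hc : ∀ w ∈ D.ThA, ∀ w' ∈ D.ThA, w ≠ w' → c0 ≤ |w - w'|) (hr : ρ.Rep D u)
    (hg : ρ.Good0 D u v) {y : ℝ} (hy : |y - ev ρ.q 0 0| ≤ e) (h1 : e < c0) (h2 : e < v) :
    ∀ k < D.n, y ≠ D.th k ∧ y ≠ -D.th k := by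
  have key : ∀ w ∈ D.ThA, |w| < D.Q → y ≠ w := by
    intro w hw hwQ hyw
    rw [hyw] at hy
    rcases hg.r3 0 (Or.inl rfl) with ⟨k1, -⟩ | k
    · have k2 := (hr.2.2.2.2.1 0 k1).2.2.1
      have k3 : ev ρ.q 0 0 ∈ D.ThA := by
        rcases abs_cases (ev ρ.q 0 0) with k | k
        · exact Or.inl (by linarith [k.1])
        · exact Or.inr (Or.inl (by linarith [k.1]))
      have := hc w hw _ k3 fun k => by rw [k] at hwQ; linarith
      linarith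
    · have := k w hw
      rw [abs_sub_comm] at this
      linarith
  intro k hk
  have hq := hD.thQ k hk
  exact ⟨key _ (Or.inr (Or.inr ⟨k, hk, Or.inl rfl⟩)) (abs_lt.2 hq),
    key _ (Or.inr (Or.inr ⟨k, hk, Or.inr rfl⟩)) (by rw [abs_neg]; exact abs_lt.2 hq)⟩

end NearA

end Pool.Agent.P.MP_a0f0ad_al.Fi
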