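import Pool.Agent.P.MP_a0f0ad_al.Fi.W.Iface
import Pool.Agent.P.MP_a0f0ad_al.Fi.N.Near1

/-! Step NEAR of the filiform project: the data of a geodesic word. -/

namespace Pool.Agent.P.MP_a0f0ad_al.Fi

open Finset MeasureTheory

namespace NearA

variable {d : ℕ}

theorem ht_le {S : Finset (G d)} {w : List (G d)} (hw : Wd S w) {B : ℝ}
    (hB : ∀ s ∈ S, |(s.a : ℝ)| ≤ B) : ∀ k ≤ w.length, |(ht w k : ℝ)| ≤ B * k := by
  intro k
  induction k with
  | zero => simp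
  | succ k ih =>
    intro hk
    rw [ht_succ]
    push_cast
    have h1 := hB _ (hw.lt_mem (Nat.lt_of_succ_le hk))
    have h2 := ih (Nat.le_of_succ_le hk)
    linarith [abs_add_le (ht w k : ℝ) ((lt w k).a : ℝ)]

theorem ell_nonneg (u : E d) : 0 ≤ ell u := le_max_of_le_left (abs_nonneg _)

theorem wd (hMARK : S_MARK) (hHOM : S_HOM) (hACC : S_ACC) (hFB : S_FB) (hNRNG : S_NRNG)
    {S : Finset (G d)} {D : LD d} (hd : 2 ≤ d) (hD : D.Spec S) :
    ∃ C1 : ℝ, 1 ≤ C1 ∧ ∃ C : ℝ, 1 ≤ C ∧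
    ∀ (v h T r e : ℝ) (u p ug : E d) (w : List (G d)), 0 < v → v ≤ 1 → 0 < h → C * h ≤ v →
      0 < r → r ≤ h → 1 ≤ T * r * h ^ 3 → e ≤ h → D.NN u ≤ 1 → v ≤ u.1 → v ≤ ell u ^ d →
      Grad D.NN p u → Osc D.NN u p r e → Geo S w → h * ‖nx T w.prod - T • u‖ ≤ 1 →
      ug = T⁻¹ • nx T w.prod →
      ∃ τ1 τ2 : ℕ, τ1 ≤ w.length ∧ τ2 ≤ w.length ∧
        (∀ k ≤ w.length, ht w τ1 ≤ ht w k ∧ ht w k ≤ ht w τ2) ∧
        (ht w τ1 : ℝ) / T ≤ 0 ∧ v / 2 ≤ ug.1 ∧ ug.1 ≤ ht w τ2 / T ∧ T * ug.1 = w.prod.a ∧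
        T * ‖ug - u‖ * h ≤ 1 ∧ ‖p‖ ≤ C1 / ell u ^ d ∧ 1 ≤ C1 / ell u ^ d ∧
        |Fb T (D.NN u) u p w.length w.prod| ≤ C1 / ell u ^ d ∧
        ∀ φ, D.Feas φ (ht w τ1 / T) (ht w τ2 / T) → ‖φ‖ ≤ C1 / ell u ^ d ∧
          |CT T φ w| ≤ C1 / ell u ^ d ∧
          T * D.Bf φ (ht w τ1 / T) (ht w τ2 / T) ug ≤
            T * (D.NN u + pair p (ug - u)) + 3 * C1 / ell u ^ d ∧
          (τ1 ≤ τ2 → SB D T φ w τ1 τ2 - CT T φ w + T * D.Bf φ (ht w τ1 / T) (ht w τ2 / T) ug ≤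
            T * (D.NN u + pair p (ug - u)) + Fb T (D.NN u) u p w.length w.prod + h / 2) ∧
          (τ2 ≤ τ1 → T * D.Bf φ (ht w τ1 / T) (ht w τ2 / T) ug +
            T * ∫ x in (0 : ℝ)..ug.1, D.om (ev φ 0 x) ≤
            T * (D.NN u + pair p (ug - u)) + 2 * C1 / ell u ^ d) := by
  obtain ⟨-, -, -, ⟨L0, hL0⟩, -⟩ := hHOM d S D hD
  obtain ⟨C0, hC0, -, -, -, -, -, hS, -⟩ := hD.exists_bound
  obtain ⟨c0, hc0, -, hom, -⟩ := hD.exists_slack
  obtain ⟨CF, hCF, hF⟩ := hFB d S D hd hD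
  obtain ⟨CA, hA⟩ := hACC d S D 2 hD
  obtain ⟨CR, hCR, hR⟩ := hNRNG d S (max 2 L0) hd
  obtain ⟨CM, hCM, hM⟩ := hMARK d (2 * C0)
  have hQ := hD.Qpos
  have hd0 : (0 : ℝ) ≤ d := Nat.cast_nonneg d
  set W : ℝ := CR ^ d * (CM * D.Q) with hW
  set U : ℝ := (CR * (4 * C0)) ^ d with hU
  have hW0 : 0 < W := by positivity
  have hU0 : 0 < U := by positivity
  have c1 : 0 ≤ |CA| * W := by positivity
  have c2 : 0 < (d + 1) * CF := by positivity
  have c3 : 0 ≤ d * CF := by positivity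
  set C1 : ℝ := 1 + CF + U + W + |CA| * W with hC1
  refine ⟨C1, by linarith, 2 + CR + (d + 1) * CF + C1, by linarith, ?_⟩
  intro v h T r e u p ug w hv hv1 hh hC hr hrh hT he hN ha hl hG ho hw hg hug
  have sm : ∀ c : ℝ, c ≤ 2 + CR + (d + 1) * CF + C1 → c * h ≤ v := fun c hc =>
    (mul_le_mul_of_nonneg_right hc hh.le).trans hC
  have h2 : 2 * h ≤ v := sm 2 (by linarith)
  have hh1 : h ≤ 1 := by linarith
  have hT0 : 0 < T := by
    by_contra k
    have : T * r * h ^ 3 ≤ 0 :=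
      mul_nonpos_of_nonpos_of_nonneg (mul_nonpos_of_nonpos_of_nonneg (not_lt.1 k) hr.le)
        (by positivity)
    linarith
  have pw : ∀ {a b : ℕ}, a ≤ b → h ^ b ≤ h ^ a := fun hab => pow_le_pow_of_le_one hh.le hh1 hab
  have hT4 : 1 ≤ T * h ^ 4 := hT.trans (by
    calc T * r * h ^ 3 ≤ T * h * h ^ 3 := by gcongr
      _ = T * h ^ 4 := by ring)
  have hTj : ∀ j ≤ 4, 1 ≤ T * h ^ j := fun j hj => hT4.trans (by gcongr T * ?_; exact pw hj)
  have hT1 : 1 ≤ T := by simpa using hTj 0 (by norm_num)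
  have hTh : 1 ≤ T * h := by simpa using hTj 1 (by norm_num)
  set N : ℝ := ‖nx T w.prod - T • u‖ with hNdef
  have hN0 : 0 ≤ N := norm_nonneg _
  have hN1 : N ≤ T * r * h ^ 2 := by
    have : h * N ≤ h * (T * r * h ^ 2) := by linarith
    exact le_of_mul_le_mul_left this hh
  have hN2 : T * r * h ^ 2 ≤ T * r :=
    mul_le_of_le_one_right (by positivity) (by simpa using pw (show 0 ≤ 2 by norm_num))
  have hCFr : CF * r ≤ v := by
    have : CF * r ≤ CF * h := by gcongr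
    linarith [sm CF (by linarith)]
  set l : ℝ := ell u ^ d with hldef
  have hl0 : 0 < l := by linarith
  obtain ⟨hp, hFb⟩ := hF T r e u p w.prod hT1 (by linarith) hN hG ho (hN1.trans hN2)
    ((mul_le_mul_of_nonneg_right he hN0).trans hg) (by linarith) (by linarith)
  rw [← hw.2] at hFb
  have hv' : ∀ c : ℝ, 0 ≤ c → c ≤ 2 + CR + (d + 1) * CF + C1 → c / l * h ≤ 1 := fun c h0 hc => by
    rw [div_mul_eq_mul_div, div_le_one hl0]; exact (sm c hc).trans hl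
  have hsub : nx T w.prod - T • u = T • (ug - u) := by
    rw [hug, smul_sub, smul_smul, mul_inv_cancel₀ hT0.ne', one_smul]
  have hNT : N = T * ‖ug - u‖ := by
    rw [hNdef, hsub, norm_smul, Real.norm_eq_abs, abs_of_pos hT0]
  have hlen : (w.length : ℝ) =
      Fb T (D.NN u) u p w.length w.prod + T * (D.NN u + pair p (ug - u)) := by
    rw [Fb, hsub, pair_smul]; ring
  have hlen2 : (w.length : ℝ) ≤ 2 * T := by
    have k1 : |pair p (nx T w.prod - T • u)| ≤ (d + 1) * CF / l * N := by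
      refine (abs_pair_le _ _).trans ?_
      rw [mul_div_assoc]; gcongr
    rw [hsub, pair_smul] at k1
    have k2 := hv' ((d + 1) * CF) c2.le (by linarith)
    have k3 := hv' CF hCF.le (by linarith)
    have k4 : (d + 1) * CF / l * h * (h * N) ≤ 1 * 1 := by gcongr
    have k5 : CF / l * h * h ≤ 1 * 1 := by gcongr
    have k6 : 2 * h ^ 2 ≤ 1 := by nlinarith
    have k7 : ((d + 1) * CF / l * N + CF / l) * h ^ 2 ≤ T * h ^ 2 := by
      have := hTj 4 le_rfl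
      have k8 : T * h ^ 2 * (2 * h ^ 2) ≤ T * h ^ 2 * 1 := by gcongr
      nlinarith
    have k8 := le_of_mul_le_mul_right k7 (by positivity)
    have k9 : T * D.NN u ≤ T * 1 := by gcongr
    linarith [(abs_le.1 k1).2, (abs_le.1 hFb).2]
  have hugu : ‖ug - u‖ ≤ h := by
    have : T * ‖ug - u‖ ≤ T * h := by
      have : T * r ≤ T * h := by gcongr
      linarith
    exact le_of_mul_le_mul_left this hT0
  have hug1 : v / 2 ≤ ug.1 := by
    have : |ug.1 - u.1| ≤ h := (norm_fst_le (ug - u)).trans hugu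
    linarith [(abs_le.1 this).1]
  have hTa : T * ug.1 = w.prod.a := by
    rw [hug]; simp only [nx, Prod.smul_fst, smul_eq_mul]; field_simp
  have ha1 : (1 : ℝ) ≤ w.prod.a := by
    have : T * h ≤ T * ug.1 := by gcongr; linarith
    linarith
  obtain ⟨τ1, t1, t1'⟩ := (range (w.length + 1)).exists_min_image (ht w) ⟨0, by simp⟩
  obtain ⟨τ2, t2, t2'⟩ := (range (w.length + 1)).exists_max_image (ht w) ⟨0, by simp⟩
  rw [mem_range, Nat.lt_succ_iff] at t1 t2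
  have hx : ∀ k ≤ w.length, ht w τ1 ≤ ht w k ∧ ht w k ≤ ht w τ2 := fun k hk =>
    ⟨t1' k (by simpa [Nat.lt_succ_iff] using hk), t2' k (by simpa [Nat.lt_succ_iff] using hk)⟩
  have hm0 : (ht w τ1 : ℝ) / T ≤ 0 := by
    refine div_nonpos_of_nonpos_of_nonneg ?_ hT0.le
    exact_mod_cast (by simpa using (hx 0 (Nat.zero_le _)).1 : ht w τ1 ≤ 0)
  have haM : ug.1 ≤ (ht w τ2 : ℝ) / T := by
    rw [le_div_iff₀ hT0, mul_comm, hTa, ← ht_length]
    exact_mod_cast (hx _ le_rfl).2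
  have hbd : ∀ k ≤ w.length, |(ht w k : ℝ) / T| ≤ 2 * C0 := fun k hk => by
    rw [abs_div, abs_of_pos hT0, div_le_iff₀ hT0]
    have k1 := ht_le hw.1 (fun s hs => (hS s hs).1) k hk
    have k2 : (k : ℝ) ≤ 2 * T := le_trans (by exact_mod_cast hk) hlen2
    have k3 : C0 * k ≤ C0 * (2 * T) := by gcongr
    linarith
  have b1 := abs_le.1 (hbd τ1 t1)
  have b2 := abs_le.1 (hbd τ2 t2)
  have hell := hR T w τ1 τ2 u hT1 hw.1 (hlen2.trans (by gcongr; exact le_max_left _ _)) hx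
    (by exact_mod_cast ha1) ((hL0 u (by linarith) (by linarith)).trans (le_max_right _ _))
    (by
      rw [← hug]
      have : CR * ‖ug - u‖ ≤ CR * h := by gcongr
      linarith [sm CR (by linarith)])
    (by
      have k1 : CR * 1 ≤ CR * (T * h) := by gcongr
      have k2 : T * (CR * h) ≤ T * l := by gcongr; linarith [sm CR (by linarith)]
      linarith)
  have hlp : l ≤ CR ^ d * ((ht w τ2 : ℝ) / T - ht w τ1 / T) ^ d := by
    rw [← mul_pow]; exact pow_le_pow_left₀ (ell_nonneg u) hell d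
  have hlU : l ≤ U := pow_le_pow_left₀ (ell_nonneg u) (hell.trans (by gcongr; linarith)) d
  have dv : ∀ c, c ≤ C1 → c / l ≤ C1 / l := fun c hc => by gcongr
  have hFb' := hFb.trans (dv CF (by linarith))
  refine ⟨τ1, τ2, t1, t2, hx, hm0, hug1, haM, hTa, by rw [← hNT]; linarith, hp.trans (dv _ (by linarith)),
    by rw [le_div_iff₀ hl0]; linarith, hFb', fun φ hφ => ?_⟩
  have k1 := (hM φ _ _ D.Q (by linarith) b1.1 b2.2 hφ).1
  have k2 : ‖φ‖ ≤ W / l := by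
    rw [le_div_iff₀ hl0]
    calc ‖φ‖ * l ≤ ‖φ‖ * (CR ^ d * ((ht w τ2 : ℝ) / T - ht w τ1 / T) ^ d) := by gcongr
      _ = CR ^ d * (‖φ‖ * ((ht w τ2 : ℝ) / T - ht w τ1 / T) ^ d) := by ring
      _ ≤ W := by rw [hW]; gcongr
  have k3 : CA * ‖φ‖ ≤ C1 / l := by
    calc CA * ‖φ‖ ≤ |CA| * (W / l) := by gcongr; exact le_abs_self _
      _ = |CA| * W / l := by ring
      _ ≤ C1 / l := dv _ (by linarith)
  obtain ⟨a1, a2, a3⟩ := hA T w φ τ1 τ2 hT1 hw.1 hlen2 (by exact_mod_cast ha1.trans' zero_le_one)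
    t1 t2 hx hφ
  rw [← hug] at a2 a3
  have e1 : (w.prod.a : ℝ) / T = ug.1 := by rw [← hTa]; field_simp
  rw [e1] at a3
  have k4 : CA * ‖φ‖ / T ≤ h / 2 := by
    rw [div_le_iff₀ hT0]
    have k5 := hv' C1 (by linarith) (by linarith)
    have k6 := hTj 4 le_rfl
    have k7 : T * h ^ 2 * h ^ 2 ≤ T * h ^ 2 * (1 / 2) := by gcongr; nlinarith
    have : C1 / l * h ≤ h / 2 * T * h := by nlinarith
    exact k3.trans (le_of_mul_le_mul_right this hh)
  have k5 : 0 ≤ T * ∫ x in (0 : ℝ)..ug.1, D.om (ev φ 0 x) := by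
    refine mul_nonneg hT0.le (intervalIntegral.integral_nonneg (by linarith) fun x hx' => ?_)
    have := hφ x ⟨hm0.trans hx'.1, hx'.2.trans haM⟩
    exact le_trans (mul_nonneg hc0.le (by linarith)) (hom _ this)
  have k6 : 1 ≤ C1 / l := by rw [le_div_iff₀ hl0]; linarith
  have e3 : 3 * C1 / l = 3 * (C1 / l) := by ring
  have e2 : 2 * C1 / l = 2 * (C1 / l) := by ring
  have k7 := abs_le.1 (a1.trans k3)
  have k8 := abs_le.1 hFb'
  refine ⟨k2.trans (dv _ (by linarith)), a1.trans k3, ?_, fun ht' => ?_, fun ht' => ?_⟩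
  · rcases le_total τ1 τ2 with k | k
    · linarith [(a2 k).1, (abs_le.1 (a2 k).2).1, k7.2, k8.2]
    · linarith [a3 k, k8.2]
  · linarith [(abs_le.1 (a2 ht').2).1]
  · linarith [a3 ht', k8.2]

end NearA

end Pool.Agent.P.MP_a0f0ad_al.Fi
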