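import Pool.Agent.P.MP_a0f0ad_al.Fi.N.Iface
import Pool.Agent.P.MP_a0f0ad_al.Fi.V.Iface
import Pool.Agent.P.MP_a0f0ad_al.Fi.W.Iface
import Pool.Agent.P.MP_a0f0ad_al.Fi.N.Iface2
import Pool.Agent.P.MP_a0f0ad_al.Fi.N.Basic
import Pool.Agent.P.MP_a0f0ad_al.Fi.Z.Bm
import Pool.Agent.P.MP_a0f0ad_al.Fi.N.Near2
import Pool.Agent.P.MP_a0f0ad_al.Fi.N.Near3
import Pool.Agent.P.MP_a0f0ad_al.Fi.N.Near4

/-! Step NEAR of the filiform project. -/

namespace Pool.Agent.P.MP_a0f0ad_al.Fi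

open Finset MeasureTheory

theorem p_NEAR (hMARK : S_MARK) (hPEN : S_PEN) (hHOM : S_HOM) (hKKT : S_KKT) (hPUB : S_PUB) (hACC : S_ACC) (hFB : S_FB) (hSTABR : S_STABR) (hNPIN : S_NPIN) (hNID : S_NID) (hNOM : S_NOM) (hNRNG : S_NRNG) (hNTRIM : S_NTRIM) :
    S_NEAR := by
  obtain ⟨j, hj, hS⟩ := hSTABR
  refine ⟨2 * j + 8, by omega, fun d S D hd hD => ?_⟩
  obtain ⟨C1, hC1, Cw, hCw, h1⟩ := NearA.wd hMARK hHOM hACC hFB hNRNG hd hD
  obtain ⟨C2, hC2, h2⟩ := NearA.rep hPEN hHOM hKKT hD (3 * C1) (by linarith)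
  obtain ⟨C3, hC3, h3⟩ := NearA.rev hNOM hD
  obtain ⟨C4, hC4, h4⟩ := NearA.gain hNPIN hNTRIM hD (3 * C1) (by linarith)
  obtain ⟨C5, hC5, h5⟩ := hS d S D hD
  refine ⟨4 * C1 + Cw + C2 + C3 + C4 + C5, by linarith, ?_⟩
  intro v h T r u p ρ w hv hv1 hh hC hr hrh hT hN hG ho hq hnc hO hg hw hu
  have sm : ∀ c : ℝ, c ≤ 4 * C1 + Cw + C2 + C3 + C4 + C5 → ∀ i ≤ 2 * j + 8, c * h ≤ v ^ i :=
    fun c hc i hi => (mul_le_mul_of_nonneg_right hc hh.le).trans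
      (hC.trans (pow_le_pow_of_le_one hv.le hv1 hi))
  have sm1 : ∀ c : ℝ, c ≤ 4 * C1 + Cw + C2 + C3 + C4 + C5 → c * h ≤ v := fun c hc => by
    simpa using sm c hc 1 (by omega)
  have h4v : 4 * h ≤ v := sm1 4 (by linarith)
  have hh1 : h ≤ 1 := by linarith
  have pw : ∀ {a b : ℕ}, a ≤ b → h ^ b ≤ h ^ a := fun hab => pow_le_pow_of_le_one hh.le hh1 hab
  have p1 : ∀ {b : ℕ}, 1 ≤ b → h ^ b ≤ h := fun hb => by simpa using pw hb
  have hT0 : 0 < T := by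
    by_contra k
    have : T * r * h ^ (2 * (2 * j + 8)) ≤ 0 :=
      mul_nonpos_of_nonpos_of_nonneg (mul_nonpos_of_nonpos_of_nonneg (not_lt.1 k) hr.le)
        (by positivity)
    linarith
  have hT3 : 1 ≤ T * r * h ^ 3 := hT.trans (by gcongr T * r * ?_; exact pw (by omega))
  have g0 := hg.1
  have hl := g0.hell
  have hl0 : 0 < ell u ^ d := by linarith
  obtain ⟨τ1, τ2, t1, t2, hx, hm0, ha, haM, hTa, hug, hp, h1l, hFb, hφ⟩ :=
    h1 v h T r _ u p _ w hv hv1 hh (sm1 _ (by linarith)) hr hrh hT3 (p1 (by omega)) hN g0.ha hl hG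
      ho hw hu rfl
  set ug : E d := T⁻¹ • nx T w.prod with hugd
  have dl : ∀ c c' : ℝ, 0 ≤ c → c ≤ c' → c / ell u ^ d ≤ c' / v := fun c c' h0 hc => by
    gcongr; linarith
  obtain ⟨ρ', u', e1, e2, e3, hR, n1, n2, n3, n4, n5, n6⟩ :=
    h2 j v h T r _ _ u ug p ρ hv hv1 hh (sm1 _ (by linarith)) hr hrh hT hN ho hq hO.1 g0 hm0 ha haM
      hug (hp.trans (dl _ _ (by linarith) (by linarith))) fun φ hf =>
      ⟨(hφ φ hf).1.trans (dl _ _ (by linarith) (by linarith)),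
        by linarith [(hφ φ hf).2.2.1, dl (3 * C1) (3 * C1) (by linarith) le_rfl]⟩
  have hf : D.Feas ρ'.q (ht w τ1 / T) (ht w τ2 / T) := e1 ▸ e2 ▸ hR.2.2.2.1
  obtain ⟨-, f1, f2, f3, f4⟩ := hφ ρ'.q hf
  have p3 : h ^ (j + 3) ≤ h ^ 3 := pw (by omega)
  have hgain := h4 v h T r _ (pair p (ug - u)) (D.Bf ρ'.q (ht w τ1 / T) (ht w τ2 / T) ug) u u' p ρ ρ'
    hv hv1 hh (sm _ (by linarith) 4 (by omega)) hr hrh hT3 (by positivity) (pw (by omega)) hN ho hq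
    hO g0 hR (by linarith)
    (by rw [e1, e2]; linarith [(abs_le.1 n4).2, p1 (show 1 ≤ j + 3 by omega)]) (n1.trans p3)
    (n2.trans (by gcongr r * ?_; exact pw (by omega))) (by linarith) (by rw [e1, e2]; exact n6)
    (by linarith [dl (3 * C1) (3 * C1) (by linarith) le_rfl])
  have e4 : T * (ρ'.M - u'.1) = (ht w τ2 : ℝ) - w.prod.a := by
    rw [e2, e3, ← hTa]; field_simp
  have e5 : T * -ρ'.m = -(ht w τ1 : ℝ) := by rw [e1]; field_simp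
  have o1 : 0 ≤ ρ.DM D * (T * (ρ'.M - u'.1)) :=
    mul_nonneg hO.2.2.1 (mul_nonneg hT0.le (by linarith [hR.2.1]))
  have o2 : 0 ≤ ρ.Dm D * (T * -ρ'.m) :=
    mul_nonneg hO.2.2.2.2.1 (mul_nonneg hT0.le (by linarith [hR.1]))
  have hord : τ1 ≤ τ2 := by
    by_contra k
    have k1 := f4 (not_le.1 k).le
    have hwin := hD.win hm0 (by linarith : 0 ≤ (ht w τ2 : ℝ) / T) n5
    have k2 := h3 v h ug.1 u ρ ρ'.q hv hv1 hh (sm _ (by linarith) 4 (by omega)) hnc g0 ha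
      (by linarith [hwin.2, le_abs_self ((ht w τ2 : ℝ) / T)])
      (fun x hx' => hf x ⟨hm0.trans hx'.1, hx'.2.trans haM⟩) (n1.trans (p1 (by omega)))
    have k3 : T * h ≤ T * ∫ x in (0 : ℝ)..ug.1, D.om (ev ρ'.q 0 x) := by gcongr
    have k4 : T * h ≤ 2 * C1 / v + h / 2 := by
      linarith [dl (2 * C1) (2 * C1) (by linarith) le_rfl]
    have k5 : 2 * C1 / v * h ≤ 1 / 2 := by
      rw [div_mul_eq_mul_div, div_le_iff₀ hv]; linarith [sm1 (4 * C1) (by linarith)]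
    have k6 : T * r * h ^ 3 ≤ T * h * h * 1 := by
      calc T * r * h ^ 3 ≤ T * h * h ^ 3 := by gcongr
        _ = T * h * h * h ^ 2 := by ring
        _ ≤ T * h * h * 1 := by gcongr; simpa using pw (show 0 ≤ 2 by norm_num)
    have k7 : T * h * h ≤ (2 * C1 / v + h / 2) * h := by gcongr
    nlinarith
  have f5 := f3 hord
  rw [e4, e5] at hgain
  rw [e4] at o1
  rw [e5] at o2
  have b0 : 3 * (C1 / ell u ^ d) ≤ (4 * C1 + Cw + C2 + C3 + C4 + C5) / ell u ^ d := by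
    rw [← mul_div_assoc]; gcongr; linarith
  have fin : ∀ σ : RD d, σ.q = ρ.q → σ.DM D = ρ.DM D → σ.Dm D = ρ.Dm D → |ρ'.m - σ.m| ≤ h →
      |ρ'.M - σ.M| ≤ h →
      Near D S T u p σ w h ((4 * C1 + Cw + C2 + C3 + C4 + C5) / ell u ^ d) := by
    intro σ s1 s2 s3 s4 s5
    refine ⟨hw.1, τ1, τ2, ρ'.q, hord, t2, hx, hf, by rw [s1]; exact n1.trans (p1 (by omega)),
      e1 ▸ s4, e2 ▸ s5, ?_, ?_, ?_⟩
    · linarith [(abs_le.1 f1).2, (abs_le.1 hFb).2]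
    · rw [s2, s3]; linarith
    · linarith [(abs_le.1 hFb).2]
  have pj : h ^ (j + 3) ≤ h ^ j := pw (by omega)
  rcases h5 v h p.1 u u' ρ ρ' hv hv1 hh (sm _ (by linarith) j (by omega)) hN hnc hO hg hR
    (by rw [e1, e2]; exact n5)
    (n2.trans (by
      calc r * h ^ (2 * j + 6) ≤ 1 * h ^ j := by gcongr ?_ * ?_; exacts [by linarith, pw (by omega)]
        _ = h ^ j := one_mul _)) (n1.trans pj) (by rw [e1, e2]; exact n4.trans pj) with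
    k | ⟨k1, k2, σ, k3, k4, k5, k6, k7⟩
  · exact Or.inl (fin ρ rfl rfl rfl k.1 k.2)
  · have s2 : σ.DM D = ρ.DM D := by
      have a1 := k3.2.2.2.2.2.2
      have a2 := hO.2.2.2.2.2.2
      rw [k4] at a1
      linarith
    have s3 : σ.Dm D = ρ.Dm D := by
      have a1 := (hNID d S D hD u σ k3.1).1
      have a2 := (hNID d S D hD u ρ hO.1).1
      rw [k4] at a1
      linarith
    exact Or.inr ⟨k1, k2, σ, k3, k4, k5, fin σ k4 s2 s3 k6 k7⟩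

end Pool.Agent.P.MP_a0f0ad_al.Fi
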