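import Pool.Agent.P.MP_a0f0ad_al.Fi.N.Iface2
import Pool.Agent.P.MP_a0f0ad_al.Fi.N.Basic
import Pool.Agent.P.MP_a0f0ad_al.Fi.Z.Bm

/-! Step NFLA of the filiform project. -/

namespace Pool.Agent.P.MP_a0f0ad_al.Fi

open Finset MeasureTheory

namespace NflaA

theorem num_b {v h K N y : ℝ} (v0 : 0 < v) (v1 : v ≤ 1) (h0 : 0 < h) (h1 : h ≤ 1) (K0 : 0 ≤ K)
    (hN : v * N ≤ 1) (hK : 2 * K * h ≤ v)
    (e : y * h ^ 7 ≤ 0 + K * h ^ 16 + K * N * (h ^ 7) ^ 2) : y ≤ h ^ 6 := by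
  have a1 : h ^ 16 ≤ h ^ 14 := pow_le_pow_of_le_one h0.le h1 (by norm_num)
  have a2 : v * (K * h ^ 16) ≤ K * h ^ 14 :=
    (mul_le_of_le_one_left (by positivity) v1).trans (mul_le_mul_of_nonneg_left a1 K0)
  have a3 : v * N * (K * h ^ 14) ≤ K * h ^ 14 := mul_le_of_le_one_left (by positivity) hN
  have a4 : 2 * K * h * h ^ 13 ≤ v * h ^ 13 := mul_le_mul_of_nonneg_right hK (by positivity)
  have a5 := mul_le_mul_of_nonneg_left e v0.le
  refine le_of_mul_le_mul_right (a := v * h ^ 7) ?_ (by positivity)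
  linarith

theorem num_e {v h K N y : ℝ} (v0 : 0 < v) (v1 : v ≤ 1) (h0 : 0 < h) (h1 : h < 1) (K0 : 0 ≤ K)
    (hN : v * N ≤ 1) (hK : 2 * K * h ≤ v ^ 4) (hy : v ^ 2 ≤ y)
    (e : y * h ^ 4 ≤ K * h ^ 16 + 0 + K * N * (h ^ 4) ^ 2) : False := by
  have a1 : h ^ 16 ≤ h ^ 8 := pow_le_pow_of_le_one h0.le h1.le (by norm_num)
  have a2 : v * (K * h ^ 16) ≤ K * h ^ 8 :=
    (mul_le_of_le_one_left (by positivity) v1).trans (mul_le_mul_of_nonneg_left a1 K0)
  have a3 : v * N * (K * h ^ 8) ≤ K * h ^ 8 := mul_le_of_le_one_left (by positivity) hN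
  have a4 : 2 * K * h * h ^ 7 ≤ v ^ 3 * h ^ 7 := mul_le_mul_of_nonneg_right
    (hK.trans (pow_le_pow_of_le_one v0.le v1 (by norm_num))) (by positivity)
  have a5 := mul_le_mul_of_nonneg_left e v0.le
  have a6 : v ^ 2 * (v * h ^ 4) ≤ y * (v * h ^ 4) := mul_le_mul_of_nonneg_right hy (by positivity)
  have a7 : v ^ 3 * h ^ 7 < v ^ 3 * h ^ 4 :=
    mul_lt_mul_of_pos_left (pow_lt_pow_right_of_lt_one₀ h0 h1 (by norm_num)) (by positivity)
  linarith

theorem num_c {cv h L C1 A b s t : ℝ} (c0 : 0 < cv) (h0 : 0 < h) (h1 : h < 1) (L0 : 0 ≤ L)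
    (C0 : 0 ≤ C1) (hK : (L + 2 * L * C1) * h ≤ cv) (hA : -(C1 * h ^ 6) ≤ A) (hb : cv ≤ b)
    (s0 : 0 ≤ s) (s1 : s ≤ 2 * L) (ht : h ^ 4 ≤ t) (e : s * A + t * b ≤ L * h ^ 15) : False := by
  have a1 : L * h ^ 15 ≤ L * h ^ 6 :=
    mul_le_mul_of_nonneg_left (pow_le_pow_of_le_one h0.le h1.le (by norm_num)) L0
  have a2 : h ^ 4 * cv ≤ t * b := mul_le_mul ht hb c0.le ((by positivity : 0 ≤ h ^ 4).trans ht)
  have a3 : s * -(C1 * h ^ 6) ≤ s * A := mul_le_mul_of_nonneg_left hA s0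
  have a4 : s * (C1 * h ^ 6) ≤ 2 * L * (C1 * h ^ 6) := mul_le_mul_of_nonneg_right s1 (by positivity)
  have a5 : (L + 2 * L * C1) * h * h ^ 5 ≤ cv * h ^ 5 :=
    mul_le_mul_of_nonneg_right hK (by positivity)
  have a6 : cv * h ^ 5 < cv * h ^ 4 :=
    mul_lt_mul_of_pos_left (pow_lt_pow_right_of_lt_one₀ h0 h1 (by norm_num)) c0
  linarith

end NflaA

open NflaA in
theorem p_NFLA (hNLOC : S_NLOC) (hNPIN : S_NPIN) :
    S_NFLA := by
  intro d S D hD
  obtain ⟨K, K1, hK⟩ := n_bd d D.Lam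
  obtain ⟨c, c0, -, hc⟩ := hNPIN d S D hD
  obtain ⟨c', c0', -, hc', -⟩ := hD.exists_slack
  have Q0 := hD.Qpos
  have L0 : 0 < D.Lam := by
    exact div_pos (by norm_num) hD.lp_zero_le.1
  have X0 : 0 ≤ (D.Lam + 2 * D.Lam * (4 / D.Q)) / c := by positivity
  refine ⟨4 + 2 * K + 2 * D.Lam + (D.Lam + 2 * D.Lam * (4 / D.Q)) / c, by positivity, ?_⟩
  intro v h pa u u' ρ ρ' H hC hm hM
  obtain ⟨v0, v1, h0, ⟨rep, -, -, hDM, -, hDm, -⟩, good, rep', bm, bM, bm', bM', mass, da, dq, i1,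
    i2⟩ := H
  obtain ⟨m0, aM, -, feas, hZ, -⟩ := id rep
  obtain ⟨m0', aM', -, feas', hZ', -⟩ := rep'
  have v4 : v ^ 4 ≤ v := pow_le_of_le_one v0.le v1 (by norm_num)
  have small : ∀ X, X ≤ 4 + 2 * K + 2 * D.Lam + (D.Lam + 2 * D.Lam * (4 / D.Q)) / c →
      X * h ≤ v ^ 4 := fun X hX => (mul_le_mul_of_nonneg_right hX h0.le).trans hC
  have s4 := small 4 (by linarith)
  have sK := small (2 * K) (by linarith)
  have sL := small (2 * D.Lam) (by linarith)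
  have sX := small _ (show (D.Lam + 2 * D.Lam * (4 / D.Q)) / c ≤ _ by linarith)
  have h1 : h < 1 := by linarith
  have pw : ∀ {i j : ℕ}, i ≤ j → h ^ j ≤ h ^ i := fun e => pow_le_pow_of_le_one h0.le h1.le e
  have p4 : h ^ 4 ≤ h := pow_le_of_le_one h0.le h1.le (by norm_num)
  have p7 : h ^ 7 ≤ h ^ 4 := pw (by norm_num)
  have p16 : h ^ 16 < h ^ 4 := pow_lt_pow_right_of_lt_one₀ h0 h1 (by norm_num)
  have p70 : 0 < h ^ 7 := by positivity
  have p40 : 0 < h ^ 4 := by positivity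
  have ha := good.ha
  have da' := abs_le.1 da
  have dif : ∀ k x, |x| ≤ D.Lam → |ev ρ'.q k x - ev ρ.q k x| ≤ K * h ^ 16 := fun k x hx => by
    rw [← ev_sub]
    exact (hK _ k x x hx hx).1.trans (mul_le_mul_of_nonneg_left dq (by linarith))
  have e0 : ρ.DM D = 0 := hDM (by linarith)
  have M2 : v / 2 ≤ ρ'.M := by linarith
  have hA : -(4 / D.Q * h ^ 6) ≤ ρ'.DM D := by
    have a0 := feas' ρ'.M ⟨by linarith, le_rfl⟩
    have a1 : 0 ≤ D.om (ev ρ'.q 0 ρ'.M) :=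
      (mul_nonneg c0'.le (sub_nonneg.2 a0)).trans (hc' _ a0)
    rw [RD.DM, RD.muAt]
    split_ifs with hz
    · have a2 := (hZ' _ hz).2.2.1
      have a3 := (abs_sub_abs_le_abs_sub _ _).trans (dif 0 ρ'.M (by linarith))
      have a4 := n_touch_ev hK ρ.q (x := ρ'.M) (δ := h ^ 7) (Q := D.Q) (e := 0) (e' := K * h ^ 16)
        p70.le (by linarith) (by rw [add_zero]; exact feas _ ⟨by linarith, by linarith⟩)
        (by rw [add_zero]; exact feas _ ⟨by linarith, by linarith⟩) (by linarith)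
      have a5 := num_b v0 v1 h0 h1.le (by linarith) good.hq (by linarith) a4
      have a6 := (abs_sub_abs_le_abs_sub _ _).trans (dif 1 ρ'.M (by linarith))
      have a7 : K * h * h ^ 15 ≤ h ^ 6 :=
        (mul_le_of_le_one_left (by positivity) (by linarith)).trans (pw (by norm_num))
      have a8 : |ev ρ'.q 1 ρ'.M| ≤ 2 * h ^ 6 := by linarith
      have a9 : |ρ'.mu ρ'.M| ≤ 2 / D.Q := by
        rw [le_div_iff₀' Q0]
        exact (mul_le_mul_of_nonneg_left (single_le_sum (f := fun z => |ρ'.mu z|)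
          (fun _ _ => abs_nonneg _) hz) Q0.le).trans mass
      have a10 := mul_le_mul a9 a8 (abs_nonneg _) (by positivity)
      rw [← abs_mul] at a10
      have a11 := (abs_le.1 a10).2
      have a12 : 2 / D.Q * (2 * h ^ 6) = 4 / D.Q * h ^ 6 := by ring
      linarith
    · have : 0 ≤ 4 / D.Q * h ^ 6 := by positivity
      linarith
  rw [e0] at i1 i2
  have key : |(ρ'.M - ρ'.m) * ρ'.DM D + (ρ.m - ρ'.m) * ρ.Dm D| ≤ D.Lam * h ^ 15 := by
    have a1 : (ρ'.M - ρ'.m) * ρ'.DM D + (ρ.m - ρ'.m) * ρ.Dm D =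
        ρ'.M * ρ'.DM D - ρ'.m * ρ'.Dm D - (ρ.M * 0 - ρ.m * ρ.Dm D) +
          ρ'.m * (ρ'.Dm D - ρ'.DM D - (ρ.Dm D - 0)) := by ring
    rw [a1]
    refine (abs_add_le _ _).trans ?_
    rw [abs_mul]
    have a2 := mul_le_mul_of_nonneg_left i1 (abs_nonneg ρ'.m)
    have a3 := mul_le_mul_of_nonneg_right bm' (by positivity : 0 ≤ h ^ 15)
    linarith
  have bb := le_abs_self ρ'.M
  have bb' := neg_abs_le ρ'.m
  have mlt : ρ.m < 0 := by
    refine lt_of_le_of_ne m0 fun e => ?_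
    refine num_c (cv := c * v) (by positivity) h0 h1 L0.le (by positivity) ?_ hA
      ((hc u ρ v v0 v1 rep good).1 e) (by linarith) (by linarith) (by linarith) (abs_le.1 key).2
    rw [div_mul_eq_mul_div, div_le_iff₀' c0] at sX
    exact sX.trans (mul_le_mul_of_nonneg_left v4 c0.le)
  have e1 : ρ.Dm D = 0 := hDm mlt
  rw [e1, mul_zero, add_zero, abs_mul, abs_of_nonneg (by linarith)] at key
  rw [e1, sub_zero, sub_zero] at i1
  have hA' : |ρ'.DM D| ≤ h ^ 14 := by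
    have a1 : v / 2 * |ρ'.DM D| ≤ (ρ'.M - ρ'.m) * |ρ'.DM D| :=
      mul_le_mul_of_nonneg_right (by linarith) (abs_nonneg _)
    have a2 : 2 * D.Lam * h * h ^ 14 ≤ v * h ^ 14 :=
      mul_le_mul_of_nonneg_right (by linarith) (by positivity)
    refine le_of_mul_le_mul_left (a := v) ?_ v0
    linarith
  have hB : |ρ'.Dm D| ≤ h ^ 13 := by
    have a1 := (abs_sub_abs_le_abs_sub _ _).trans i1
    have a2 : h ^ 15 ≤ h ^ 14 := pw (by norm_num)
    have a3 : 2 * h * h ^ 13 ≤ h ^ 13 := mul_le_of_le_one_left (by positivity) (by linarith)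
    linarith
  have fm := feas ρ.m ⟨le_rfl, by linarith⟩
  have qm : |ev ρ.q 0 ρ.m| = D.Q := by
    by_cases hz : ρ.m ∈ ρ.Z
    · exact (hZ _ hz).2.2.1
    · rw [RD.Dm, RD.muAt, if_neg hz, zero_mul, add_zero] at e1
      have a1 := hc' _ fm
      rw [e1] at a1
      have a2 := nonpos_of_mul_nonpos_right a1 c0'
      linarith
  have qm' := (abs_eq Q0.le).1 qm
  obtain ⟨r, -, r1, r2⟩ := (hNLOC d D u ρ v v0 v1 good).2.2 ρ.m (ev ρ.q 0 ρ.m) 0 bm
    (qm'.elim Or.inl fun e => Or.inr (Or.inl e)) (by simp)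
    (by rw [mul_zero]; positivity)
  have er : ρ.m = r := by
    rw [mul_zero] at r1
    exact sub_eq_zero.1 (pow_eq_zero_iff two_ne_zero |>.1
      (le_antisymm (nonpos_of_mul_nonpos_right r1 v0) (sq_nonneg _)))
  rw [← er] at r2
  have hT : ρ.IsT u.1 ρ.m := by
    refine r2.resolve_right fun hy => ?_
    have b1 := neg_abs_le ρ.m
    have a1 := feas' (ρ.m - h ^ 4) ⟨by linarith, by linarith⟩
    have a2 := dif 0 (ρ.m - h ^ 4) (abs_le.2 ⟨by linarith, by linarith⟩)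
    rw [abs_sub_comm] at a2
    have a3 := (abs_sub_abs_le_abs_sub _ _).trans a2
    have a4 := feas (ρ.m + h ^ 4) ⟨by linarith, by linarith⟩
    have a5 : 0 ≤ K * h ^ 16 := by positivity
    exact num_e v0 v1 h0 h1 (by linarith) good.hq sK hy
      (n_touch_ev hK ρ.q (x := ρ.m) (δ := h ^ 4) (Q := D.Q) (e := K * h ^ 16) (e' := 0)
        p40.le (by linarith) (by linarith) (by linarith) (by linarith))
  refine ⟨?_, hT, hB, hA'.trans (pw (by norm_num))⟩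
  rw [RD.Dm, hT.2.2, mul_zero, add_zero] at e1
  rcases qm' with e | e
  · rwa [e] at e1
  · rwa [e, D.om_neg] at e1

end Pool.Agent.P.MP_a0f0ad_al.Fi
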