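import Pool.Agent.P.MP_a0f0ad_al.Fi.N.Iface2
import Pool.Agent.P.MP_a0f0ad_al.Fi.N.Basic
import Pool.Agent.P.MP_a0f0ad_al.Fi.Z.Bm

/-! Step NFLB of the filiform project. -/

namespace Pool.Agent.P.MP_a0f0ad_al.Fi

open Finset MeasureTheory

namespace NflbA

theorem small {X y h : ℝ} (h0 : 0 ≤ h) (h1 : h ≤ 1) (hy : 0 ≤ y) (hX : X * h ≤ y) (n k : ℕ)
    (hk : k < n) : X * h ^ n ≤ y * h ^ k := by
  obtain ⟨n, rfl⟩ : ∃ m, n = m + 1 := ⟨n - 1, by omega⟩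
  calc X * h ^ (n + 1) = X * h * h ^ n := by ring
    _ ≤ y * h ^ n := mul_le_mul_of_nonneg_right hX (pow_nonneg h0 n)
    _ ≤ y * h ^ k := mul_le_mul_of_nonneg_left (pow_le_pow_of_le_one h0 h1 (by omega)) hy

theorem close {v s e t : ℝ} (hv : 0 < v) (ht : 0 ≤ t) (h1 : v * s ^ 2 ≤ e) (h2 : e ≤ v * t ^ 2) :
    |s| ≤ t :=
  abs_le_of_sq_le_sq (le_of_mul_le_mul_left (h1.trans h2) hv) ht

theorem sgn (x Q : ℝ) : ∃ w, (w = Q ∨ w = -Q) ∧ |x - w| = |(|x| - Q)| ∧ w * x = Q * |x| := by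
  rcases le_total 0 x with h | h
  · exact ⟨Q, Or.inl rfl, by rw [abs_of_nonneg h], by rw [abs_of_nonneg h]⟩
  · refine ⟨-Q, Or.inr rfl, ?_, by rw [abs_of_nonpos h]; ring⟩
    rw [abs_of_nonpos h, ← abs_neg]
    congr 1
    ring

/-- the polynomial enters the feasible band at a transversal root -/
theorem enter {f0 g fy fx Q B v e s t : ℝ} (h0 : |f0| = Q) (hg : v ≤ |g|)
    (ty : |fy - f0 - s * g| ≤ B * s ^ 2) (hy : |fy| ≤ Q + e) (hs : e + B * s ^ 2 < s * v)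
    (hs0 : 0 ≤ s) (tx : |fx - f0 - t * g| ≤ B * t ^ 2) (ix : |fx - f0| ≤ 2 * Q) (ht0 : 0 ≤ t)
    (ht : B * t ≤ v) : |fx| ≤ Q := by
  have a1 := mul_le_mul_of_nonneg_left hg hs0
  have a2 := mul_le_mul_of_nonneg_left hg ht0
  have a3 : B * t ^ 2 ≤ t * v := by
    have := mul_le_mul_of_nonneg_left ht ht0
    linarith
  rw [abs_le] at ty hy tx ix ⊢
  rcases abs_cases f0 with k | k <;> rcases abs_cases g with l | l <;> rw [l.1] at a1 a2 <;>
    constructor <;> linarith [k.1, ty.1, ty.2, hy.1, hy.2, tx.1, tx.2, ix.1, ix.2]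

/-- the numerical consequences of the smallness of `h` -/
theorem num {K c Q N v h : ℝ} (hK1 : 1 ≤ K) (hc0 : 0 < c) (hQ : 0 < Q) (hv : 0 < v) (hv1 : v ≤ 1)
    (hh : 0 < h) (hN0 : 0 ≤ N) (hN : v * N ≤ 1) (hC : (10 * K + 10 / c + 1 / Q) * h ≤ v ^ 4) :
    (10 * h ≤ c ∧ 10 * h ≤ v ∧ 10 * h ^ 2 ≤ h ∧ 10 * h ^ 3 ≤ h ^ 2 ∧ 10 * h ^ 4 ≤ h ^ 3 ∧
      10 * h ^ 5 ≤ h ^ 4 ∧ 10 * h ^ 7 ≤ h ^ 5 ∧ 10 * h ^ 16 ≤ h ^ 5) ∧
    (10 * (K * h ^ 16) ≤ h ^ 12 ∧ 8 * h ^ 12 ≤ v ^ 3 ∧ 2 * h ^ 12 ≤ v * (h ^ 5) ^ 2) ∧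
    (K * h ^ 16 + K * N * (2 * h ^ 5) ^ 2 < 2 * h ^ 5 * v ^ 2 ∧ K * N * h ^ 2 ≤ v ^ 2 ∧
      K * N * h ^ 2 ≤ 2 * Q) ∧
    8 * (K * h ^ 16) ≤ v ^ 3 ∧ 2 * (K * h ^ 16) ≤ v * (h ^ 7) ^ 2 ∧
      K * h ^ 16 + 0 + K * N * (h ^ 4) ^ 2 < v ^ 2 * h ^ 4 := by
  have v43 : v ^ 4 ≤ v ^ 3 := pow_le_pow_of_le_one hv.le hv1 (by norm_num)
  have v32 : v ^ 3 ≤ v ^ 2 := pow_le_pow_of_le_one hv.le hv1 (by norm_num)
  have v21 : v ^ 2 ≤ v := by nlinarith
  have v2 : 0 < v ^ 2 := by positivity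
  have v3 : 0 < v ^ 3 := by positivity
  have p1 : 0 ≤ K * h := by positivity
  have p2 : 0 ≤ 10 / c * h := by positivity
  have p3 : 0 ≤ 1 / Q * h := by positivity
  have nK : 10 * K * h ≤ v ^ 4 := by linarith
  have nh : 10 * h ≤ v ^ 4 := by nlinarith
  have h1 : h ≤ 1 := by linarith
  have nc : 10 * h ≤ c := by
    have : 10 / c * h ≤ 1 := by linarith
    rwa [div_mul_eq_mul_div, div_le_one hc0] at this
  have nQ : h ≤ Q := by
    have : 1 / Q * h ≤ 1 := by linarith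
    rwa [div_mul_eq_mul_div, div_le_one hQ, one_mul] at this
  have nB : 10 * (K * N) * h ≤ v ^ 3 := by
    refine le_of_mul_le_mul_left ?_ hv
    have := mul_le_mul_of_nonneg_left hN p1
    linarith
  clear hC p2 p3
  have hp : ∀ n k : ℕ, k < n → 10 * h ^ n ≤ h ^ k := fun n k hk => by
    have := small (X := 10) (y := 1) hh.le h1 zero_le_one (by linarith) n k hk
    rwa [one_mul] at this
  have k1 := fun y (hy : v ^ 4 ≤ y) => small hh.le h1 ((by positivity : 0 ≤ v ^ 4).trans hy)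
    (nK.trans hy)
  have k2 := fun y (hy : v ^ 4 ≤ y) => small hh.le h1 ((by positivity : 0 ≤ v ^ 4).trans hy)
    (nh.trans hy)
  have k3 := fun y (hy : v ^ 3 ≤ y) => small hh.le h1 (v3.le.trans hy) (nB.trans hy)
  have z4 : 0 < v ^ 2 * h ^ 4 := by positivity
  have z5 : 0 < v ^ 2 * h ^ 5 := by positivity
  have z12 : 0 < h ^ 12 := by positivity
  have z16 : 0 ≤ K * h ^ 16 := by positivity
  have z2 : 0 ≤ K * N * h ^ 2 := by positivity
  refine ⟨⟨nc, by linarith, by simpa using hp 2 1 (by norm_num), hp 3 2 (by norm_num),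
    hp 4 3 (by norm_num), hp 5 4 (by norm_num), hp 7 5 (by norm_num), hp 16 5 (by norm_num)⟩,
    ⟨?_, ?_, ?_⟩, ⟨?_, ?_, ?_⟩, ?_, ?_, ?_⟩
  · linarith only [k1 1 (by linarith) 16 12 (by norm_num)]
  · linarith only [k2 _ v43 12 0 (by norm_num), z12]
  · linarith only [k2 v (by linarith) 12 10 (by norm_num), z12]
  · linarith only [k1 _ (v43.trans v32) 16 5 (by norm_num), k3 _ v32 10 5 (by norm_num), z5]
  · linarith only [k3 _ v32 2 0 (by norm_num), z2]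
  · linarith only [k3 1 (by linarith) 2 1 (by norm_num), z2, nQ, hQ]
  · linarith only [k1 _ v43 16 0 (by norm_num), z16]
  · linarith only [k1 v (by linarith) 16 14 (by norm_num), z16]
  · linarith only [k1 _ (v43.trans v32) 16 4 (by norm_num), k3 _ v32 8 4 (by norm_num), z4]

end NflbA

open NflbA in
theorem p_NFLB (hNLOC : S_NLOC) :
    S_NFLB := by
  intro d S D hD
  obtain ⟨K, hK1, hK⟩ := n_bd d D.Lam
  obtain ⟨c, hc0, -, hc, -⟩ := hD.exists_slack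
  have hQ := hD.Qpos
  refine ⟨10 * K + 10 / c + 1 / D.Q, by positivity, ?_⟩
  intro v h pa u u' ρ ρ' F hC hm hM hDm hDM
  have hv := F.v0
  have hv1 := F.v1
  have hh := F.h0
  obtain ⟨⟨nc, q1, q2, q3, q4, q5, q7, q16⟩, ⟨n1, n2, n3⟩, ⟨n4, n5, n6⟩, n7, n8, n9⟩ :=
    num hK1 hc0 hQ hv hv1 hh (norm_nonneg ρ.q) F.good.hq hC
  obtain ⟨r1, r2, r3, r4, r5, -⟩ := F.opt.1
  obtain ⟨s1, s2, s3, s4, s5, -⟩ := F.rep
  obtain ⟨-, L2, L3⟩ := hNLOC d D u ρ v hv hv1 F.good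
  have L2 := L2 F.opt.1
  have ha := F.good.ha
  obtain ⟨da, -⟩ := abs_le.1 F.da
  have bm := neg_abs_le ρ'.m
  have bM := le_abs_self ρ'.M
  have bm' := F.bm'
  have bM' := F.bM'
  have v2 : 0 < v ^ 2 := by positivity
  have B0 : 0 ≤ K * ‖ρ.q‖ := by positivity
  have z4 : 0 < h ^ 4 := by positivity
  have z5 : 0 < h ^ 5 := by positivity
  have z7 : 0 < h ^ 7 := by positivity
  have z12 : 0 < h ^ 12 := by positivity
  have K0 : 0 ≤ K * h ^ 16 := by positivity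
  have y2 : 10 * h ^ 2 ≤ v := by linarith only [q1, q2, hv]
  have y4 : 1000 * h ^ 4 ≤ v := by linarith only [y2, q3, q4, hv]
  have M0 : 9 / 10 * v ≤ ρ'.M := by linarith only [da, s2, ha, q16, q5, y4, hv]
  have hcl : ∀ x, |x| ≤ D.Lam → |ev ρ'.q 0 x - ev ρ.q 0 x| ≤ K * h ^ 16 := fun x hx => by
    rw [← ev_sub]
    exact (hK _ 0 x x hx hx).1.trans (mul_le_mul_of_nonneg_left F.dq (zero_le_one.trans hK1))
  have NF : ∀ x, ρ'.m ≤ x → x ≤ ρ.M → |ev ρ.q 0 x| ≤ D.Q + K * h ^ 16 := fun x x1 x2 => by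
    rcases le_total x ρ'.M with k | k
    · have e1 := hcl x (abs_le.2 ⟨by linarith only [bm, bm', x1], by linarith only [bM, bM', k]⟩)
      have e2 := s4 x ⟨x1, k⟩
      have e3 := abs_sub_abs_le_abs_sub (ev ρ.q 0 x) (ev ρ'.q 0 x)
      rw [abs_sub_comm] at e3
      linarith only [e1, e2, e3]
    · have e2 := r4 x ⟨by linarith only [k, M0, r1, hv], x2⟩
      linarith only [e2, K0]
  have hw : ∀ w, w = D.Q ∨ w = -D.Q → w ∈ D.ThA ∧ |w| = D.Q := by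
    rintro w (k | k)
    · exact ⟨Or.inl k, by rw [k, abs_of_pos hQ]⟩
    · exact ⟨Or.inr (Or.inl k), by rw [k, abs_neg, abs_of_pos hQ]⟩
  -- the roots near the two ends
  have R : ∀ y, |y| + 1 ≤ D.Lam → y ∈ Set.Icc ρ'.m ρ'.M →
      (y ∉ ρ'.Z → D.om (ev ρ'.q 0 y) ≤ h ^ 13) → ∃ r, |ev ρ.q 0 r| = D.Q ∧ |y - r| ≤ h ^ 5 ∧
        (ρ.IsT u.1 r ∨ v ^ 2 ≤ |ev ρ.q 1 r|) := fun y y1 y2 y3 => by
    have e1 := s4 y y2
    have e2 : D.Q - |ev ρ'.q 0 y| ≤ 1 / 10 * h ^ 12 := by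
      by_cases k : y ∈ ρ'.Z
      · rw [(s5 y k).2.2.1]; linarith only [z12]
      · refine le_of_mul_le_mul_left (((hc _ e1).trans (y3 k)).trans ?_) hc0
        linarith only [mul_le_mul_of_nonneg_right nc z12.le]
    obtain ⟨w, w1, w2, -⟩ := sgn (ev ρ'.q 0 y) D.Q
    rw [abs_of_nonpos (sub_nonpos.2 e1)] at w2
    have e3 := hcl y (by linarith only [y1])
    have e5 := abs_sub_le (ev ρ.q 0 y) (ev ρ'.q 0 y) w
    rw [abs_sub_comm (ev ρ.q 0 y) (ev ρ'.q 0 y)] at e5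
    obtain ⟨r, k1, k2, k3⟩ := L3 y w (h ^ 12) y1 (hw w w1).1
      (by linarith only [e2, w2, e3, e5, n1, z12]) n2
    exact ⟨r, by rw [k1, (hw w w1).2], close hv z5.le k2 n3, k3⟩
  obtain ⟨z, z1, z2, z3⟩ := R ρ'.M bM' ⟨s3.le, le_rfl⟩ fun k => by
    simpa [RD.DM, RD.muAt, k] using (abs_le.1 hDM).2
  obtain ⟨α, a1, a2, a3⟩ := R ρ'.m bm' ⟨le_rfl, s3.le⟩ fun k => by
    simpa [RD.Dm, RD.muAt, k] using (abs_le.1 hDm).2
  obtain ⟨z21, z22⟩ := abs_le.1 z2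
  obtain ⟨a21, a22⟩ := abs_le.1 a2
  have zM : z < ρ.M := by linarith only [z21, hM, q5, z5]
  have zT : ρ.IsT u.1 z := z3.resolve_right (by
    rw [n_crit r4 (by linarith only [z22, M0, q5, y4, hv, r1]) zM z1, abs_zero]
    exact not_le.2 v2)
  have az : u.1 < z := by
    have := (F.good.r1 z zT).2.2.1
    rcases abs_cases (z - u.1) with k | k <;>
      linarith only [this, k.1, z22, da, s2, q16, q5, y4, hv]
  have αm : α < ρ.m := by linarith only [a21, hm, q5, z5]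
  have αL : -D.Lam ≤ α := by linarith only [a22, bm, bm', q5, y4, hv1]
  have α1 : v ^ 2 ≤ |ev ρ.q 1 α| := a3.resolve_left fun k => absurd (r5 α k.1).1 (not_le.2 αm)
  have L0 : 0 ≤ D.Lam := by linarith only [abs_nonneg ρ'.m, bm']
  have αa : |α| ≤ D.Lam := abs_le.2 ⟨αL, by linarith only [αm, r1, L0]⟩
  refine ⟨α, z, αL, αm, ?_, a1, fun k => by rw [k, abs_zero] at α1; exact absurd α1 (not_le.2 v2),
    zT, az, zM, a2, z2⟩
  intro x ⟨x1, x2⟩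
  have xa : |x| ≤ D.Lam := abs_le.2 ⟨αL.trans x1, x2.trans (r1.trans L0)⟩
  rcases le_or_gt x (α + h ^ 2) with x3 | x3
  · have t0 : α + 2 * h ^ 5 ≤ ρ.m := by linarith only [a21, hm, q5, z5]
    have t1 := (hK ρ.q 0 α (α + 2 * h ^ 5) αa
      (abs_le.2 ⟨by linarith only [αL, z5], t0.trans (r1.trans L0)⟩)).2.2
    rw [add_sub_cancel_left] at t1
    obtain ⟨-, t2, t3⟩ := hK ρ.q 0 α x αa xa
    have e3 := mul_le_mul_of_nonneg_left (show x - α ≤ h ^ 2 by linarith only [x3]) B0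
    rw [abs_of_nonneg (sub_nonneg.2 x1)] at t2
    exact enter a1 α1 t1 (NF _ (by linarith only [a22, z5]) (t0.trans r3.le)) n4
      (by positivity) t3 (t2.trans (e3.trans n6)) (sub_nonneg.2 x1) (e3.trans n5)
  · by_contra hx
    have hx := not_le.1 hx
    have x4 : ρ'.m + 2 * h ^ 4 ≤ x := by linarith only [a22, x3, q3, q4, q5, z4]
    have e1 := NF x (by linarith only [x4, z4]) (x2.trans r3.le)
    obtain ⟨w, w1, w2, w3⟩ := sgn (ev ρ.q 0 x) D.Q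
    rw [abs_of_nonneg (sub_nonneg.2 hx.le)] at w2
    have xb : |x| + 1 ≤ D.Lam := by
      rw [abs_of_nonpos (x2.trans r1)]
      linarith only [bm, bm', x4, z4]
    obtain ⟨r, k1, k2, k3⟩ := L3 x w (K * h ^ 16) xb (hw w w1).1 (by linarith only [w2, e1]) n7
    have k4 : |x - r| ≤ h ^ 7 := close hv z7.le k2 n8
    obtain ⟨k5, k6⟩ := abs_le.1 k4
    have k7 : h ^ 7 ≤ h ^ 4 := by linarith only [q7, q5, z4]
    rcases k3 with k3 | k3
    · have e2 := L2 r x k3 (by linarith only [k4, k7, y4, hv])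
      rw [k1, w3] at e2
      linarith only [e2, mul_lt_mul_of_pos_left hx hQ]
    · have k8 : r + h ^ 4 ≤ ρ.M := by linarith only [k5, k7, x2, r1, r2, ha, y4, hv]
      have k9 : ρ'.m ≤ r - h ^ 4 := by linarith only [k6, k7, x4]
      have t := n_touch_ev hK ρ.q (x := r) (δ := h ^ 4) (Q := D.Q) (e := K * h ^ 16) (e' := 0)
        z4.le (by
          have := abs_sub_abs_le_abs_sub r x
          rw [abs_sub_comm] at this
          linarith only [this, k4, k7, xb, y4, hv1, hv])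
        (NF _ k9 (by linarith only [k8, z4])) (NF _ (by linarith only [k9, z4]) k8)
        (by rw [k1, (hw w w1).2, sub_zero])
      exact absurd ((mul_le_mul_of_nonneg_right k3 z4.le).trans t) (not_le.2 n9)

end Pool.Agent.P.MP_a0f0ad_al.Fi
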