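import Pool.Agent.P.MP_a0f0ad_al.Fi.N.Iface2
import Pool.Agent.P.MP_a0f0ad_al.Fi.N.Basic
import Pool.Agent.P.MP_a0f0ad_al.Fi.Z.Bm

/-! Step NFRA of the filiform project. -/

namespace Pool.Agent.P.MP_a0f0ad_al.Fi

open Finset MeasureTheory

namespace NfraA

theorem touch {h K N t : ℝ} {k : ℕ} (h0 : 0 < h) (h1 : h ≤ 1) (hK : 0 ≤ K) (a1 : 2 * K * h ≤ 1)
    (a2 : 2 * (K * N) * h ≤ 1) (hk : 2 * (k + 1) ≤ 16)
    (e : t * h ^ (k + 1) ≤ K * h ^ 16 + K * N * (h ^ (k + 1)) ^ 2) : t ≤ h ^ k := by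
  have p : 0 < h ^ (k + 1) := by positivity
  have q : 0 < h ^ k := by positivity
  have b : h ^ 16 ≤ (h ^ (k + 1)) ^ 2 := by
    rw [← pow_mul, mul_comm]
    exact pow_le_pow_of_le_one h0.le h1 hk
  refine le_of_mul_le_mul_right (e.trans ?_) p
  calc _ ≤ K * (h ^ (k + 1)) ^ 2 + K * N * (h ^ (k + 1)) ^ 2 := by gcongr
    _ = (K * h + K * N * h) * (h ^ k * h ^ (k + 1)) := by ring
    _ ≤ 1 * (h ^ k * h ^ (k + 1)) := by gcongr; linarith
    _ = _ := one_mul _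

theorem pin {h v c X : ℝ} (h0 : 0 < h) (h1 : h ≤ 1) (hX : 0 < X) (a : 2 * X * h ≤ c * v)
    (e : h ^ 4 * (c * v) ≤ X * h ^ 6) : False := by
  have p : 0 < h ^ 4 := by positivity
  have e1 : h ^ 4 * (2 * X * h) ≤ h ^ 4 * (X * h * h) := by
    calc _ ≤ h ^ 4 * (c * v) := by gcongr
      _ ≤ _ := e
      _ = _ := by ring
  have e2 := le_of_mul_le_mul_left e1 p
  have e3 : 0 < X * h := by positivity
  nlinarith

end NfraA

theorem p_NFRA (hNLOC : S_NLOC) (hNPIN : S_NPIN) :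
    S_NFRA := by
  intro d S D hD
  obtain ⟨K, hK, hb⟩ := n_bd d D.Lam
  obtain ⟨c, c0, c1, hc⟩ := hNPIN d S D hD
  obtain ⟨c', c0', -, hs, -⟩ := hD.exists_slack
  have hQ := hD.Qpos
  have hL := hD.Lam_pos
  obtain ⟨X, hX⟩ : ∃ X, X = 1 + D.Lam + 2 * D.Lam * (4 / D.Q) := ⟨_, rfl⟩
  have X0 : 0 < X := by rw [hX]; positivity
  have XL : 1 + D.Lam ≤ X := by rw [hX]; exact le_add_of_nonneg_right (by positivity)
  refine ⟨2 * K + 2 * X / c, by positivity, fun v h pa u u' ρ ρ' H hC hm hM => ?_⟩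
  obtain ⟨v0, v1, h0, ⟨rep, -, -, DM0, -, Dm0, -⟩, good, rep', bm, bM, bm', bM', mass, da, dq,
    i1, i2⟩ := H
  have v2 : v ^ 4 ≤ v ^ 2 := pow_le_pow_of_le_one v0.le v1 (by norm_num)
  have v4 : v ^ 2 ≤ v := by simpa using pow_le_pow_of_le_one v0.le v1 (by norm_num : 1 ≤ 2)
  have n1 : 2 * K * h ≤ v ^ 2 := by
    have : 0 ≤ 2 * X / c * h := by positivity
    linarith
  have n2 : 2 * X * h ≤ c * v := by
    have : 0 ≤ 2 * K * h := by positivity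
    have e : 2 * X / c * h ≤ v := by linarith
    rwa [div_mul_eq_mul_div, div_le_iff₀' c0] at e
  have n3 : 2 * h ≤ v ^ 2 := by nlinarith
  have h1 : h ≤ 1 := by linarith
  have n4 : 2 * (K * ‖ρ.q‖) * h ≤ 1 := by
    have := mul_le_mul_of_nonneg_right (n1.trans v4) (norm_nonneg ρ.q)
    linarith [good.hq]
  have n5 : 2 * (1 + D.Lam) * h ≤ v := by
    have : c * v ≤ v := mul_le_of_le_one_left v0.le c1
    nlinarith
  have pw : ∀ {k l : ℕ}, k ≤ l → h ^ l ≤ h ^ k := fun e => pow_le_pow_of_le_one h0.le h1 e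
  have p1 : ∀ {l : ℕ}, 1 ≤ l → h ^ l ≤ h := fun e => by simpa using pw e
  have pp : ∀ l : ℕ, 0 < h ^ l := fun l => pow_pos h0 l
  have cl : ∀ k x, |x| ≤ D.Lam → |ev ρ'.q k x - ev ρ.q k x| ≤ K * h ^ 16 := fun k x hx => by
    rw [← ev_sub]
    exact (hb _ k x x hx hx).1.trans (by gcongr)
  obtain ⟨m0, aM, -, feas, hZ, hrep⟩ := rep
  obtain ⟨m0', aM', -, feas', hZ', -⟩ := rep'
  have ha := good.ha
  have hDm : ρ.Dm D = 0 := Dm0 (by linarith [pp 4])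
  have hb1 : -(4 / D.Q * h ^ 6) ≤ ρ'.Dm D := by
    have o : 0 ≤ D.om (ev ρ'.q 0 ρ'.m) := by
      have f := feas' ρ'.m ⟨le_rfl, by linarith [pp 4]⟩
      exact (mul_nonneg c0'.le (sub_nonneg.2 f)).trans (hs _ f)
    rw [RD.Dm, RD.muAt]
    split_ifs with hz
    · have m1 : |ρ'.m| ≤ D.Lam := by linarith
      have q7 : h ^ 7 ≤ h ^ 4 := pw (by norm_num)
      have q1 : h ^ 7 ≤ h := p1 (by norm_num)
      have t := n_touch_ev hb ρ.q (x := ρ'.m) (δ := h ^ 7) (Q := D.Q) (e := 0) (e' := K * h ^ 16)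
        (pp 7).le (by linarith) (by
          rw [add_zero]; exact feas _ ⟨by linarith, by linarith [pp 7]⟩) (by
          rw [add_zero]; exact feas _ ⟨by linarith [pp 7, pp 4], by linarith⟩) (by
          have := abs_sub_abs_le_abs_sub (ev ρ'.q 0 ρ'.m) (ev ρ.q 0 ρ'.m)
          linarith [cl 0 _ m1, (hZ' _ hz).2.2.1])
      rw [zero_add] at t
      have t1 : |ev ρ.q 1 ρ'.m| ≤ h ^ 6 :=
        NfraA.touch h0 h1 (by linarith) (by linarith) n4 (by norm_num) t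
      have t2 : |ev ρ'.q 1 ρ'.m| ≤ 2 * h ^ 6 := by
        have a1 := abs_sub_abs_le_abs_sub (ev ρ'.q 1 ρ'.m) (ev ρ.q 1 ρ'.m)
        have a2 : K * h ^ 16 ≤ h ^ 6 := by
          have a3 : h ^ 15 ≤ h ^ 6 := pw (by norm_num)
          have a4 : K * h * h ^ 15 ≤ 1 * h ^ 15 :=
            mul_le_mul_of_nonneg_right (by nlinarith) (pp 15).le
          linarith [show K * h ^ 16 = K * h * h ^ 15 by ring]
        linarith [cl 1 _ m1]
      have t3 : |ρ'.mu ρ'.m| ≤ 2 / D.Q := by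
        rw [le_div_iff₀' hQ]
        exact (mul_le_mul_of_nonneg_left
          (single_le_sum (f := fun z => |ρ'.mu z|) (fun z _ => abs_nonneg _) hz) hQ.le).trans mass
      have t4 : |ρ'.mu ρ'.m * ev ρ'.q 1 ρ'.m| ≤ 2 / D.Q * (2 * h ^ 6) := by
        rw [abs_mul]
        gcongr
      have t5 : 2 / D.Q * (2 * h ^ 6) = 4 / D.Q * h ^ 6 := by ring
      linarith [(abs_le.1 t4).1]
    · have : 0 ≤ 4 / D.Q * h ^ 6 := by positivity
      linarith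
  rw [hDm] at i1 i2
  have hc1 : |(ρ'.M - ρ'.m) * ρ'.Dm D + (ρ'.M - ρ.M) * ρ.DM D| ≤ (1 + D.Lam) * h ^ 15 := by
    rw [show (ρ'.M - ρ'.m) * ρ'.Dm D + (ρ'.M - ρ.M) * ρ.DM D =
      (ρ'.M * ρ'.DM D - ρ'.m * ρ'.Dm D - (ρ.M * ρ.DM D - ρ.m * 0)) +
        ρ'.M * (ρ'.Dm D - ρ'.DM D - (0 - ρ.DM D)) by ring]
    refine (abs_add_le _ _).trans ?_
    rw [abs_mul, add_mul, one_mul]
    exact add_le_add i2 (mul_le_mul (by linarith) i1 (abs_nonneg _) hL.le)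
  have len : v / 2 ≤ ρ'.M - ρ'.m := by
    linarith [(abs_le.1 da).1, p1 (l := 16) (by norm_num)]
  have hDM : ρ.DM D = 0 := by
    refine DM0 (lt_of_le_of_ne aM fun e => ?_)
    have k1 := (hc u ρ v v0 v1 ⟨m0, aM, by linarith, feas, hZ, hrep⟩ good).2 e.symm
    have k2 : h ^ 4 * (c * v) ≤ (ρ'.M - ρ.M) * ρ.DM D :=
      mul_le_mul (by linarith) k1 (by positivity) (by linarith [pp 4])
    have k3 : -(2 * D.Lam * (4 / D.Q * h ^ 6)) ≤ (ρ'.M - ρ'.m) * ρ'.Dm D := by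
      have k4 : ρ'.M - ρ'.m ≤ 2 * D.Lam := by
        linarith [le_abs_self ρ'.M, neg_abs_le ρ'.m]
      have k5 := mul_le_mul_of_nonneg_left hb1 (by linarith : 0 ≤ ρ'.M - ρ'.m)
      have k6 : (ρ'.M - ρ'.m) * (4 / D.Q * h ^ 6) ≤ 2 * D.Lam * (4 / D.Q * h ^ 6) :=
        mul_le_mul_of_nonneg_right k4 (by positivity)
      linarith
    have k7 : (1 + D.Lam) * h ^ 15 ≤ (1 + D.Lam) * h ^ 6 :=
      mul_le_mul_of_nonneg_left (pw (by norm_num)) (by positivity)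
    refine NfraA.pin h0 h1 X0 n2 ?_
    rw [hX]
    linarith [(abs_le.1 hc1).2]
  rw [hDM] at hc1 i1
  have hd1 : |ρ'.Dm D| ≤ h ^ 14 := by
    rw [mul_zero, add_zero, abs_mul, abs_of_nonneg (by linarith)] at hc1
    have k1 : v / 2 * |ρ'.Dm D| ≤ (ρ'.M - ρ'.m) * |ρ'.Dm D| :=
      mul_le_mul_of_nonneg_right len (abs_nonneg _)
    have k2 : (1 + D.Lam) * h * h ^ 14 ≤ v / 2 * h ^ 14 :=
      mul_le_mul_of_nonneg_right (by linarith) (pp 14).le
    refine le_of_mul_le_mul_left ?_ (half_pos v0)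
    linarith [show (1 + D.Lam) * h ^ 15 = (1 + D.Lam) * h * h ^ 14 by ring]
  have hd2 : |ρ'.DM D| ≤ h ^ 13 := by
    have k1 : h ^ 15 ≤ h ^ 14 := pw (by norm_num)
    have k2 : 2 * h * h ^ 13 ≤ 1 * h ^ 13 := mul_le_mul_of_nonneg_right (by linarith) (pp 13).le
    rw [abs_le] at i1 hd1 ⊢
    constructor <;> linarith [i1.1, i1.2, hd1.1, hd1.2, show h ^ 14 = h * h ^ 13 by ring]
  have fM := feas ρ.M ⟨by linarith, le_rfl⟩
  have hq : |ev ρ.q 0 ρ.M| = D.Q := by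
    by_cases hz : ρ.M ∈ ρ.Z
    · exact (hZ _ hz).2.2.1
    · rw [RD.DM, RD.muAt, if_neg hz, zero_mul, sub_zero] at hDM
      have := hs _ fM
      rw [hDM] at this
      exact le_antisymm fM (sub_nonpos.1 (nonpos_of_mul_nonpos_right this c0'))
  have hq' := (abs_eq hQ.le).1 hq
  obtain ⟨r, -, r2, r3⟩ := (hNLOC d D u ρ v v0 v1 good).2.2 ρ.M (ev ρ.q 0 ρ.M) 0 bM
    (hq'.elim Or.inl fun e => Or.inr (Or.inl e)) (by simp) (by rw [mul_zero]; positivity)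
  obtain rfl : ρ.M = r := by
    rw [mul_zero] at r2
    exact sub_eq_zero.1 (pow_eq_zero_iff two_ne_zero |>.1
      (le_antisymm (nonpos_of_mul_nonpos_right r2 v0) (sq_nonneg _)))
  have hT : ρ.IsT u.1 ρ.M := by
    refine r3.resolve_right fun e => ?_
    have q1 : h ^ 4 ≤ h := p1 (by norm_num)
    have k0 : 0 ≤ K * h ^ 16 := by positivity
    have t := n_touch_ev hb ρ.q (x := ρ.M) (δ := h ^ 4) (Q := D.Q) (e := K * h ^ 16) (e' := 0)
      (pp 4).le (by linarith)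
      ((feas _ ⟨by linarith, by linarith [pp 4]⟩).trans (le_add_of_nonneg_right k0)) (by
        have a1 := abs_sub_abs_le_abs_sub (ev ρ.q 0 (ρ.M + h ^ 4)) (ev ρ'.q 0 (ρ.M + h ^ 4))
        have a2 := cl 0 (ρ.M + h ^ 4) (by
          rw [abs_of_nonneg (by linarith [pp 4])]; linarith [le_abs_self ρ.M])
        rw [abs_sub_comm] at a2
        linarith [feas' (ρ.M + h ^ 4) ⟨by linarith [pp 4], hM⟩]) (by rw [sub_zero, hq])
    rw [add_zero] at t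
    have t1 : |ev ρ.q 1 ρ.M| ≤ h ^ 3 :=
      NfraA.touch h0 h1 (by linarith) (by linarith) n4 (by norm_num) t
    linarith [p1 (l := 3) (by norm_num)]
  refine ⟨?_, hT, hd1.trans (pw (by norm_num)), hd2⟩
  rw [RD.DM, hT.2.2, mul_zero, sub_zero] at hDM
  rcases hq' with e | e
  · rwa [e] at hDM
  · rwa [e, LD.om_neg] at hDM

end Pool.Agent.P.MP_a0f0ad_al.Fi
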