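import Pool.Agent.P.MP_a0f0ad_al.Fi.N.Iface2
import Pool.Agent.P.MP_a0f0ad_al.Fi.N.Basic
import Pool.Agent.P.MP_a0f0ad_al.Fi.Z.Bm

/-! Step NFRB of the filiform project. -/

namespace Pool.Agent.P.MP_a0f0ad_al.Fi

open Finset MeasureTheory

namespace NfrbA

theorem pw {h : ℝ} (h0 : 0 < h) (h8 : h ≤ 1 / 8) {i j : ℕ} (hij : i < j) : h ^ j ≤ h ^ i / 8 := by
  have h1 : h ^ j ≤ h ^ (i + 1) := pow_le_pow_of_le_one h0.le (by linarith) hij
  have h2 : 0 ≤ h ^ i := by positivity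
  rw [pow_succ] at h1
  nlinarith

theorem mpw {h B : ℝ} (h0 : 0 < h) (h8 : h ≤ 1 / 8) (hB : 0 ≤ B) {j : ℕ} (hj : 1 ≤ j) :
    B * h ^ j ≤ B * h := by
  have h1 : h ^ j ≤ h ^ 1 := pow_le_pow_of_le_one h0.le (by linarith) hj
  rw [pow_one] at h1
  exact mul_le_mul_of_nonneg_left h1 hB

/-- the nearest of the two bounds -/
theorem near (Q t : ℝ) : ∃ sg : ℝ, (sg = 1 ∨ sg = -1) ∧ sg * t = |t| ∧
    |t - sg * Q| = |(|t| - Q)| := by
  rcases abs_cases t with k | k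
  · exact ⟨1, Or.inl rfl, by rw [k.1, one_mul], by rw [k.1, one_mul]⟩
  · refine ⟨-1, Or.inr rfl, by rw [k.1]; ring, ?_⟩
    rw [k.1, ← abs_neg]
    ring_nf

theorem root {h v s E : ℝ} {k : ℕ} (h0 : 0 < h) (v0 : 0 < v) (hE : 2 * E * h ^ 2 ≤ v)
    (hs : v * s ^ 2 ≤ 2 * (E * h ^ (2 * k + 2))) : |s| ≤ h ^ k := by
  refine abs_le_of_sq_le_sq' ?_ (by positivity) |> abs_le.2
  refine le_of_mul_le_mul_left (hs.trans ?_) v0
  have e : 2 * (E * h ^ (2 * k + 2)) = 2 * E * h ^ 2 * (h ^ k) ^ 2 := by ring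
  rw [e]
  exact mul_le_mul_of_nonneg_right hE (by positivity)

theorem sgn {fy f1 sg Q B K h v : ℝ} (hsg : sg = 1 ∨ sg = -1) (h0 : 0 < h) (v0 : 0 < v)
    (h1 : v ^ 2 ≤ |f1|) (hB : B * h ^ 5 ≤ v ^ 2 / 8) (hK : K * h ^ 11 ≤ v ^ 2 / 8)
    (tay : |fy - sg * Q - -(2 * h ^ 5) * f1| ≤ B * (-(2 * h ^ 5)) ^ 2)
    (nf : |fy| ≤ Q + K * h ^ 16) : v ^ 2 ≤ sg * f1 := by
  by_contra hc
  have h5 : 0 < h ^ 5 := by positivity
  have v2 : 0 < v ^ 2 := by positivity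
  have a1 := mul_le_mul_of_nonneg_left hB h5.le
  have a2 := mul_le_mul_of_nonneg_left hK h5.le
  have a3 := mul_pos h5 v2
  rw [abs_le] at tay nf
  have h2 : sg * f1 ≤ -v ^ 2 := by
    rcases hsg with rfl | rfl <;> rcases abs_cases f1 with k | k <;> linarith [k.1]
  have a4 := mul_le_mul_of_nonneg_left h2 h5.le
  rcases hsg with rfl | rfl <;> nlinarith [tay.1, tay.2, nf.1, nf.2]

theorem close {fx f1 sg Q B t v : ℝ} (hsg : sg = 1 ∨ sg = -1) (t0 : 0 ≤ t)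
    (h1 : v ^ 2 ≤ sg * f1) (hB : B * t ≤ v ^ 2) (hQ : B * t ≤ Q) (Q0 : 0 ≤ Q)
    (inc : |fx - sg * Q| ≤ B * |(-t)|) (tay : |fx - sg * Q - -t * f1| ≤ B * (-t) ^ 2) :
    |fx| ≤ Q := by
  rw [abs_neg, abs_of_nonneg t0] at inc
  rw [abs_le] at tay inc ⊢
  have a1 := mul_le_mul_of_nonneg_left hB t0
  have a2 := mul_le_mul_of_nonneg_left h1 t0
  rcases hsg with rfl | rfl <;> constructor <;> nlinarith [tay.1, tay.2, inc.1, inc.2]

end NfrbA

open NfrbA in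
theorem p_NFRB (hNLOC : S_NLOC) :
    S_NFRB := by
  intro d S D hD
  obtain ⟨K, K1, hK⟩ := n_bd d D.Lam
  obtain ⟨c, c0, c1, hc, -⟩ := hD.exists_slack
  have Q0 := hD.Qpos
  refine ⟨8 * K + 2 / c + K / D.Q, by positivity, fun v h pa u u' ρ ρ' N hC hm hM dm dM => ?_⟩
  have v0 := N.v0
  have v1 := N.v1
  have h0 := N.h0
  obtain ⟨m0, aM, -, fe, hZ, -⟩ := N.opt.1
  obtain ⟨m0', -, mM', fe', hZ', -⟩ := N.rep
  obtain ⟨-, L2, L3⟩ := hNLOC d D u ρ v v0 v1 N.good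
  have vM : v ≤ ρ.M := N.good.ha.trans aM
  have v43 : v ^ 4 ≤ v ^ 3 := pow_le_pow_of_le_one v0.le v1 (by norm_num)
  have v32 : v ^ 3 ≤ v ^ 2 := pow_le_pow_of_le_one v0.le v1 (by norm_num)
  have v21 : v ^ 2 ≤ v := by nlinarith only [v0, v1]
  have t1 : 0 ≤ K * h := by positivity
  have t2 : 0 ≤ 2 / c * h := by positivity
  have t3 : 0 ≤ K / D.Q * h := by positivity
  have hKh : K * h ≤ v ^ 4 / 8 := by linarith
  have hh : h ≤ v ^ 4 / 8 := (le_mul_of_one_le_left h0.le K1).trans hKh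
  have h8 : h ≤ 1 / 8 := by linarith
  have hch : 2 * h ≤ c := by
    have : 2 / c * h ≤ 1 := by linarith
    rw [div_mul_eq_mul_div, div_le_one c0] at this
    exact this
  set B := K * ‖ρ.q‖ with hB
  have B0 : 0 ≤ B := by positivity
  have vB : v * (B * h) ≤ K * h := by
    have := mul_le_mul_of_nonneg_left N.good.hq t1
    rw [hB]
    linarith
  have hBh : B * h ≤ v ^ 3 / 8 := le_of_mul_le_mul_left (by linarith) v0
  have hBQ : B * h ≤ D.Q := by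
    have : K / D.Q * h ≤ v := by linarith
    rw [div_mul_eq_mul_div, div_le_iff₀ Q0] at this
    exact le_of_mul_le_mul_left (by linarith) v0
  have K0 : 0 ≤ K := by linarith
  have p01 := pw h0 h8 (show 0 < 4 by norm_num)
  have p12 := pw h0 h8 (show 1 < 2 by norm_num)
  have p14 := pw h0 h8 (show 1 < 4 by norm_num)
  have p23 := pw h0 h8 (show 2 < 3 by norm_num)
  have p34 := pw h0 h8 (show 3 < 4 by norm_num)
  have p45 := pw h0 h8 (show 4 < 5 by norm_num)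
  have p47 := pw h0 h8 (show 4 < 7 by norm_num)
  have q4 : 0 < h ^ 4 := by positivity
  have q5 : 0 < h ^ 5 := by positivity
  have e0 : 0 ≤ K * h ^ 16 := by positivity
  rw [pow_zero] at p01
  rw [pow_one] at p12 p14
  have bM' := N.bM'
  have M0' : 0 ≤ ρ'.M := by linarith
  rw [abs_of_nonneg M0'] at bM'
  have dq : ∀ x, |x| ≤ D.Lam → |ev ρ'.q 0 x - ev ρ.q 0 x| ≤ K * h ^ 16 := fun x hx => by
    rw [← ev_sub]
    exact (hK _ 0 x x hx hx).1.trans (mul_le_mul_of_nonneg_left N.dq K0)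
  have NF : ∀ x, ρ.m ≤ x → x ≤ ρ'.M → |ev ρ.q 0 x| ≤ D.Q + K * h ^ 16 := fun x h1 h2 => by
    rcases le_total x ρ.M with k | k
    · linarith [fe x ⟨h1, k⟩]
    · have a1 := fe' x ⟨by linarith, h2⟩
      have a2 := dq x (by rw [abs_of_nonneg (by linarith)]; linarith)
      have a3 := abs_sub_abs_le_abs_sub (ev ρ.q 0 x) (ev ρ'.q 0 x)
      rw [abs_sub_comm] at a3
      linarith
  have ends : ∀ y, y ∈ Set.Icc ρ'.m ρ'.M → |y| + 1 ≤ D.Lam →
      (y ∉ ρ'.Z → D.om (ev ρ'.q 0 y) ≤ h ^ 13) → ∃ r sg : ℝ, (sg = 1 ∨ sg = -1) ∧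
        ev ρ.q 0 r = sg * D.Q ∧ |y - r| ≤ h ^ 5 ∧ (ρ.IsT u.1 r ∨ v ^ 2 ≤ |ev ρ.q 1 r|) := by
    intro y hy hyL ho
    obtain ⟨sg, hsg, -, e⟩ := near D.Q (ev ρ'.q 0 y)
    have a0 := fe' y hy
    have q12 : 0 < h ^ 12 := by positivity
    have a1 : D.Q - |ev ρ'.q 0 y| ≤ h ^ 12 / 2 := by
      by_cases k : y ∈ ρ'.Z
      · linarith [(hZ' y k).2.2.1]
      · refine le_of_mul_le_mul_left (((hc _ a0).trans (ho k)).trans ?_) c0
        have := mul_le_mul_of_nonneg_left hch q12.le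
        linarith [pow_succ h 12]
    rw [abs_sub_comm (|ev ρ'.q 0 y|), abs_of_nonneg (sub_nonneg.2 a0)] at e
    have a2 := dq y (by linarith)
    have a3 : K * h ^ 16 ≤ h ^ 12 / 2 := by
      have b1 := mul_le_mul_of_nonneg_left (mpw h0 h8 K0 (show 1 ≤ 4 by norm_num)) q12.le
      have b2 := mul_le_mul_of_nonneg_left (show K * h ≤ 1 / 2 by linarith) q12.le
      linarith only [b1, b2]
    have a4 := abs_sub_le (ev ρ.q 0 y) (ev ρ'.q 0 y) (sg * D.Q)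
    rw [abs_sub_comm (ev ρ.q 0 y) (ev ρ'.q 0 y)] at a4
    obtain ⟨r, r1, r2, r3⟩ := L3 y (sg * D.Q) (1 * h ^ (2 * 5 + 2)) hyL
      (by rcases hsg with rfl | rfl
          · exact Or.inl (one_mul _)
          · exact Or.inr (Or.inl (neg_one_mul _)))
      (by norm_num; linarith) (by linarith [mpw h0 h8 zero_le_one (show 1 ≤ 2 * 5 + 2 by norm_num)])
    exact ⟨r, sg, hsg, r1, root h0 v0 (by linarith) r2, r3⟩
  have absQ : ∀ sg : ℝ, sg = 1 ∨ sg = -1 → |sg * D.Q| = D.Q := by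
    rintro sg (rfl | rfl) <;> simp [abs_of_pos Q0]
  obtain ⟨z, sz, hsz, z1, z2, z3⟩ := ends ρ'.m ⟨le_rfl, mM'.le⟩ N.bm' fun k => by
    have := (abs_le.1 dm).2
    simpa only [RD.Dm, RD.muAt, if_neg k, zero_mul, add_zero] using this
  obtain ⟨α, sg, hsg, α1, α2, α3⟩ := ends ρ'.M ⟨mM'.le, le_rfl⟩ N.bM' fun k => by
    have := (abs_le.1 dM).2
    simpa only [RD.DM, RD.muAt, if_neg k, zero_mul, sub_zero] using this
  obtain ⟨z4, z5⟩ := abs_le.1 z2
  obtain ⟨α4, α5⟩ := abs_le.1 α2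
  have mz : ρ.m < z := by linarith
  have zT : ρ.IsT u.1 z := z3.resolve_right fun k => by
    rw [n_crit fe mz (by linarith) (by rw [z1, absQ _ hsz]), abs_zero] at k
    exact absurd k (not_le.2 (by positivity))
  have z0 : z < 0 := by
    have := (N.good.r1 z zT).2.1
    rcases abs_cases z with k | k <;> linarith [k.1, k.2]
  have Mα : ρ.M < α := by linarith
  have α6 : v ^ 2 ≤ |ev ρ.q 1 α| := α3.resolve_left fun k => absurd (hZ α k.1).2.1 (not_le.2 Mα)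
  have αL : α ≤ D.Lam := by linarith
  have inL : ∀ x, ρ.M ≤ x → x ≤ α → |x| ≤ D.Lam := fun x h1 h2 => by
    rw [abs_of_nonneg (by linarith)]; linarith
  have α7 : v ^ 2 ≤ sg * ev ρ.q 1 α := by
    have tay := (hK ρ.q 0 α (α - 2 * h ^ 5) (inL _ Mα.le le_rfl)
      (inL _ (by linarith) (by linarith))).2.2
    rw [sub_sub_cancel_left, α1] at tay
    exact sgn hsg h0 v0 α6 (by linarith [mpw h0 h8 B0 (show 1 ≤ 5 by norm_num)])
      (by linarith [mpw h0 h8 K0 (show 1 ≤ 11 by norm_num)]) tay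
      (NF _ (by linarith) (by linarith))
  refine ⟨α, z, αL, Mα, fun x hx => ?_, by rw [α1, absQ _ hsg], fun k => ?_, zT, z0, mz, z2, α2⟩
  swap
  · rw [k, abs_zero] at α6
    exact absurd α6 (not_le.2 (by positivity))
  obtain ⟨x1, x2⟩ := hx
  rcases le_or_gt (α - x) (h ^ 2) with k | k
  · obtain ⟨-, inc, tay⟩ := hK ρ.q 0 α x (inL _ Mα.le le_rfl) (inL _ x1 x2)
    rw [← neg_sub α x, α1] at inc tay
    have a1 : B * (α - x) ≤ B * h :=
      (mul_le_mul_of_nonneg_left k B0).trans (mpw h0 h8 B0 (by norm_num))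
    exact close hsg (sub_nonneg.2 x2) α7 (by linarith) (by linarith) Q0.le inc tay
  by_contra hn
  have hn' := not_le.1 hn
  have x3 : x ≤ ρ'.M - h ^ 3 := by linarith
  have x0 : 0 ≤ x := by linarith
  have a0 := NF x (by linarith) (by linarith)
  obtain ⟨s, hs, s1, s2⟩ := near D.Q (ev ρ.q 0 x)
  rw [abs_of_nonneg (sub_nonneg.2 hn'.le)] at s2
  obtain ⟨r, r1, r2, r3⟩ := L3 x (s * D.Q) (K * h ^ (2 * 7 + 2))
    (by rw [abs_of_nonneg x0]; linarith)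
    (by rcases hs with rfl | rfl
        · exact Or.inl (one_mul _)
        · exact Or.inr (Or.inl (neg_one_mul _)))
    (by norm_num; linarith) (by linarith [mpw h0 h8 K0 (show 1 ≤ 2 * 7 + 2 by norm_num)])
  have r4 := root h0 v0 (by linarith [mpw h0 h8 K0 (show 1 ≤ 2 by norm_num)]) r2
  obtain ⟨r5, r6⟩ := abs_le.1 r4
  rcases r3 with r3 | r3
  · have a1 := L2 N.opt.1 r x r3 (by linarith)
    rw [r1, mul_comm s, mul_assoc, s1] at a1
    nlinarith only [a1, hn', Q0]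
  · have a1 := n_touch_ev hK ρ.q (x := r) (δ := h ^ 4) (Q := D.Q) (e := K * h ^ 16) (e' := 0) q4.le
      (by rcases abs_cases r with k | k <;> linarith [k.1])
      (NF _ (by linarith) (by linarith)) (NF _ (by linarith) (by linarith))
      (by rw [r1, absQ _ hs, sub_zero])
    have a2 := mul_le_mul_of_nonneg_left r3 q4.le
    have a3 := mul_le_mul_of_nonneg_left (mpw h0 h8 K0 (show 1 ≤ 12 by norm_num)) q4.le
    have a4 := mul_le_mul_of_nonneg_left (mpw h0 h8 B0 (show 1 ≤ 4 by norm_num)) q4.le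
    have a5 := mul_le_mul_of_nonneg_left (show K * h + B * h ≤ v ^ 2 / 4 by linarith) q4.le
    have a6 : 0 < h ^ 4 * v ^ 2 := by positivity
    rw [← hB] at a1
    linarith only [a1, a2, a3, a4, a5, a6]

end Pool.Agent.P.MP_a0f0ad_al.Fi
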