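import Pool.Agent.P.MP_a0f0ad_al.Fi.N.Iface2
import Pool.Agent.P.MP_a0f0ad_al.Fi.N.Basic
import Pool.Agent.P.MP_a0f0ad_al.Fi.Z.Bm

/-! Step NID of the filiform project. -/

namespace Pool.Agent.P.MP_a0f0ad_al.Fi

open Finset MeasureTheory

namespace NidA

theorem atoms {d : ℕ} {D : LD d} {u : E d} {ρ : RD d} (h : ρ.Rep D u) (g : ℝ → ℝ) :
    ∑ z ∈ ρ.Z, ρ.mu z * (ev ρ.q 1 z * g z) =
      ρ.muAt ρ.m * ev ρ.q 1 ρ.m * g ρ.m + ρ.muAt ρ.M * ev ρ.q 1 ρ.M * g ρ.M := by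
  classical
  obtain ⟨-, -, hlt, hf, hz, -⟩ := h
  have e : ∀ z ∈ ρ.Z, ρ.mu z * (ev ρ.q 1 z * g z) =
      (if ρ.m = z then ρ.mu z * ev ρ.q 1 z * g z else 0) +
        if ρ.M = z then ρ.mu z * ev ρ.q 1 z * g z else 0 := by
    intro z hzz
    obtain ⟨h1, h2, h3, -⟩ := hz z hzz
    by_cases a : ρ.m = z
    · rw [if_pos a, if_neg (by rw [← a]; exact hlt.ne')]
      ring
    by_cases b : ρ.M = z
    · rw [if_neg a, if_pos b]
      ring
    · rw [if_neg a, if_neg b, n_crit hf (lt_of_le_of_ne h1 a) (lt_of_le_of_ne h2 (Ne.symm b)) h3]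
      ring
  rw [sum_congr rfl e, sum_add_distrib, sum_ite_eq, sum_ite_eq]
  unfold RD.muAt
  by_cases a : ρ.m ∈ ρ.Z <;> by_cases b : ρ.M ∈ ρ.Z <;> simp [a, b]

theorem gen {d : ℕ} {S : Finset (G d)} {D : LD d} (hS : D.Spec S) {u : E d} {ρ : RD d}
    (h : ρ.Rep D u) {g g' : ℝ → ℝ} (hg : ∀ x, HasDerivAt g (g' x) x) (hg' : Continuous g')
    (f : Fin d → ℝ) (hf : ∀ x, ev f 0 x = ev ρ.q 1 x * g x) :
    dot f u.2 = ρ.Dm D * g ρ.m - ρ.DM D * g ρ.M - D.lp (-ev ρ.q 0 0) * g 0 +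
      D.lp (-ev ρ.q 0 u.1) * g u.1 + (∫ x in ρ.m..ρ.M, D.lp (ev ρ.q 0 x) * g' x) +
      (∫ x in ρ.m..0, D.lp (-ev ρ.q 0 x) * g' x) +
      ∫ x in u.1..ρ.M, D.lp (-ev ρ.q 0 x) * g' x := by
  have ha := atoms h g
  have k1 := hS.int_kp ρ.q 1 hg hg' ρ.m ρ.M
  have k2 := hS.int_kp ρ.q (-1) hg hg' ρ.m 0
  have k3 := hS.int_kp ρ.q (-1) hg hg' u.1 ρ.M
  simp only [one_mul, neg_mul, mul_neg, intervalIntegral.integral_neg] at k1 k2 k3
  have e : ∑ z ∈ ρ.Z, dot f (ρ.mu z • Vd 0 z) = ∑ z ∈ ρ.Z, ρ.mu z * (ev ρ.q 1 z * g z) :=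
    sum_congr rfl fun z _ => by rw [dot_smul_right, ← hf, ev]
  rw [h.2.2.2.2.2, dot_add_right, hS.dot_Yq, dot_sum_right, e, ha]
  simp only [hf, RD.Dm, RD.DM, LD.om]
  linarith

end NidA

theorem p_NID :
    S_NID := by
  intro d S D hS u ρ h
  constructor
  · have k := NidA.gen hS h (g := fun _ => 1) (g' := fun _ => 0)
      (fun x => hasDerivAt_const x 1) continuous_const (dv ρ.q) fun x => by rw [ev_dv, mul_one]
    simp only [mul_one, mul_zero, intervalIntegral.integral_zero] at k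
    linarith
  · have k := NidA.gen hS h (g := fun x => x) (g' := fun _ => 1)
      (fun x => hasDerivAt_id x) continuous_const (jy ρ.q) fun x => by rw [ev_jy, mul_comm]
    simp only [mul_one, mul_zero] at k
    unfold LD.Bf
    linarith

end Pool.Agent.P.MP_a0f0ad_al.Fi
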