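import Pool.Agent.P.MP_a0f0ad_al.Fi.N.Iface2
import Pool.Agent.P.MP_a0f0ad_al.Fi.N.Basic

/-! Step NLOC of the filiform project. -/

namespace Pool.Agent.P.MP_a0f0ad_al.Fi

open Finset MeasureTheory

namespace NlocA

theorem conv {f f1 f2 : ℝ → ℝ} (h0 : ∀ x, HasDerivAt f (f1 x) x) (h1 : ∀ x, HasDerivAt f1 (f2 x) x)
    {z v : ℝ} (hz : f1 z = 0) (h2 : ∀ x, |x - z| ≤ v → v ≤ f2 x) {x : ℝ} (hx : |x - z| ≤ v) :
    v * |x - z| ≤ |f1 x| ∧ v * (x - z) ^ 2 ≤ 2 * (f x - f z) := by
  have hv : 0 ≤ v := (abs_nonneg _).trans hx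
  have g1 : ∀ y, HasDerivAt (fun y => f1 y - v * (y - z)) (f2 y - v) y := fun y =>
    ((h1 y).sub (((hasDerivAt_id y).sub_const z).const_mul v)).congr_deriv (by simp)
  have g0 : ∀ y, HasDerivAt (fun y => 2 * f y - v * (y - z) ^ 2) (2 * (f1 y - v * (y - z))) y :=
    fun y => by
    have := ((h0 y).const_mul 2).sub ((((hasDerivAt_id y).sub_const z).pow 2).const_mul v)
    refine this.congr_deriv ?_
    simp; ring
  have m1 : MonotoneOn (fun y => f1 y - v * (y - z)) (Set.Icc (z - v) (z + v)) := by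
    refine monotoneOn_of_deriv_nonneg (convex_Icc _ _)
      (fun y _ => (g1 y).continuousAt.continuousWithinAt)
      (fun y _ => (g1 y).differentiableAt.differentiableWithinAt) fun y hy => ?_
    have hy' := interior_subset hy
    rw [(g1 y).deriv]
    have := h2 y (abs_le.2 ⟨by linarith [hy'.1], by linarith [hy'.2]⟩)
    linarith
  have hzm : z ∈ Set.Icc (z - v) (z + v) := ⟨by linarith, by linarith⟩
  rw [abs_le] at hx
  rcases le_total z x with h | h
  · have k1 : ∀ y ∈ Set.Icc z (z + v), 0 ≤ f1 y - v * (y - z) := fun y hy => by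
      have := m1 hzm ⟨by linarith [hy.1], hy.2⟩ hy.1
      simpa [hz] using this
    have m0 : MonotoneOn (fun y => 2 * f y - v * (y - z) ^ 2) (Set.Icc z (z + v)) := by
      refine monotoneOn_of_deriv_nonneg (convex_Icc _ _)
        (fun y _ => (g0 y).continuousAt.continuousWithinAt)
        (fun y _ => (g0 y).differentiableAt.differentiableWithinAt) fun y hy => ?_
      rw [(g0 y).deriv]
      linarith [k1 y (interior_subset hy)]
    have hxm : x ∈ Set.Icc z (z + v) := ⟨h, by linarith [hx.2]⟩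
    have k2 := m0 ⟨le_rfl, by linarith⟩ hxm h
    simp only [sub_self] at k2
    refine ⟨?_, by nlinarith⟩
    rw [abs_of_nonneg (by linarith)]
    linarith [k1 x hxm, le_abs_self (f1 x)]
  · have k1 : ∀ y ∈ Set.Icc (z - v) z, f1 y - v * (y - z) ≤ 0 := fun y hy => by
      have := m1 ⟨hy.1, by linarith [hy.2]⟩ hzm hy.2
      simpa [hz] using this
    have m0 : AntitoneOn (fun y => 2 * f y - v * (y - z) ^ 2) (Set.Icc (z - v) z) := by
      refine antitoneOn_of_deriv_nonpos (convex_Icc _ _)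
        (fun y _ => (g0 y).continuousAt.continuousWithinAt)
        (fun y _ => (g0 y).differentiableAt.differentiableWithinAt) fun y hy => ?_
      rw [(g0 y).deriv]
      linarith [k1 y (interior_subset hy)]
    have hxm : x ∈ Set.Icc (z - v) z := ⟨by linarith [hx.1], h⟩
    have k2 := m0 hxm ⟨by linarith, le_rfl⟩ h
    simp only [sub_self] at k2
    refine ⟨?_, by nlinarith⟩
    rw [abs_of_nonpos (by linarith)]
    linarith [k1 x hxm, neg_abs_le (f1 x)]

variable {d : ℕ}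

theorem zone (q : Fin d → ℝ) {z v : ℝ} (hv : 0 < v) (hz : ev q 1 z = 0)
    (h2 : ∀ x, |x - z| ≤ v → v ≤ |ev q 2 x|) :
    ∃ σ : ℝ, (σ = 1 ∨ σ = -1) ∧ ∀ x, |x - z| ≤ v →
      v * |x - z| ≤ |ev q 1 x| ∧ v * (x - z) ^ 2 ≤ 2 * (σ * ev q 0 x - σ * ev q 0 z) := by
  have key : ∀ σ : ℝ, (σ = 1 ∨ σ = -1) → 0 < σ * ev q 2 z → ∀ x, |x - z| ≤ v →
      v * |x - z| ≤ |ev q 1 x| ∧ v * (x - z) ^ 2 ≤ 2 * (σ * ev q 0 x - σ * ev q 0 z) := by
    intro σ hσ h0 x hx
    have ha : ∀ y : ℝ, |σ * y| = |y| := fun y => by rcases hσ with rfl | rfl <;> simp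
    have hs : ∀ y, |y - z| ≤ v → v ≤ σ * ev q 2 y := by
      intro y hy
      have h3 := h2 y hy
      rw [← ha] at h3
      rcases abs_cases (σ * ev q 2 y) with k | k
      · linarith [k.1]
      · exfalso
        have hc : ContinuousOn (fun t => σ * ev q 2 t) (Set.uIcc y z) := by fun_prop
        obtain ⟨t, ht, ht0⟩ := intermediate_value_uIcc hc
          (show (0 : ℝ) ∈ Set.uIcc (σ * ev q 2 y) (σ * ev q 2 z) from
            Set.mem_uIcc_of_le k.2.le h0.le)
        have h4 := h2 t ((Set.abs_sub_right_of_mem_uIcc ht).trans' (by rw [abs_sub_comm]) |>.trans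
          (by rwa [abs_sub_comm]))
        rw [← ha] at h4
        simp only at ht0
        rw [ht0, abs_zero] at h4
        linarith
    have := conv (f := fun y => σ * ev q 0 y) (f1 := fun y => σ * ev q 1 y)
      (f2 := fun y => σ * ev q 2 y) (fun y => (hasDerivAt_ev q 0 y).const_mul σ)
      (fun y => (hasDerivAt_ev q 1 y).const_mul σ) (by simp [hz]) hs hx
    rwa [ha] at this
  have h3 := h2 z (by simpa using hv.le)
  rcases abs_cases (ev q 2 z) with k | k
  · exact ⟨1, Or.inl rfl, key 1 (Or.inl rfl) (by linarith [k.1])⟩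
  · exact ⟨-1, Or.inr rfl, key (-1) (Or.inr rfl) (by linarith [k.1])⟩

end NlocA

theorem p_NLOC :
    S_NLOC := by
  intro d D u ρ v hv hv1 hg
  have hz : ∀ z, ρ.IsT u.1 z → ∃ σ : ℝ, (σ = 1 ∨ σ = -1) ∧ ∀ x, |x - z| ≤ v →
      v * |x - z| ≤ |ev ρ.q 1 x| ∧
        v * (x - z) ^ 2 ≤ 2 * (σ * ev ρ.q 0 x - σ * ev ρ.q 0 z) :=
    fun z hT => NlocA.zone ρ.q hv hT.2.2 (hg.r1 z hT).2.2.2
  refine ⟨fun z x hT hx => ?_, fun hr z x hT hx => ?_, fun x w η hx hw hη h8 => ?_⟩
  · obtain ⟨σ, -, h⟩ := hz z hT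
    exact (h x hx).1
  · obtain ⟨σ, hσ, h⟩ := hz z hT
    obtain ⟨-, -, hmM, hf, hZ, -⟩ := hr
    obtain ⟨h1, h2, h3, h4⟩ := hZ z hT.1
    obtain ⟨y, hy, hyz, hy2⟩ : ∃ y ∈ Set.Icc ρ.m ρ.M, y ≠ z ∧ |y - z| ≤ v := by
      rcases h2.lt_or_eq with k | k
      · refine ⟨min ρ.M (z + v), ⟨le_min hmM.le (by linarith), min_le_left _ _⟩,
          (lt_min k (by linarith)).ne', abs_le.2 ⟨?_, by linarith [min_le_right ρ.M (z + v)]⟩⟩
        linarith [lt_min k (show z < z + v by linarith)]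
      · refine ⟨max ρ.m (z - v), ⟨le_max_left _ _, max_le hmM.le (by linarith)⟩,
          (max_lt (by linarith) (by linarith)).ne, abs_le.2 ⟨by linarith [le_max_right ρ.m (z - v)], ?_⟩⟩
        linarith [max_lt (show ρ.m < z by linarith) (show z - v < z by linarith)]
    have k1 := (h y hy2).2
    have k2 : 0 < v * (y - z) ^ 2 := mul_pos hv (by positivity [sub_ne_zero.2 hyz])
    have k3 := abs_le.1 (hf y hy)
    have k4 := (h x hx).2
    have k5 : 0 ≤ v * (x - z) ^ 2 := by positivity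
    have hQ : 0 ≤ D.Q := h3 ▸ abs_nonneg _
    rcases hσ with rfl | rfl <;> rcases abs_cases (ev ρ.q 0 z) with k | k <;>
      nlinarith [k.1, k3.1, k3.2]
  · have hη0 : 0 ≤ η := (abs_nonneg _).trans hη
    have hv2 : v ^ 2 ≤ 1 := by nlinarith
    have hηv : η ≤ v := by nlinarith
    have hT : ∀ y z, ρ.IsT u.1 z → |y - z| ≤ v → ev ρ.q 0 z = w → |ev ρ.q 0 y - w| ≤ η →
        v * (y - z) ^ 2 ≤ 2 * η := by
      intro y z hT hy hzw hyw
      obtain ⟨σ, hσ, h⟩ := hz z hT
      have := (h y hy).2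
      rw [hzw] at this
      rw [abs_le] at hyw
      rcases hσ with rfl | rfl <;> linarith [hyw.1, hyw.2]
    by_cases hc : ∃ z, ρ.IsT u.1 z ∧ |x - z| ≤ v ∧ ev ρ.q 0 z = w
    · obtain ⟨z, h1, h2, h3⟩ := hc
      exact ⟨z, h3, hT x z h1 h2 h3 hη, Or.inl h1⟩
    · have hlow : ∀ y ∈ Set.Icc (x - v / 2) (x + v / 2), |ev ρ.q 0 y - w| ≤ η →
          v ^ 2 ≤ |ev ρ.q 1 y| := by
        intro y hy hyw
        have hyx : |y - x| ≤ v / 2 := abs_le.2 ⟨by linarith [hy.1], by linarith [hy.2]⟩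
        have hyL : |y| ≤ D.Lam := by
          have := abs_add_le x (y - x)
          rw [add_sub_cancel] at this
          linarith
        rcases hg.r2 y hyL w hw (hyw.trans hηv) with k | ⟨z, h1, h2, h3⟩
        · exact k
        · exfalso
          have k1 := hT y z h1 h2 h3 hyw
          have k2 : |y - z| ≤ v / 2 := by
            refine abs_le_of_sq_le_sq' ?_ (by linarith) |> abs_le.2
            nlinarith
          refine hc ⟨z, h1, ?_, h3⟩
          have := abs_sub_le x y z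
          rw [abs_sub_comm x y] at this
          linarith
      obtain ⟨r, hr, hr1, hr2⟩ := n_root (hasDerivAt_ev ρ.q 0) (continuous_ev ρ.q 1)
        (by positivity : 0 < v ^ 2) (⟨by linarith, by linarith⟩ : x ∈ Set.Icc (x - v / 2) (x + v / 2))
        hlow hη
      have k0 : η / v ^ 2 ≤ v / 8 := by rw [div_le_iff₀ (by positivity)]; nlinarith
      have hrw : ev ρ.q 0 r = w := by
        rcases hr2 with k | k | k
        · exact k
        · rw [k, abs_of_nonneg (by linarith)] at hr1; linarith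
        · rw [k, abs_of_nonpos (by linarith)] at hr1; linarith
      refine ⟨r, hrw, ?_, Or.inr (hlow r hr (by simpa [hrw] using hη0))⟩
      have k1 : |x - r| * |x - r| ≤ η / v ^ 2 * (v / 8) :=
        mul_le_mul hr1 (hr1.trans k0) (abs_nonneg _) (by positivity)
      rw [abs_mul_abs_self] at k1
      have k2 : v * (η / v ^ 2 * (v / 8)) = η / 8 := by field_simp
      nlinarith

end Pool.Agent.P.MP_a0f0ad_al.Fi
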