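import Pool.Agent.P.MP_a0f0ad_al.Fi.N.Iface2
import Pool.Agent.P.MP_a0f0ad_al.Fi.N.Basic
import Pool.Agent.P.MP_a0f0ad_al.Fi.Z.Bm

/-! Step NOM of the filiform project. -/

namespace Pool.Agent.P.MP_a0f0ad_al.Fi

open Finset MeasureTheory

namespace NomA

theorem low {d : ℕ} {D : LD d} {S : Finset (G d)} (h : D.Spec S) {C0 c0 : ℝ} (hC : 0 ≤ C0)
    (hc : 0 ≤ c0) (h1 : ∀ u u', |D.om u - D.om u'| ≤ C0 * |u - u'|)
    (h2 : ∀ u, |u| ≤ D.Q → c0 * (D.Q - |u|) ≤ D.om u) {y e : ℝ} (he : 0 ≤ e)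
    (hy : |y| ≤ D.Q + e) : -(C0 * e) ≤ D.om y := by
  by_cases k : |y| ≤ D.Q
  · have := h2 y k
    have h3 : 0 ≤ c0 * (D.Q - |y|) := mul_nonneg hc (by linarith)
    have h4 : 0 ≤ C0 * e := mul_nonneg hC he
    linarith
  · have h3 := h1 |y| D.Q
    have h4 : D.om |y| = D.om y := by
      rcases abs_cases y with a | a <;> rw [a.1]
      exact D.om_neg y
    rw [h4, abs_of_nonneg (by linarith : 0 ≤ |y| - D.Q)] at h3
    have h5 : C0 * (|y| - D.Q) ≤ C0 * e := mul_le_mul_of_nonneg_left (by linarith) hC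
    have h6 := h.om_Q_nonneg
    linarith [(abs_le.1 h3).1]

theorem levels {d : ℕ} {q : Fin d → ℝ} (h : Nonconst q) (w : ℝ) :
    ∃ F : Finset ℝ, (F.card : ℝ) ≤ 2 * d ∧ ∀ x, ev q 0 x = w ∨ ev q 0 x = -w → x ∈ F := by
  classical
  obtain ⟨a1, a2⟩ := h.finite_level w
  obtain ⟨b1, b2⟩ := h.finite_level (-w)
  refine ⟨a1.toFinset ∪ b1.toFinset, ?_, fun x hx => ?_⟩
  · have h1 := Finset.card_union_le a1.toFinset b1.toFinset
    rw [← Set.ncard_eq_toFinset_card _ a1, ← Set.ncard_eq_toFinset_card _ b1] at h1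
    have : (a1.toFinset ∪ b1.toFinset).card ≤ 2 * d := by omega
    exact_mod_cast this
  · simpa using hx

end NomA

theorem p_NOM (hNLOC : S_NLOC) :
    S_NOM := by
  intro d S D h
  obtain ⟨C0, hC0, -, -, -, hlip, -⟩ := h.exists_bound
  obtain ⟨c0, hc0, -, hsl, -⟩ := h.exists_slack
  have hL := h.Lam_pos
  have hQ := h.Qpos
  obtain ⟨N, hN⟩ : ∃ N : ℝ, N = 1024 * (d : ℝ) ^ 2 := ⟨_, rfl⟩
  have hN0 : 0 ≤ N := by rw [hN]; positivity
  have p1 : 0 ≤ C0 * (2 * D.Lam) := by positivity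
  have p2 : 0 ≤ |D.om 0| + C0 * (D.Q + 1) := by positivity
  have p3 : 0 ≤ N * C0 / c0 := by positivity
  have p4 : 0 ≤ 2 * N / c0 := by positivity
  obtain ⟨C, hC⟩ : ∃ C : ℝ, C = C0 * (2 * D.Lam) + (|D.om 0| + C0 * (D.Q + 1)) + N + N * C0 / c0 +
    2 * N / c0 + 1 := ⟨_, rfl⟩
  refine ⟨C, by linarith, ?_⟩
  intro u ρ v s t e v0 v1 hq hg hs ht hst e0 e1 hf
  have hi : IntervalIntegrable (fun x => D.om (ev ρ.q 0 x)) volume s t :=
    (h.continuous_om.comp (continuous_iff_continuousAt.2 fun x =>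
      (hasDerivAt_ev ρ.q 0 x).continuousAt)).intervalIntegrable s t
  have hlow : ∀ x ∈ Set.Icc s t, -(C0 * e) ≤ D.om (ev ρ.q 0 x) := fun x hx =>
    NomA.low h (by linarith) hc0.le hlip hsl e0 (hf x hx)
  have hts : t - s ≤ 2 * D.Lam := by linarith [le_abs_self t, neg_abs_le s]
  refine ⟨?_, ?_, fun δ δ0 δv δt hCe => ?_⟩
  · have h1 := intervalIntegral.integral_mono_on hst intervalIntegrable_const hi hlow
    rw [intervalIntegral.integral_const, smul_eq_mul] at h1
    have h2 : (t - s) * (C0 * e) ≤ 2 * D.Lam * (C0 * e) :=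
      mul_le_mul_of_nonneg_right hts (by positivity)
    have h3 : C0 * (2 * D.Lam) * e ≤ C * e := mul_le_mul_of_nonneg_right (by linarith) e0
    linarith
  · have h1 := intervalIntegral.integral_mono_on (g := fun _ => C) hst hi intervalIntegrable_const
      fun x hx => by
        have a1 := (abs_le.1 (hlip (ev ρ.q 0 x) 0)).2
        rw [sub_zero] at a1
        have a2 : C0 * |ev ρ.q 0 x| ≤ C0 * (D.Q + 1) :=
          mul_le_mul_of_nonneg_left (by linarith [hf x hx]) (by linarith)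
        linarith [le_abs_self (D.om 0)]
    rw [intervalIntegral.integral_const, smul_eq_mul] at h1
    linarith
  · have hd : (1 : ℝ) ≤ d := by
      obtain ⟨j, -⟩ := hq
      exact_mod_cast j.pos
    obtain ⟨F, hF, hF'⟩ := NomA.levels hq D.Q
    obtain ⟨r, hr⟩ : ∃ r : ℝ, r = δ / (16 * d) := ⟨_, rfl⟩
    have r0 : 0 < r := by rw [hr]; positivity
    have hr' : δ = 16 * d * r := by rw [hr]; field_simp
    obtain ⟨η, hη⟩ : ∃ η : ℝ, η = v * r ^ 2 / 4 := ⟨_, rfl⟩
    have η0 : 0 < η := by rw [hη]; positivity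
    have hNη : N * η = v * δ ^ 2 := by rw [hN, hη, hr']; ring
    have N1 : 1024 ≤ N := by rw [hN]; nlinarith
    have h8 : 8 * η ≤ v ^ 3 := by
      have a1 : δ ^ 2 ≤ v ^ 2 := by gcongr
      have a2 : v * δ ^ 2 ≤ v * v ^ 2 := by gcongr
      nlinarith
    have he : e ≤ η := by
      have a1 : N * e ≤ C * e := mul_le_mul_of_nonneg_right (by linarith) e0
      exact le_of_mul_le_mul_left (by linarith : N * e ≤ N * η) (by linarith)
    have hk : C0 * e ≤ c0 * η := by
      have a1 : N * C0 / c0 * e ≤ C * e := mul_le_mul_of_nonneg_right (by linarith) e0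
      have a2 : N * (C0 * e / c0) ≤ N * η := by
        have : N * (C0 * e / c0) = N * C0 / c0 * e := by ring
        linarith
      have a3 := le_of_mul_le_mul_left a2 (by linarith)
      rw [div_le_iff₀ hc0] at a3
      linarith
    have κ0 : 0 < c0 * η := by positivity
    have hcov := n_cover (h := fun x => -D.om (ev ρ.q 0 x)) (K := C0 * e) (k0 := -(c0 * η)) F hst
      r0.le hi.neg (by have : 0 ≤ C0 * e := by positivity
                       linarith) (fun x hx => by linarith [hlow x hx]) fun x hx hfar => by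
        have hx' : |x| + 1 ≤ D.Lam := by
          have := abs_le_max_abs_abs hx.1 hx.2
          rcases le_max_iff.1 this with a | a <;> linarith
        have key : ∀ w ∈ D.ThA, w = D.Q ∨ w = -D.Q → η < |ev ρ.q 0 x - w| := fun w hw hw' => by
          by_contra k
          obtain ⟨z, z1, z2, -⟩ := (hNLOC d D u ρ v v0 v1 hg).2.2 x w η hx' hw (not_lt.1 k) h8
          have z3 := hfar z (hF' z (by rcases hw' with a | a <;> simp [z1, a]))
          have z4 : r ^ 2 < (x - z) ^ 2 := by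
            rw [← sq_abs (x - z)]; gcongr
          have z5 : v * r ^ 2 < v * (x - z) ^ 2 := by gcongr
          have z6 : 0 < v * r ^ 2 := by positivity
          linarith
        have k1 := key D.Q (Or.inl rfl) (Or.inl rfl)
        have k2 := key (-D.Q) (Or.inr (Or.inl rfl)) (Or.inr rfl)
        have k3 := abs_le.1 (hf x hx)
        have k4 : |ev ρ.q 0 x| ≤ D.Q - η := by
          rw [abs_le]
          constructor
          · rcases abs_cases (ev ρ.q 0 x - -D.Q) with a | a <;> linarith [a.1, k3.1]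
          · rcases abs_cases (ev ρ.q 0 x - D.Q) with a | a <;> linarith [a.1, k3.2]
        have k5 := hsl _ (by linarith : |ev ρ.q 0 x| ≤ D.Q)
        have k6 : c0 * η ≤ c0 * (D.Q - |ev ρ.q 0 x|) :=
          mul_le_mul_of_nonneg_left (by linarith) hc0.le
        linarith
    rw [intervalIntegral.integral_neg] at hcov
    have b1 : 2 * r * F.card ≤ δ / 4 := by
      have : 2 * r * F.card ≤ 2 * r * (2 * d) := by gcongr
      linarith
    have b2 : (C0 * e - -(c0 * η)) * (2 * r * F.card) ≤ 2 * (c0 * η) * (δ / 4) :=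
      mul_le_mul (by linarith) b1 (mul_nonneg (by linarith) (Nat.cast_nonneg _)) (by linarith)
    have b3 : c0 * η * δ ≤ c0 * η * (t - s) := by gcongr
    have b4 : c0 * η * δ / 2 ≤ ∫ x in s..t, D.om (ev ρ.q 0 x) := by linarith
    have b5 : 0 ≤ c0 * η * δ / 2 := by positivity
    have b6 : 2 * N / c0 * (c0 * η * δ / 2) ≤ C * ∫ x in s..t, D.om (ev ρ.q 0 x) :=
      mul_le_mul (by linarith) b4 b5 (by linarith)
    have b7 : 2 * N / c0 * (c0 * η * δ / 2) = N * η * δ := by field_simp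
    rw [b7, hNη] at b6
    linarith

end Pool.Agent.P.MP_a0f0ad_al.Fi
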