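import Pool.Agent.P.MP_a0f0ad_al.Fi.N.Iface2
import Pool.Agent.P.MP_a0f0ad_al.Fi.N.Basic
import Pool.Agent.P.MP_a0f0ad_al.Fi.Z.Bm

/-! Step NPIN of the filiform project. -/

namespace Pool.Agent.P.MP_a0f0ad_al.Fi

open Finset MeasureTheory

theorem p_NPIN :
    S_NPIN := by
  intro d S D hD
  obtain ⟨c, hc0, hc1, h1, -⟩ := hD.exists_slack
  refine ⟨c, hc0, hc1, fun u ρ v hv hv1 hr hg => ?_⟩
  obtain ⟨-, -, hmM, hf, hZ, -⟩ := hr
  have key : ∀ x, x = 0 ∨ x = u.1 → x ∈ Set.Icc ρ.m ρ.M →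
      c * v + |ρ.muAt x * ev ρ.q 1 x| ≤ D.om (ev ρ.q 0 x) := by
    intro x hx hxm
    have hq := hf x hxm
    rcases hg.r3 x hx with ⟨k1, -, -, k2⟩ | k
    · have k3 := (hZ x k1).2.2.1
      have k4 : D.om (ev ρ.q 0 x) = D.om D.Q := by
        rcases abs_cases (ev ρ.q 0 x) with k | k
        · rw [← k3, k.1]
        · rw [← k3, k.1, D.om_neg]
      rw [k4, RD.muAt, if_pos k1, abs_mul]
      nlinarith
    · have k1 := k D.Q (Or.inl rfl)
      have k2 := k (-D.Q) (Or.inr (Or.inl rfl))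
      have k3 : v ≤ D.Q - |ev ρ.q 0 x| := by
        have := abs_le.1 hq
        rw [abs_of_nonpos (by linarith [this.2])] at k1
        rw [abs_of_nonneg (by linarith [this.1])] at k2
        rcases abs_cases (ev ρ.q 0 x) with k | k <;> linarith [k.1]
      have k4 : x ∉ ρ.Z := fun hx' => by linarith [(hZ x hx').2.2.1]
      rw [RD.muAt, if_neg k4, zero_mul, abs_zero, add_zero]
      exact (mul_le_mul_of_nonneg_left k3 hc0.le).trans (h1 _ hq)
  constructor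
  · intro hm
    have := key ρ.m (Or.inl hm) ⟨le_rfl, hmM.le⟩
    rw [RD.Dm]
    linarith [neg_abs_le (ρ.muAt ρ.m * ev ρ.q 1 ρ.m)]
  · intro hM
    have := key ρ.M (Or.inr hM) ⟨hmM.le, le_rfl⟩
    rw [RD.DM]
    linarith [le_abs_self (ρ.muAt ρ.M * ev ρ.q 1 ρ.M)]

end Pool.Agent.P.MP_a0f0ad_al.Fi
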