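import Pool.Agent.P.MP_a0f0ad_al.Fi.N.Iface2
import Pool.Agent.P.MP_a0f0ad_al.Fi.R.Iface
import Pool.Agent.P.MP_a0f0ad_al.Fi.I.Iface
import Pool.Agent.P.MP_a0f0ad_al.Fi.Z.Bp
import Pool.Agent.P.MP_a0f0ad_al.Fi.Z.Bg

/-! Step NRNG of the filiform project. -/

namespace Pool.Agent.P.MP_a0f0ad_al.Fi

open Finset MeasureTheory

namespace NrngA

variable {d : ℕ}

theorem ell_cases (hd : 1 ≤ d) (u : E d) (h : 0 < ell u) :
    ell u = |u.1| ∨ ∃ j : Fin d, 1 ≤ (j : ℕ) ∧ |u.2 j| = ell u ^ (j : ℕ) := by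
  have : Nonempty (Fin d) := ⟨⟨0, hd⟩⟩
  obtain ⟨j, hj⟩ := exists_eq_ciSup_of_finite
    (f := fun j : Fin d => if (j : ℕ) = 0 then 0 else |u.2 j| ^ (((j : ℕ) : ℝ)⁻¹))
  rcases max_choice |u.1| (⨆ j : Fin d, if (j : ℕ) = 0 then 0 else
    |u.2 j| ^ (((j : ℕ) : ℝ)⁻¹)) with e | e
  · exact Or.inl e
  · have e' : ell u = if (j : ℕ) = 0 then 0 else |u.2 j| ^ (((j : ℕ) : ℝ)⁻¹) := e.trans hj.symm
    by_cases h0 : (j : ℕ) = 0
    · rw [if_pos h0] at e'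
      exact absurd e' h.ne'
    · rw [if_neg h0] at e'
      exact Or.inr ⟨j, by omega, by rw [e', Real.rpow_inv_natCast_pow (abs_nonneg _) h0]⟩

theorem snd_le (u : E d) (j : Fin d) : |u.2 j| ≤ ‖u‖ :=
  (norm_le_pi_norm u.2 j).trans (norm_snd_le u)

theorem ell_le (hd : 1 ≤ d) (u : E d) {L : ℝ} (hL : 1 ≤ L) (hu : ‖u‖ ≤ L) : ell u ≤ L := by
  by_contra hc
  have hc' : L < ell u := not_le.1 hc
  rcases ell_cases hd u (by linarith) with e | ⟨j, hj, e⟩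
  · have : |u.1| ≤ ‖u‖ := norm_fst_le u
    linarith
  · have h1 := snd_le u j
    have h2 : ell u ≤ ell u ^ (j : ℕ) := le_self_pow₀ (by linarith) (by omega)
    linarith

theorem sum_le (w : List (G d)) {T l B : ℝ} (hT : 0 < T) (hl : T⁻¹ ≤ l) (hB : 0 ≤ B)
    (hm : ∀ k < w.length, |mid T w k| ≤ l)
    (hb : ∀ k < w.length, |((lt w k).b : ℝ)| ≤ B ∧ |(lt w k).ct| ≤ B) (j : Fin d)
    (hj : 1 ≤ (j : ℕ)) :
    |(∑ k ∈ range w.length, (((lt w k).b : ℝ) • (Vd 0 (mid T w k) : Fin d → ℝ) +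
      ((lt w k).ct / T) • Vd 1 (mid T w k)) : Fin d → ℝ) j| ≤
      w.length * (B * (1 + d) * l ^ (j : ℕ)) := by
  have hl0 : 0 ≤ l := (inv_pos.2 hT).le.trans hl
  rw [Finset.sum_apply]
  refine (Finset.abs_sum_le_sum_abs _ _).trans ?_
  refine (Finset.sum_le_card_nsmul _ _ (B * (1 + d) * l ^ (j : ℕ)) fun k hk => ?_).trans
    (by rw [card_range, nsmul_eq_mul])
  have hk' := mem_range.1 hk
  obtain ⟨i, hi⟩ : ∃ i, (j : ℕ) = i + 1 := ⟨j - 1, by omega⟩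
  have hjd : ((j : ℕ) : ℝ) ≤ d := by exact_mod_cast j.2.le
  have h1 : |((lt w k).b : ℝ) * mid T w k ^ (j : ℕ)| ≤ B * l ^ (j : ℕ) := by
    rw [abs_mul, abs_pow]
    exact mul_le_mul (hb k hk').1 (pow_le_pow_left₀ (abs_nonneg _) (hm k hk') _) (by positivity) hB
  have h2 : |(lt w k).ct / T * (((j : ℕ) : ℝ) * mid T w k ^ i)| ≤ B * d * l ^ (j : ℕ) := by
    rw [abs_mul, abs_mul, abs_pow, div_eq_mul_inv, abs_mul, abs_of_pos (inv_pos.2 hT),
      Nat.abs_cast]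
    have a1 : |(lt w k).ct| * T⁻¹ ≤ B * l := mul_le_mul (hb k hk').2 hl (inv_pos.2 hT).le hB
    have a2 : ((j : ℕ) : ℝ) * |mid T w k| ^ i ≤ d * l ^ i :=
      mul_le_mul hjd (pow_le_pow_left₀ (abs_nonneg _) (hm k hk') _) (by positivity) (by positivity)
    refine (mul_le_mul a1 a2 (by positivity) (by positivity)).trans (le_of_eq ?_)
    rw [hi]; ring
  have e : (((lt w k).b : ℝ) • (Vd 0 (mid T w k) : Fin d → ℝ) +
      ((lt w k).ct / T) • Vd 1 (mid T w k) : Fin d → ℝ) j = ((lt w k).b : ℝ) * mid T w k ^ (j : ℕ) +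
      (lt w k).ct / T * (((j : ℕ) : ℝ) * mid T w k ^ i) := by
    have : (j : ℕ) - 1 = i := by omega
    simp [Vd, this]
  rw [e]
  refine (abs_add_le _ _).trans ((add_le_add h1 h2).trans (le_of_eq (by ring)))

end NrngA

theorem p_NRNG (hFO : S_FO) (hGRW : S_GRW) :
    S_NRNG := by
  intro d S L hd
  obtain ⟨C1, hC1, h1⟩ := hGRW d S
  obtain ⟨C2, h2⟩ := hFO d S (C1 * L)
  obtain ⟨B, hB0, hB⟩ : ∃ B : ℝ, 0 ≤ B ∧ ∀ s ∈ S, |(s.b : ℝ)| ≤ B ∧ |s.ct| ≤ B := by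
    refine ⟨∑ s ∈ S, (|(s.b : ℝ)| + |s.ct|), sum_nonneg fun s _ => by positivity, fun s hs => ?_⟩
    have := single_le_sum (f := fun s : G d => |(s.b : ℝ)| + |s.ct|)
      (fun s _ => by positivity) hs
    constructor <;> linarith [abs_nonneg (s.b : ℝ), abs_nonneg s.ct]
  obtain ⟨L1, hL1, hLL⟩ : ∃ L1 : ℝ, 1 ≤ L1 ∧ L ≤ L1 := ⟨max 1 L, le_max_left _ _, le_max_right _ _⟩
  obtain ⟨C3, hC3, hC3'⟩ : ∃ C3 : ℝ, 1 ≤ C3 ∧ L1 * (B * (1 + d)) ≤ C3 :=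
    ⟨max 1 _, le_max_left _ _, le_max_right _ _⟩
  obtain ⟨A, hA⟩ : ∃ A : ℝ, A = L1 ^ d * (1 + |C2| * L1) := ⟨_, rfl⟩
  have hP : 0 < L1 ^ d := by positivity
  have hA1 : L1 ^ d ≤ A := by
    rw [hA]; exact le_mul_of_one_le_right hP.le (le_add_of_nonneg_right (by positivity))
  refine ⟨4 * A + 2 * C3, by linarith, fun T w τ1 τ2 u hT hw hlen hτ ha hu hδ hC => ?_⟩
  obtain ⟨C, hCe⟩ : ∃ C : ℝ, C = 4 * A + 2 * C3 := ⟨_, rfl⟩
  rw [← hCe] at hδ hC ⊢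
  have hC0 : 0 < C := by linarith
  have hT0 : 0 < T := by linarith
  have ht0 : 0 < T⁻¹ := inv_pos.2 hT0
  obtain ⟨l, hl⟩ : ∃ l : ℝ, l = (ht w τ2 : ℝ) / T - ht w τ1 / T := ⟨_, rfl⟩
  rw [← hl]
  have hl' : l = ((ht w τ2 : ℝ) - ht w τ1) * T⁻¹ := by rw [hl]; ring
  have p1 : (ht w τ1 : ℝ) ≤ 0 := by
    have := (hτ 0 (Nat.zero_le _)).1
    rw [ht_eq_sum w 0, sum_range_zero] at this
    exact_mod_cast this
  have p2 : (w.prod.a : ℝ) ≤ ht w τ2 := by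
    have := (hτ _ le_rfl).2
    rw [ht_length] at this
    exact_mod_cast this
  have p3 : (1 : ℝ) ≤ w.prod.a := by exact_mod_cast ha
  have q1 : (w.prod.a : ℝ) * T⁻¹ ≤ l := by
    rw [hl']; exact mul_le_mul_of_nonneg_right (by linarith) ht0.le
  have q2 : T⁻¹ ≤ l := (le_mul_of_one_le_left ht0.le p3).trans q1
  have hl0 : 0 < l := ht0.trans_le q2
  have hm : ∀ k < w.length, |mid T w k| ≤ l := fun k hk => by
    have a1 : (ht w τ1 : ℝ) ≤ ht w k ∧ (ht w k : ℝ) ≤ ht w τ2 := by exact_mod_cast hτ k hk.le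
    have a2 : (ht w τ1 : ℝ) ≤ ht w (k + 1) ∧ (ht w (k + 1) : ℝ) ≤ ht w τ2 := by
      exact_mod_cast hτ (k + 1) hk
    rw [ht_succ] at a2
    push_cast at a2
    rw [mid, div_eq_mul_inv, abs_mul, abs_of_pos ht0, hl']
    refine mul_le_mul_of_nonneg_right (abs_le.2 ⟨?_, ?_⟩) ht0.le <;> linarith [a1.1, a1.2, a2.1, a2.2]
  have hht : ∀ k ≤ w.length, |(ht w k : ℝ)| ≤ C1 * L * T := fun k hk => by
    have a1 := (h1 (w.take k) fun s hs => hw s (List.mem_of_mem_take hs)).1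
    have a2 : ((w.take k).length : ℝ) ≤ w.length := by
      exact_mod_cast List.length_take_le' k w
    rw [mul_assoc]
    exact a1.trans (mul_le_mul_of_nonneg_left (a2.trans hlen) hC1.le)
  have e0 : 0 ≤ ell u := le_max_of_le_left (abs_nonneg _)
  have e1 : 0 < ell u := by
    refine e0.lt_of_ne fun h => ?_
    rw [← h, zero_pow (by omega), mul_zero] at hC
    linarith
  have e2 : ell u ≤ L1 := NrngA.ell_le (by omega) u hL1 (hu.trans hLL)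
  have e3 : ∀ j ≤ d, ell u ^ d ≤ ell u ^ j * L1 ^ d := fun j hj => by
    obtain ⟨i, rfl⟩ := Nat.exists_eq_add_of_le hj
    rw [pow_add]
    refine mul_le_mul_of_nonneg_left ?_ (by positivity)
    exact (pow_le_pow_left₀ e0 e2 i).trans (pow_le_pow_right₀ hL1 (by omega))
  obtain ⟨δ, hδe⟩ : ∃ δ : ℝ, δ = ‖T⁻¹ • nx T w.prod - u‖ := ⟨_, rfl⟩
  have hδ0 : 0 ≤ δ := hδe ▸ norm_nonneg _
  have hCt : C * T⁻¹ ≤ ell u ^ d := by
    rw [← div_eq_mul_inv, div_le_iff₀ hT0, mul_comm]; exact hC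
  have key : ∀ j ≤ d, δ + |C2| * L1 * T⁻¹ ≤ ell u ^ j / 4 := fun j hj => by
    have a0 : 0 ≤ |C2| * L1 := by positivity
    have a1 : C * (δ + |C2| * L1 * T⁻¹) ≤ ell u ^ d * (1 + |C2| * L1) := by
      have := mul_le_mul_of_nonneg_left hCt a0
      rw [← hδe] at hδ
      linarith
    have a2 : ell u ^ d * (1 + |C2| * L1) ≤ ell u ^ j * A := by
      rw [hA, ← mul_assoc]
      exact mul_le_mul_of_nonneg_right (e3 j hj) (by linarith)
    have a3 : ell u ^ j * A ≤ ell u ^ j * (C / 4) :=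
      mul_le_mul_of_nonneg_left (by linarith) (by positivity)
    refine le_of_mul_le_mul_left ?_ hC0
    linarith
  have hx : 0 ≤ |C2| * L1 * T⁻¹ := by positivity
  have fin : 2 * C3 * l ≤ C * l := mul_le_mul_of_nonneg_right (by linarith) hl0.le
  refine le_trans ?_ fin
  rcases NrngA.ell_cases (by omega) u e1 with e | ⟨j, hj, e⟩
  · have a1 : |T⁻¹ * (w.prod.a : ℝ) - u.1| ≤ δ := hδe ▸ norm_fst_le (T⁻¹ • nx T w.prod - u)
    have a2 := key 1 (by omega)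
    rw [pow_one] at a2
    have a3 : 0 ≤ (w.prod.a : ℝ) * T⁻¹ := by positivity
    have a4 : |u.1| ≤ l + δ := by
      rw [abs_le] at a1 ⊢
      constructor <;> linarith [a1.1, a1.2]
    have a5 : 1 * l ≤ C3 * l := mul_le_mul_of_nonneg_right hC3 hl0.le
    linarith
  · have a1 : |T⁻¹ * (nx T w.prod).2 j - u.2 j| ≤ δ :=
      hδe ▸ NrngA.snd_le (T⁻¹ • nx T w.prod - u) j
    have a2 := key j j.2.le
    have a3 := NrngA.sum_le w hT0 q2 hB0 hm (fun k hk => hB _ (hw.lt_mem hk)) j hj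
    have a4 := (norm_le_pi_norm _ j).trans (h2 T w hT hw hht)
    rw [Pi.sub_apply, Real.norm_eq_abs] at a4
    have hn : (w.length : ℝ) * T⁻¹ ≤ L1 := by
      rw [← div_eq_mul_inv, div_le_iff₀ hT0]
      exact hlen.trans (mul_le_mul_of_nonneg_right hLL hT0.le)
    have a5 : C2 * w.length / T ^ 2 ≤ |C2| * L1 := by
      have b1 : C2 * w.length / T ^ 2 = C2 * (w.length * T⁻¹ * T⁻¹) := by field_simp
      have b2 : (w.length : ℝ) * T⁻¹ * T⁻¹ ≤ L1 :=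
        (mul_le_of_le_one_right (by positivity) (inv_le_one_of_one_le₀ hT)).trans hn
      rw [b1]
      exact mul_le_mul (le_abs_self _) b2 (by positivity) (abs_nonneg _)
    have a6 : |(nx T w.prod).2 j| ≤ w.length * (B * (1 + d) * l ^ (j : ℕ)) + |C2| * L1 := by
      rw [abs_le] at a3 a4 ⊢
      constructor <;> linarith [a3.1, a3.2, a4.1, a4.2]
    have a7 : |T⁻¹ * (nx T w.prod).2 j| ≤ C3 * l ^ (j : ℕ) + |C2| * L1 * T⁻¹ := by
      rw [abs_mul, abs_of_pos ht0]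
      have b1 := mul_le_mul_of_nonneg_left a6 ht0.le
      have b2 : (w.length : ℝ) * T⁻¹ * (B * (1 + d) * l ^ (j : ℕ)) ≤
          L1 * (B * (1 + d) * l ^ (j : ℕ)) := mul_le_mul_of_nonneg_right hn (by positivity)
      have b3 : L1 * (B * (1 + d)) * l ^ (j : ℕ) ≤ C3 * l ^ (j : ℕ) :=
        mul_le_mul_of_nonneg_right hC3' (by positivity)
      linarith
    have a8 : |u.2 j| ≤ C3 * l ^ (j : ℕ) + |C2| * L1 * T⁻¹ + δ := by
      rw [abs_le] at a1 a7 ⊢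
      constructor <;> linarith [a1.1, a1.2, a7.1, a7.2]
    have a9 : 2 * C3 * l ^ (j : ℕ) ≤ (2 * C3) ^ (j : ℕ) * l ^ (j : ℕ) :=
      mul_le_mul_of_nonneg_right (le_self_pow₀ (by linarith) (by omega)) (by positivity)
    have a10 : 0 ≤ ell u ^ (j : ℕ) := by positivity
    refine le_of_pow_le_pow_left₀ (n := j) (by omega) (by positivity) ?_
    rw [mul_pow]
    linarith

end Pool.Agent.P.MP_a0f0ad_al.Fi
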