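import Pool.Agent.P.MP_a0f0ad_al.Fi.N.Iface2
import Pool.Agent.P.MP_a0f0ad_al.Fi.V.Iface
import Pool.Agent.P.MP_a0f0ad_al.Fi.N.Basic
import Pool.Agent.P.MP_a0f0ad_al.Fi.Z.Bm

/-! Step NTRIM of the filiform project. -/

namespace Pool.Agent.P.MP_a0f0ad_al.Fi

open Finset MeasureTheory

namespace NtrimA

variable {d : ℕ} {S : Finset (G d)} {D : LD d} {ρ : RD d} {u : E d} {φ ψ : ℝ → ℝ} {a s t : ℝ}
  {g : Fin d → ℝ}

/-- the measure of a representation -/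
noncomputable def J (D : LD d) (ρ : RD d) (a : ℝ) (φ : ℝ → ℝ) : ℝ :=
  (∫ x in ρ.m..ρ.M, D.kp (ev ρ.q 0 x) * φ x) - (∫ x in ρ.m..0, D.kp (-ev ρ.q 0 x) * φ x) -
    (∫ x in a..ρ.M, D.kp (-ev ρ.q 0 x) * φ x) + ∑ z ∈ ρ.Z, ρ.mu z * φ z

/-- the translated representation -/
noncomputable def shf (ρ : RD d) (g : Fin d → ℝ) (t : ℝ) : RD d :=
  ⟨g, ρ.m + t, ρ.M + t, ρ.Z.map (Equiv.addRight t).toEmbedding, fun x => ρ.mu (x - t)⟩

theorem J_dot (h : D.Spec S) (hr : ρ.Rep D u) (f : Fin d → ℝ) :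
    dot f u.2 = J D ρ u.1 (ev f 0) := by
  rw [hr.2.2.2.2.2, dot_add_right, h.dot_Yq, dot_sum_right]
  simp only [dot_smul_right]
  rfl

theorem J_sub (h : D.Spec S) (hφ : Continuous φ) (hψ : Continuous ψ) :
    J D ρ a (fun x => φ x - ψ x) = J D ρ a φ - J D ρ a ψ := by
  have c1 := continuous_ev ρ.q 0
  simp only [J, mul_sub, sum_sub_distrib]
  rw [intervalIntegral.integral_sub (h.ii_kp c1 hφ _ _) (h.ii_kp c1 hψ _ _),
    intervalIntegral.integral_sub (h.ii_kp c1.fun_neg hφ _ _) (h.ii_kp c1.fun_neg hψ _ _),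
    intervalIntegral.integral_sub (h.ii_kp c1.fun_neg hφ _ _) (h.ii_kp c1.fun_neg hψ _ _)]
  ring

theorem J_mul (c : ℝ) : J D ρ a (fun x => c * φ x) = c * J D ρ a φ := by
  simp only [J, mul_left_comm _ c, intervalIntegral.integral_const_mul, ← mul_sum]
  ring

theorem int_bd {C B A A' : ℝ} {κ : ℝ → ℝ} (hC : ∀ x, |D.kp x| ≤ C) (hA : A ≤ A')
    (hφ : ∀ x ∈ Set.Icc A A', |φ x| ≤ B) :
    |∫ x in A..A', D.kp (κ x) * φ x| ≤ C * B * (A' - A) := by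
  have := intervalIntegral.norm_integral_le_of_norm_le_const (a := A) (b := A') (C := C * B)
    (f := fun x => D.kp (κ x) * φ x) fun x hx => by
      rw [Set.uIoc_of_le hA] at hx
      rw [Real.norm_eq_abs, abs_mul]
      exact mul_le_mul (hC _) (hφ x ⟨hx.1.le, hx.2⟩) (abs_nonneg _) ((abs_nonneg _).trans (hC 0))
  rwa [abs_of_nonneg (sub_nonneg.2 hA)] at this

theorem J_bd {C B L m₀ : ℝ} (hC : ∀ x, |D.kp x| ≤ C) (hr : ρ.Rep D u) (hu : 0 ≤ u.1)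
    (hL : ρ.M - ρ.m ≤ L) (hm : ∑ z ∈ ρ.Z, |ρ.mu z| ≤ m₀)
    (hφ : ∀ x ∈ Set.Icc ρ.m ρ.M, |φ x| ≤ B) : |J D ρ u.1 φ| ≤ (3 * C * L + m₀) * B := by
  obtain ⟨h1, h2, h3, -, h5, -⟩ := hr
  have hB : 0 ≤ B := (abs_nonneg _).trans (hφ _ ⟨le_rfl, h3.le⟩)
  have hCB : 0 ≤ C * B := mul_nonneg ((abs_nonneg _).trans (hC 0)) hB
  have e1 := int_bd (κ := fun x => ev ρ.q 0 x) hC h3.le hφ
  have e2 := int_bd (κ := fun x => -ev ρ.q 0 x) hC h1
    fun x hx => hφ x ⟨hx.1, by linarith [hx.2]⟩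
  have e3 := int_bd (κ := fun x => -ev ρ.q 0 x) hC h2
    fun x hx => hφ x ⟨by linarith [hx.1], hx.2⟩
  have e4 : |∑ z ∈ ρ.Z, ρ.mu z * φ z| ≤ m₀ * B := by
    refine (abs_sum_le_sum_abs _ _).trans (le_trans ?_ (mul_le_mul_of_nonneg_right hm hB))
    rw [sum_mul]
    refine sum_le_sum fun z hz => ?_
    rw [abs_mul]
    exact mul_le_mul_of_nonneg_left (hφ z ⟨(h5 z hz).1, (h5 z hz).2.1⟩) (abs_nonneg _)
  have f1 := mul_le_mul_of_nonneg_left hL hCB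
  have f2 := mul_le_mul_of_nonneg_left (show 0 - ρ.m ≤ L by linarith) hCB
  have f3 := mul_le_mul_of_nonneg_left (show ρ.M - u.1 ≤ L by linarith) hCB
  rw [abs_le] at e1 e2 e3 e4 ⊢
  unfold J
  constructor <;> linarith [e1.1, e1.2, e2.1, e2.2, e3.1, e3.2, e4.1, e4.2]

theorem int_sh (hg : ∀ x, ev g 0 (x + t) = ev ρ.q 0 x) (F : ℝ → ℝ → ℝ) (A B : ℝ) :
    ∫ x in A + t..B + t, F (ev g 0 x) x = ∫ x in A..B, F (ev ρ.q 0 x) (x + t) := by
  rw [← intervalIntegral.integral_comp_add_right]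
  simp only [hg]

theorem J_shf (h : D.Spec S) (hg : ∀ x, ev g 0 (x + t) = ev ρ.q 0 x) (hφ : Continuous φ) :
    J D (shf ρ g t) (a + s + t) φ = J D ρ a (fun x => φ (x + t)) +
      (∫ x in -t..0, D.kp (-ev ρ.q 0 x) * φ (x + t)) +
        ∫ x in a..a + s, D.kp (-ev ρ.q 0 x) * φ (x + t) := by
  have i := h.ii_kp (continuous_ev ρ.q 0).neg (show Continuous fun x => φ (x + t) by fun_prop)
  have e1 := int_sh hg (fun y x => D.kp y * φ x) ρ.m ρ.M
  have e2 := int_sh hg (fun y x => D.kp (-y) * φ x) ρ.m (-t)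
  have e3 := int_sh hg (fun y x => D.kp (-y) * φ x) (a + s) ρ.M
  have e4 := intervalIntegral.integral_add_adjacent_intervals (i ρ.m (-t)) (i (-t) 0)
  have e5 := intervalIntegral.integral_add_adjacent_intervals (i a (a + s)) (i (a + s) ρ.M)
  rw [neg_add_cancel] at e2
  simp only [J, shf, sum_map, Equiv.coe_toEmbedding, Equiv.coe_addRight, add_sub_cancel_right]
  simp only [Pi.neg_apply] at e4 e5
  linarith

theorem rep_shf (hg : ∀ x, ev g 0 (x + t) = ev ρ.q 0 x) (hr : ρ.Rep D u) (hs : s ≤ ρ.M - u.1)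
    (ht : t ≤ -ρ.m) : ∃ y, (shf ρ g t).Rep D (u.1 + s + t, y) := by
  obtain ⟨-, -, h3, h4, h5, -⟩ := hr
  refine ⟨D.Yq g (ρ.m + t) (ρ.M + t) (u.1 + s + t) +
    ∑ z ∈ (shf ρ g t).Z, (shf ρ g t).mu z • Vd 0 z, show ρ.m + t ≤ 0 by linarith,
    show u.1 + s + t ≤ ρ.M + t by linarith, show ρ.m + t < ρ.M + t by linarith,
    fun x hx => ?_, fun z hz => ?_, rfl⟩
  · have := hg (x - t)
    rw [sub_add_cancel] at this
    exact (congrArg abs this).trans_le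
      (h4 _ ⟨le_sub_iff_add_le.2 hx.1, sub_le_iff_le_add.2 hx.2⟩)
  · obtain ⟨z, hz', rfl⟩ := mem_map.1 hz
    simpa [shf, hg] using h5 z hz'

theorem Bf_shf (h : D.Spec S) (hg : ∀ x, ev g 0 (x + t) = ev ρ.q 0 x) (hr : ρ.Rep D u)
    {y : Fin d → ℝ} (hr' : (shf ρ g t).Rep D (u.1 + s + t, y)) :
    D.Bf g (ρ.m + t) (ρ.M + t) (u.1 + s + t, y) = D.Bf ρ.q ρ.m ρ.M u +
      ((∫ x in -t..0, D.kp (-ev ρ.q 0 x) * ev ρ.q 0 x) - ∫ x in -t..0, D.lp (-ev ρ.q 0 x)) +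
      ((∫ x in u.1..u.1 + s, D.kp (-ev ρ.q 0 x) * ev ρ.q 0 x) -
        ∫ x in u.1..u.1 + s, D.lp (-ev ρ.q 0 x)) := by
  have i := (h.continuous_lp.comp (continuous_ev ρ.q 0).neg).intervalIntegrable (μ := volume)
  have e0 := J_dot h hr' g
  rw [J_shf h hg (continuous_ev g 0)] at e0
  have e1 := int_sh hg (fun y _ => D.lp y) ρ.m ρ.M
  have e2 := int_sh hg (fun y _ => D.lp (-y)) ρ.m (-t)
  have e3 := int_sh hg (fun y _ => D.lp (-y)) (u.1 + s) ρ.M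
  have e4 := intervalIntegral.integral_add_adjacent_intervals (i ρ.m (-t)) (i (-t) 0)
  have e5 := intervalIntegral.integral_add_adjacent_intervals (i u.1 (u.1 + s)) (i (u.1 + s) ρ.M)
  have e6 : dot ρ.q u.2 = J D ρ u.1 fun x => ev ρ.q 0 x := J_dot h hr ρ.q
  rw [neg_add_cancel] at e2
  simp only [hg] at e0
  simp only [Function.comp_apply, Pi.neg_apply] at e4 e5
  simp only [LD.Bf]
  linarith

theorem int_low (h : D.Spec S) {C B B' c A l : ℝ} {κ : ℝ → ℝ} (hC : ∀ x, |D.kp x| ≤ C)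
    (hC' : ∀ x y, |D.lp x - D.lp y| ≤ C * |x - y|) (hκ : Continuous κ) (hφ : Continuous φ)
    (hA : A ≤ l) (h1 : ∀ x ∈ Set.Icc A l, |φ x - κ x| ≤ B ∧ |κ x - c| ≤ B') :
    (l - A) * (D.lp (-c) - C * (B + B')) ≤ (∫ x in A..l, D.kp (-κ x) * φ x) -
      ((∫ x in A..l, D.kp (-κ x) * κ x) - ∫ x in A..l, D.lp (-κ x)) := by
  have i1 := h.ii_kp hκ.neg hφ A l
  have i2 := h.ii_kp hκ.neg hκ A l
  have i3 := (h.continuous_lp.comp hκ.neg).intervalIntegrable (μ := volume) A l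
  have := intervalIntegral.integral_mono_on hA
    (intervalIntegrable_const (c := D.lp (-c) - C * (B + B'))) (i1.sub (i2.sub i3)) fun x hx => by
      have hC0 := (abs_nonneg _).trans (hC 0)
      have a1 : |D.kp (-κ x) * (φ x - κ x)| ≤ C * B := by
        rw [abs_mul]
        exact mul_le_mul (hC _) (h1 x hx).1 (abs_nonneg _) hC0
      have a2 := hC' (-κ x) (-c)
      rw [neg_sub_neg, abs_sub_comm c] at a2
      have a3 := mul_le_mul_of_nonneg_left (h1 x hx).2 hC0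
      simp only [Function.comp_apply, Pi.neg_apply]
      linarith [(abs_le.1 a1).1, (abs_le.1 a2).1]
  rw [intervalIntegral.integral_sub i1 (i2.sub i3), intervalIntegral.integral_sub i2 i3,
    intervalIntegral.integral_const] at this
  exact this

end NtrimA

open NtrimA in
theorem p_NTRIM (hHOM : S_HOM) (hPUB : S_PUB) (hNID : S_NID) :
    S_NTRIM := by
  intro d S D h
  obtain ⟨K, hK1, hK⟩ := n_bd d D.Lam
  obtain ⟨C0, hC1, hkp, -, hlp, -⟩ := h.exists_bound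
  obtain ⟨C1, hC1'⟩ : ∃ C1, C1 = 3 * C0 * (2 * D.Lam) + 2 / D.Q := ⟨_, rfl⟩
  have hQ := h.Qpos
  have hL := h.Lam_pos
  have hC10 : 0 ≤ C1 := by rw [hC1']; positivity
  have hCK : 0 ≤ C1 * K := by positivity
  have hCK0 : 0 ≤ C0 * K := by positivity
  have hdd : (0 : ℝ) ≤ d * d := by positivity
  obtain ⟨C, hC⟩ : ∃ C, C = 1 + C1 * K + d * d + 2 * (C0 * K) := ⟨_, rfl⟩
  refine ⟨C, by linarith, ?_⟩
  intro u u' p ρ ρ' W r e s s' hq hopt hosc hr hu hu' _ hB hW hqW he hr1 hs hsM hs' hsm hd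
  obtain ⟨hP, hmass⟩ := hPUB d S D h u' ρ' hu' hr
  obtain ⟨w1, w2⟩ := h.win hr.1 (hu'.trans hr.2.1)
    ((((hHOM d S D h).2.2.1 u' _ _ hr.1 hu' hr.2.1 hr.2.2.1).2.trans hP.le).trans hB)
  rw [abs_of_nonpos hr.1] at w1
  rw [abs_of_nonneg (hu'.trans hr.2.1)] at w2
  have n0 := norm_nonneg (u' - u)
  have hσ : s + s' ≤ C * (s + s') := le_mul_of_one_le_left (by linarith) (by linarith)
  have win : ∀ x ∈ Set.Icc ρ'.m ρ'.M, |x| ≤ D.Lam ∧ |x + s'| ≤ D.Lam := fun x hx =>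
    ⟨abs_le.2 ⟨by linarith [hx.1], by linarith [hx.2]⟩,
      abs_le.2 ⟨by linarith [hx.1], by linarith [hx.2]⟩⟩
  have sub1 : Set.Icc (-s') 0 ⊆ Set.Icc ρ'.m ρ'.M :=
    Set.Icc_subset_Icc (by linarith) (hu'.trans hr.2.1)
  have sub2 : Set.Icc u'.1 (u'.1 + s) ⊆ Set.Icc ρ'.m ρ'.M :=
    Set.Icc_subset_Icc (hr.1.trans hu') (by linarith)
  have bd : ∀ {φ : ℝ → ℝ} {B : ℝ}, (∀ x ∈ Set.Icc ρ'.m ρ'.M, |φ x| ≤ B) →
      |J D ρ' u'.1 φ| ≤ C1 * B := fun hφ => hC1' ▸ J_bd hkp hr hu' (by linarith)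
    (by rw [le_div_iff₀' hQ]; linarith) hφ
  obtain ⟨g, hg⟩ := exists_shift ρ'.q (-s')
  replace hg : ∀ x, ev g 0 (x + s') = ev ρ'.q 0 x := fun x => by rw [hg, add_neg_cancel_right]
  obtain ⟨y, hy⟩ := rep_shf hg hr hsM hsm
  have key : ∀ f, dot f y - dot f u'.2 = J D ρ' u'.1 (fun x => ev f 0 (x + s') - ev f 0 x) +
      (∫ x in -s'..0, D.kp (-ev ρ'.q 0 x) * ev f 0 (x + s')) +
        ∫ x in u'.1..u'.1 + s, D.kp (-ev ρ'.q 0 x) * ev f 0 (x + s') := fun f => by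
    have e0 := J_dot h hy f
    rw [J_shf h hg (continuous_ev f 0)] at e0
    rw [J_sub h (by fun_prop) (continuous_ev f 0), J_dot h hr f]
    linarith
  have hy1 : ‖y - u'.2‖ ≤ C * (s + s') := by
    refine norm_le_of_dot_le (by linarith) fun f hf => ?_
    have hKf : K * ‖f‖ ≤ K := mul_le_of_le_one_right (by linarith) hf
    have a0 : ∀ x ∈ Set.Icc ρ'.m ρ'.M, |ev f 0 (x + s')| ≤ K := fun x hx =>
      (hK f 0 _ _ (win x hx).2 (win x hx).2).1.trans hKf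
    have a1 := bd (φ := fun x => ev f 0 (x + s') - ev f 0 x) (B := K * s') fun x hx => by
      have := (hK f 0 _ _ (win x hx).1 (win x hx).2).2.1
      rw [add_sub_cancel_left, abs_of_nonneg hs'] at this
      exact this.trans (mul_le_mul_of_nonneg_right hKf hs')
    have a2 := int_bd (κ := fun x => -ev ρ'.q 0 x) hkp (by linarith) fun x hx => a0 x (sub1 hx)
    have a3 := int_bd (κ := fun x => -ev ρ'.q 0 x) hkp (by linarith) fun x hx => a0 x (sub2 hx)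
    rw [dot_sub_right, key f, hC]
    refine ((abs_add_three _ _ _).trans (add_le_add_three a1 a2 a3)).trans ?_
    nlinarith [mul_nonneg hCK hs, mul_nonneg hdd hs, mul_nonneg hdd hs', mul_nonneg hCK0 hs,
      mul_nonneg hCK0 hs']
  have hu1 : ‖(u'.1 + s + s', y) - u‖ ≤ ‖u' - u‖ + C * (s + s') := by
    refine (norm_sub_le_norm_sub_add_norm_sub _ u' _).trans ?_
    rw [add_comm]
    refine add_le_add le_rfl (max_le ?_ hy1)
    rw [Prod.fst_sub, Real.norm_eq_abs, abs_of_nonneg (by dsimp only; linarith)]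
    dsimp only
    linarith
  have o1 := (abs_le.1 (hosc _ (hu1.trans hd))).1
  have o2 := mul_le_mul_of_nonneg_left hu1 he
  have hu0 : 0 ≤ u'.1 + s + s' := by linarith
  have o3 := ((hHOM d S D h).2.2.1 (u'.1 + s + s', y) _ _ hy.1 hu0 hy.2.1 hy.2.2.1).1.trans
    (hPUB d S D h _ _ hu0 hy).1.le
  have o4 : D.NN (u'.1 + s + s', y) ≤ _ := o3.trans_eq (Bf_shf h hg hr hy)
  have o5 : pair p ((u'.1 + s + s', y) - u) =
      pair p (u' - u) + p.1 * (s + s') + (dot ρ.q y - dot ρ.q u'.2) := by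
    simp only [pair, hq, Prod.fst_sub, Prod.snd_sub, dot_sub_right]
    ring
  have hKW : K * ‖ρ.q‖ ≤ K * W := mul_le_mul_of_nonneg_left hqW (by linarith)
  have hWr : 0 ≤ W * r := mul_nonneg (by linarith) (by linarith)
  have o6 := bd (φ := fun x => ev ρ.q 0 (x + s') - ev ρ.q 0 x - s' * ev (dv ρ.q) 0 x)
    (B := K * W * r * s') fun x hx => by
      have := (hK ρ.q 0 _ _ (win x hx).1 (win x hx).2).2.2
      rw [add_sub_cancel_left, ← ev_dv] at this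
      refine this.trans ?_
      rw [sq, ← mul_assoc]
      exact mul_le_mul_of_nonneg_right (mul_le_mul hKW (by linarith) hs' (by positivity)) hs'
  rw [J_sub h (by fun_prop) (by fun_prop), J_mul, ← J_dot h hr] at o6
  have o7 : |dot (dv ρ.q) (u'.2 - u.2)| ≤ d * d * (W * r) := by
    refine (abs_dot_le _ _).trans ?_
    have a1 : ‖dv ρ.q‖ ≤ d * W :=
      (norm_dv_le _).trans (mul_le_mul_of_nonneg_left hqW (Nat.cast_nonneg _))
    have a2 : ‖u'.2 - u.2‖ ≤ r := (norm_snd_le (u' - u)).trans (by linarith)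
    calc (d : ℝ) * ‖dv ρ.q‖ * ‖u'.2 - u.2‖ ≤ d * (d * W) * r := by gcongr
      _ = _ := by ring
  rw [dot_sub_right] at o7
  have o8 := mul_le_mul_of_nonneg_left (abs_le.1 o7).1 hs'
  have near : ∀ x ∈ Set.Icc ρ'.m ρ'.M, ∀ z, |z| ≤ D.Lam → |z - x| ≤ r →
      |ev ρ.q 0 z - ev ρ'.q 0 x| ≤ K * (‖ρ'.q - ρ.q‖ + W * r) := fun x hx z hz hzx => by
    have a1 := (hK ρ.q 0 _ _ (win x hx).1 hz).2.1
    have a2 := (hK (ρ'.q - ρ.q) 0 _ _ (win x hx).1 hz).1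
    have a3 := mul_le_mul hKW hzx (abs_nonneg _) (by positivity)
    rw [ev_sub, abs_sub_comm] at a2
    linarith [abs_sub_le (ev ρ.q 0 z) (ev ρ.q 0 x) (ev ρ'.q 0 x)]
  have sr : ∀ x : ℝ, |x + s' - x| ≤ r := fun x => by
    rw [add_sub_cancel_left, abs_of_nonneg hs']
    linarith
  have o9 := int_low h (φ := fun x => ev ρ.q 0 (x + s')) (c := ev ρ.q 0 0) hkp hlp
    (continuous_ev ρ'.q 0) (by fun_prop) (by linarith : -s' ≤ 0) fun x hx =>
      ⟨near x (sub1 hx) _ (win x (sub1 hx)).2 (sr x), (abs_sub_comm _ _).trans_le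
        (near x (sub1 hx) 0 (by rw [abs_zero]; exact hL.le)
          (abs_le.2 ⟨by linarith [hx.2], by linarith [hx.1]⟩))⟩
  have ha := abs_le.1 (norm_fst_le (u' - u))
  rw [Prod.fst_sub] at ha
  have o10 := int_low h (φ := fun x => ev ρ.q 0 (x + s')) (c := ev ρ.q 0 u.1) hkp hlp
    (continuous_ev ρ'.q 0) (by fun_prop) (by linarith : u'.1 ≤ u'.1 + s) fun x hx =>
      ⟨near x (sub2 hx) _ (win x (sub2 hx)).2 (sr x), (abs_sub_comm _ _).trans_le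
        (near x (sub2 hx) u.1 (abs_le.2 ⟨by linarith, by linarith [hr.2.1]⟩)
          (abs_le.2 ⟨by linarith [hx.2], by linarith [hx.1]⟩))⟩
  have o11 := (hNID d S D h u ρ hopt.1).1
  have o12 := hopt.2.2.2.2.2.2
  have e1 : s * ρ.DM D = s * p.1 + s * D.lp (-ev ρ.q 0 u.1) := by rw [o12]; ring
  have e2 : s' * ρ.Dm D = s' * p.1 + s' * dot (dv ρ.q) u.2 + s' * D.lp (-ev ρ.q 0 0) := by
    rw [o12, eq_add_of_sub_eq o11]; ring
  have n1 := norm_nonneg (ρ'.q - ρ.q)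
  have f1 : 0 ≤ (1 + C1 * K + d * d) * (‖ρ'.q - ρ.q‖ * (s + s')) := by positivity
  have f2 : 0 ≤ W * r * (s + s') := by positivity
  have f3 : 0 ≤ (C1 * K + d * d) * (W * r * s) := by positivity
  rw [o5, key] at o1
  rw [e1, e2]
  subst hC
  linarith [(abs_le.1 o6).1]

end Pool.Agent.P.MP_a0f0ad_al.Fi
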