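import Pool.Agent.P.MP_a0f0ad_al.Fi.N.Iface2
import Pool.Agent.P.MP_a0f0ad_al.Fi.N.Basic
import Pool.Agent.P.MP_a0f0ad_al.Fi.Z.Bm

/-! Step NYQ of the filiform project. -/

namespace Pool.Agent.P.MP_a0f0ad_al.Fi

open Finset MeasureTheory

namespace NyqA

theorem short {g : ℝ → ℝ} {L B s a a' : ℝ} (hB : 0 ≤ B) (hg : ∀ x, |x| ≤ L → |g x| ≤ B)
    (ha : |a| ≤ L) (ha' : |a'| ≤ L) (hs : |a' - a| ≤ s) : |∫ x in a..a', g x| ≤ B * s := by
  have h := intervalIntegral.norm_integral_le_of_norm_le_const (a := a) (b := a') (C := B) (f := g)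
    fun x hx => hg x (by
      rw [abs_le] at ha ha' ⊢
      exact ⟨(le_min ha.1 ha'.1).trans hx.1.le, hx.2.trans (max_le ha.2 ha'.2)⟩)
  exact h.trans (mul_le_mul_of_nonneg_left hs hB)

theorem ends {g : ℝ → ℝ} {L B s a a' b b' : ℝ} (hB : 0 ≤ B) (hg : ∀ x, |x| ≤ L → |g x| ≤ B)
    (hi : ∀ s t, IntervalIntegrable g volume s t) (ha : |a| ≤ L) (ha' : |a'| ≤ L) (hb : |b| ≤ L)
    (hb' : |b'| ≤ L) (hs : |a' - a| ≤ s) (ht : |b' - b| ≤ s) :
    |(∫ x in a'..b', g x) - ∫ x in a..b, g x| ≤ 2 * (B * s) := by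
  have e1 := intervalIntegral.integral_add_adjacent_intervals (hi a a') (hi a' b')
  have e2 := intervalIntegral.integral_add_adjacent_intervals (hi a b) (hi b b')
  have h1 := abs_le.1 (short hB hg ha ha' hs)
  have h2 := abs_le.1 (short hB hg hb hb' ht)
  rw [abs_le]
  constructor <;> linarith [h1.1, h1.2, h2.1, h2.2]

theorem chg (hN : S_NLOC) {d : ℕ} {S : Finset (G d)} {D : LD d} (hD : D.Spec S) {K C0 : ℝ}
    (hK0 : 0 ≤ K) (hK : ∀ (q : Fin d → ℝ) x, |x| ≤ D.Lam → |ev q 0 x| ≤ K * ‖q‖)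
    (hC : ∀ u, |D.kp u| ≤ C0) {u : E d} {ρ : RD d} {q' f : Fin d → ℝ} {v s A B σ : ℝ}
    (hσ : σ = 1 ∨ σ = -1) (v0 : 0 < v) (v1 : v ≤ 1) (hn : Nonconst ρ.q) (hG : ρ.Good0 D u v)
    (s0 : 0 < s) (sv : s ≤ v) (hq : 8 * K * ‖q' - ρ.q‖ ≤ v * s ^ 2) (hf : ‖f‖ ≤ 1)
    (hA : |A| + 1 ≤ D.Lam) (hB : |B| + 1 ≤ D.Lam) (hAB : A ≤ B) :
    |(∫ x in A..B, D.kp (σ * ev q' 0 x) * ev f 0 x) -
      ∫ x in A..B, D.kp (σ * ev ρ.q 0 x) * ev f 0 x| ≤ 4 * (C0 * K) * (D.n * d) * s := by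
  classical
  have C00 : 0 ≤ C0 := (abs_nonneg _).trans (hC 0)
  obtain ⟨F, hF, hc⟩ : ∃ F : Finset ℝ, (∀ k < D.n, ∀ r, ev ρ.q 0 r = σ * D.th k → r ∈ F) ∧
      (F.card : ℝ) ≤ D.n * d := by
    refine ⟨(range D.n).biUnion fun k => (hn.finite_level (σ * D.th k)).1.toFinset,
      fun k hk r hr => mem_biUnion.2 ⟨k, mem_range.2 hk, (Set.Finite.mem_toFinset _).2 hr⟩, ?_⟩
    have := card_biUnion_le_card_mul (range D.n)
      (fun k => (hn.finite_level (σ * D.th k)).1.toFinset) d fun k _ => by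
        have := (hn.finite_level (σ * D.th k)).2
        rw [Set.ncard_eq_toFinset_card _ (hn.finite_level (σ * D.th k)).1] at this
        omega
    rw [card_range] at this
    exact_mod_cast this
  have hx : ∀ x ∈ Set.Icc A B, |x| + 1 ≤ D.Lam := fun x hx => by
    have := abs_le_max_abs_abs hx.1 hx.2
    rcases le_max_iff.1 this with a | a <;> linarith
  have hi : ∀ q : Fin d → ℝ, IntervalIntegrable (fun x => D.kp (σ * ev q 0 x) * ev f 0 x)
      volume A B := fun q => hD.ii_kp (by fun_prop) (by fun_prop) A B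
  have hb : ∀ (q : Fin d → ℝ), ∀ x ∈ Set.Icc A B,
      |D.kp (σ * ev q 0 x) * ev f 0 x| ≤ C0 * K := fun q x h => by
    rw [abs_mul]
    refine mul_le_mul (hC _) ((hK f x (by linarith [hx x h])).trans ?_) (abs_nonneg _) C00
    exact mul_le_of_le_one_right hK0 hf
  have hz : ∀ x ∈ Set.Icc A B, (∀ z ∈ F, s < |x - z|) →
      D.kp (σ * ev q' 0 x) = D.kp (σ * ev ρ.q 0 x) := fun x h far => by
    have h1 : |ev q' 0 x - ev ρ.q 0 x| ≤ v * s ^ 2 / 8 := by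
      have := hK (q' - ρ.q) x (by linarith [hx x h])
      rw [ev_sub] at this
      linarith
    have h2 : ∀ k < D.n, v * s ^ 2 / 8 < |ev ρ.q 0 x - σ * D.th k| := fun k hk => by
      by_contra hc
      have hw : σ * D.th k ∈ D.ThA := Or.inr (Or.inr ⟨k, hk, by
        rcases hσ with rfl | rfl <;> simp⟩)
      have h3 : s ^ 2 ≤ v ^ 2 := by gcongr
      obtain ⟨r, r1, r2, -⟩ := (hN d D u ρ v v0 v1 hG).2.2 x _ _ (hx x h) hw (not_lt.1 hc)
        (by nlinarith)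
      have h4 := far r (hF k hk r r1)
      have h5 : s ^ 2 < (x - r) ^ 2 := by
        rw [← sq_abs (x - r)]
        gcongr
      have h6 := mul_lt_mul_of_pos_left h5 v0
      have h7 : 0 < v * s ^ 2 := by positivity
      linarith
    unfold LD.kp LD.idx
    congr 2
    refine filter_congr fun k hk => ?_
    have h3 := h2 k (mem_range.1 hk)
    rw [abs_le] at h1
    rcases hσ with rfl | rfl <;> rcases lt_abs.1 h3 with a | a <;> constructor <;> intro b <;>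
      linarith [h1.1, h1.2]
  have hM : (2 * (C0 * K) - 0) * (2 * s * F.card) ≤ 4 * (C0 * K) * (D.n * d) * s := by
    have : 0 ≤ 4 * (C0 * K) * s := by positivity
    nlinarith [mul_le_mul_of_nonneg_left hc this]
  have k0 : (0 : ℝ) ≤ 2 * (C0 * K) := by positivity
  have c1 := n_cover F hAB s0.le ((hi q').sub (hi ρ.q)) k0
    (fun x h => by linarith [(abs_le.1 (hb q' x h)).2, (abs_le.1 (hb ρ.q x h)).1])
    fun x h far => by rw [hz x h far, sub_self]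
  have c2 := n_cover F hAB s0.le ((hi ρ.q).sub (hi q')) k0
    (fun x h => by linarith [(abs_le.1 (hb q' x h)).1, (abs_le.1 (hb ρ.q x h)).2])
    fun x h far => by rw [hz x h far, sub_self]
  rw [intervalIntegral.integral_sub (hi _) (hi _)] at c1 c2
  rw [abs_le]
  constructor <;> linarith

end NyqA

open NyqA in
theorem p_NYQ (hNLOC : S_NLOC) :
    S_NYQ := by
  intro d S D hD
  obtain ⟨K, K1, hK⟩ := n_bd d D.Lam
  obtain ⟨C0, C1, hC, -⟩ := hD.exists_bound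
  have hK' : ∀ (q : Fin d → ℝ) x, |x| ≤ D.Lam → |ev q 0 x| ≤ K * ‖q‖ :=
    fun q x h => (hK q 0 x x h h).1
  have K0 : 0 ≤ K := by linarith
  have P0 : 0 ≤ C0 * K := by positivity
  have P1 : 0 ≤ 12 * (C0 * K) * (D.n * d) + 6 * (C0 * K) := by positivity
  refine ⟨8 * K + (12 * (C0 * K) * (D.n * d) + 6 * (C0 * K)), by linarith, ?_⟩
  intro u ρ q' f v s m M a m' M' a' v0 v1 hn hG s0 sv hq hf hm hM ha hm' hM' m0 a0 aM dm dM da
  have hq' : 8 * K * ‖q' - ρ.q‖ ≤ v * s ^ 2 := by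
    nlinarith [mul_nonneg P1 (norm_nonneg (q' - ρ.q))]
  have h0 : |(0 : ℝ)| + 1 ≤ D.Lam := by rw [abs_zero]; linarith [abs_nonneg m']
  have ha' : |a'| + 1 ≤ D.Lam := by rw [abs_of_nonneg a0]; linarith [le_abs_self M']
  have c1 := chg hNLOC hD K0 hK' hC (Or.inl rfl) v0 v1 hn hG s0 sv hq' hf hm' hM' (by linarith)
  have c2 := chg hNLOC hD K0 hK' hC (Or.inr rfl) v0 v1 hn hG s0 sv hq' hf hm' h0 m0
  have c3 := chg hNLOC hD K0 hK' hC (Or.inr rfl) v0 v1 hn hG s0 sv hq' hf ha' hM' aM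
  have hb : ∀ σ x : ℝ, |x| ≤ D.Lam → |D.kp (σ * ev ρ.q 0 x) * ev f 0 x| ≤ C0 * K := fun σ x h => by
    rw [abs_mul]
    exact mul_le_mul (hC _) ((hK' f x h).trans (mul_le_of_le_one_right K0 hf)) (abs_nonneg _)
      (by linarith)
  have hi : ∀ σ s t : ℝ, IntervalIntegrable (fun x => D.kp (σ * ev ρ.q 0 x) * ev f 0 x)
      volume s t := fun σ s t => hD.ii_kp (by fun_prop) (by fun_prop) s t
  have e1 := ends P0 (hb 1) (hi 1) hm (by linarith) hM (by linarith) dm dM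
  have e2 := ends P0 (hb (-1)) (hi (-1)) hm (by linarith) (b := 0) (b' := 0) (by linarith)
    (by linarith) dm (by simpa using s0.le)
  have e3 := ends P0 (hb (-1)) (hi (-1)) ha (by linarith) hM (by linarith) da dM
  simp only [one_mul, neg_mul] at c1 c2 c3 e1 e2 e3
  rw [hD.dot_Yq, hD.dot_Yq]
  rw [abs_le] at c1 c2 c3 e1 e2 e3 ⊢
  have k : 0 ≤ K * s := by positivity
  constructor <;> linarith [c1.1, c1.2, c2.1, c2.2, c3.1, c3.2, e1.1, e1.2, e2.1, e2.2, e3.1, e3.2]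

end Pool.Agent.P.MP_a0f0ad_al.Fi
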