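import Pool.Agent.P.MP_a0f0ad_al.Fi.N.Iface
import Pool.Agent.P.MP_a0f0ad_al.Fi.V.Iface
import Pool.Agent.P.MP_a0f0ad_al.Fi.N.Basic
import Pool.Agent.P.MP_a0f0ad_al.Fi.Z.Bm

/-! Step QLOW of the filiform project. -/

namespace Pool.Agent.P.MP_a0f0ad_al.Fi

open Finset MeasureTheory

namespace QlowA

theorem small {d : ℕ} {L K c : ℝ} (hK : ∀ (q : Fin d → ℝ) (k : ℕ) (x y : ℝ),
    |x| ≤ L → |y| ≤ L → |ev q k x| ≤ K * ‖q‖ ∧ |ev q k y - ev q k x| ≤ K * ‖q‖ * |y - x| ∧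
      |ev q k y - ev q k x - (y - x) * ev q (k + 1) x| ≤ K * ‖q‖ * (y - x) ^ 2)
    (hK0 : 0 ≤ K) (hc : 0 ≤ c) (q : Fin d → ℝ) (hq : ∀ j : Fin d, 1 ≤ (j : ℕ) → |q j| < c) :
    (∀ x, |x| ≤ L → |ev q 1 x| ≤ K * c) ∧
      ∀ x y, |x| ≤ L → |y| ≤ L → |ev q 0 x - ev q 0 y| ≤ 2 * (K * c) := by
  let q1 : Fin d → ℝ := fun j => if (j : ℕ) = 0 then 0 else q j
  have hn : ‖q1‖ ≤ c := by
    refine (pi_norm_le_iff_of_nonneg hc).2 fun j => ?_
    simp only [q1]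
    split_ifs with h
    · simpa using hc
    · exact (hq j (by omega)).le
  have hnc : ¬ Nonconst (q - q1) := by
    rintro ⟨j, hj, hj2⟩
    apply hj2
    have : (j : ℕ) ≠ 0 := by omega
    simp [q1, this]
  have hb : ∀ k x, |x| ≤ L → |ev q1 k x| ≤ K * c := fun k x hx =>
    (hK q1 k x x hx hx).1.trans (mul_le_mul_of_nonneg_left hn hK0)
  refine ⟨fun x hx => ?_, fun x y hx hy => ?_⟩
  · have h1 := (not_nonconst hnc x).2 0
    rw [ev_sub, sub_eq_zero] at h1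
    have h2 := hb (0 + 1) x hx
    rwa [← h1] at h2
  · have h1 := (not_nonconst hnc x).1
    have h2 := (not_nonconst hnc y).1
    rw [ev_sub] at h1 h2
    have h3 := abs_le.1 (hb 0 x hx)
    have h4 := abs_le.1 (hb 0 y hy)
    rw [abs_le]
    constructor <;> linarith [h3.1, h3.2, h4.1, h4.2]

theorem mem_of_abs {d : ℕ} (D : LD d) (hQ : 0 < D.Q) {x : ℝ} (h : |x| = D.Q) : x ∈ D.ThA := by
  rcases (abs_eq hQ.le).1 h with k | k
  · exact Or.inl k
  · exact Or.inr (Or.inl k)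

end QlowA

theorem p_QLOW (hHOM : S_HOM) (hPUB : S_PUB) :
    S_QLOW := by
  classical
  intro d S D h
  obtain ⟨c0, hc0, -, hs1, hs2, hs3, -⟩ := h.exists_slack
  obtain ⟨K, hK1, hK⟩ := n_bd d D.Lam
  have hQ := h.Qpos
  have hK0 : 0 < K := by linarith
  have hcp : 0 < min (c0 / (4 * K)) (D.Q * c0 / (2 * K)) := lt_min (by positivity) (by positivity)
  refine ⟨_, hcp, fun u pa ρ hu hN hO hnc hd => ?_⟩
  set c := min (c0 / (4 * K)) (D.Q * c0 / (2 * K)) with hc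
  have hc1 : 2 * (K * c) < c0 := by
    have : c ≤ c0 / (4 * K) := min_le_left _ _
    rw [le_div_iff₀ (by positivity)] at this
    nlinarith
  have hc2 : K * c < D.Q * c0 := by
    have : c ≤ D.Q * c0 / (2 * K) := min_le_right _ _
    rw [le_div_iff₀ (by positivity)] at this
    have := mul_pos hQ hc0
    nlinarith
  by_contra hcon
  push Not at hcon
  obtain ⟨hb1, hb0⟩ := QlowA.small hK hK0.le hcp.le ρ.q hcon
  obtain ⟨hR, hB, -, hDM, -, hDm, -⟩ := hO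
  obtain ⟨hP1, hP2⟩ := hPUB d S D h u ρ hu.le hR
  obtain ⟨hm, hM, hmM, hF, hZ, -⟩ := hR
  have hw0 := ((hHOM d S D h).2.2.1 u ρ.m ρ.M hm hu.le hM hmM).2
  obtain ⟨hw1, hw2⟩ := h.win hm (hu.le.trans hM) (by linarith)
  have hwin : ∀ x, ρ.m ≤ x → x ≤ ρ.M → |x| ≤ D.Lam := by
    intro x h1 h2
    have h3 := neg_abs_le ρ.m
    have h4 := le_abs_self ρ.M
    rw [abs_le]
    constructor <;> linarith
  have hend : ∀ x, ρ.m ≤ x → x ≤ ρ.M → D.om (ev ρ.q 0 x) = 0 → ev ρ.q 0 x ∈ D.ThA := by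
    intro x h1 h2 h3
    have h4 := hF x ⟨h1, h2⟩
    have h5 := hs1 _ h4
    rw [h3] at h5
    refine QlowA.mem_of_abs D hQ (le_antisymm h4 ?_)
    by_contra k
    have := mul_pos hc0 (sub_pos.2 (not_le.1 k))
    linarith
  have hnode : ∀ x, x ∈ ρ.lev D u.1 ∨ x ∈ ρ.Z → ρ.m ≤ x ∧ x ≤ ρ.M ∧ ev ρ.q 0 x ∈ D.ThA := by
    rintro x ((⟨h1, h2, k, hk, h3⟩ | ⟨h1, k, hk, h3⟩ | ⟨h1, h2, h3⟩ | ⟨h1, h2, h3⟩) | h1)
    · exact ⟨h1.le, h2.le, Or.inr (Or.inr ⟨k, hk, Or.inl h3⟩)⟩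
    · refine ⟨?_, ?_, Or.inr (Or.inr ⟨k, hk, Or.inr (by linarith)⟩)⟩
      · rcases h1 with h1 | h1 <;> linarith [h1.1, h1.2]
      · rcases h1 with h1 | h1 <;> linarith [h1.1, h1.2]
    · subst h1
      refine ⟨le_rfl, hmM.le, hend _ le_rfl hmM.le ?_⟩
      simpa [RD.Dm, RD.muAt, h3] using hDm h2
    · subst h1
      refine ⟨hmM.le, le_rfl, hend _ hmM.le le_rfl ?_⟩
      simpa [RD.DM, RD.muAt, h3] using hDM h2
    · exact ⟨(hZ x h1).1, (hZ x h1).2.1, QlowA.mem_of_abs D hQ (hZ x h1).2.2.1⟩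
  have hdis : ∀ x ∈ ρ.lev D u.1, x ∉ ρ.Z := by
    rintro x (⟨-, -, k, hk, h3⟩ | ⟨-, k, hk, h3⟩ | ⟨h1, -, h3⟩ | ⟨h1, -, h3⟩) hx
    · have h4 := (hZ x hx).2.2.1
      have h5 := h.thQ k hk
      rw [h3] at h4
      exact absurd h4 (abs_lt.2 h5).ne
    · have h4 := (hZ x hx).2.2.1
      have h5 := h.thQ k hk
      rw [← abs_neg, h3] at h4
      exact absurd h4 (abs_lt.2 h5).ne
    · exact h3 (h1 ▸ hx)
    · exact h3 (h1 ▸ hx)
  have hcrit : ∀ z ∈ ρ.Z, |ρ.mu z * ev ρ.q 1 z| = D.om (ev ρ.q 0 z) → ev ρ.q 1 z = 0 := by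
    intro z hz h1
    obtain ⟨h2, h3, h4, h5⟩ := hZ z hz
    rw [← Bm.om_abs D, h4] at h1
    have hmu : ρ.mu z ≠ 0 := fun k => by rw [k, zero_mul] at h5; exact lt_irrefl _ h5
    rcases h.om_Q_nonneg.eq_or_lt with k | k
    · rw [← k, abs_eq_zero] at h1
      exact (mul_eq_zero.1 h1).resolve_left hmu
    · exfalso
      have h6 := hs2 k D.Q (by rw [abs_of_pos hQ])
      have h7 : |ρ.mu z| ≤ ∑ x ∈ ρ.Z, |ρ.mu x| :=
        Finset.single_le_sum (f := fun x => |ρ.mu x|) (fun x _ => abs_nonneg _) hz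
      have h8 : D.Q * |ρ.mu z| ≤ 1 := by
        have := mul_le_mul_of_nonneg_left h7 hQ.le
        linarith
      have h9 := hb1 z (hwin z h2 h3)
      rw [← h1, abs_mul] at h6
      have h10 : D.Q * c0 ≤ D.Q * |ρ.mu z| * |ev ρ.q 1 z| := by
        rw [mul_assoc]; exact mul_le_mul_of_nonneg_left h6 hQ.le
      have h11 : D.Q * |ρ.mu z| * |ev ρ.q 1 z| ≤ 1 * |ev ρ.q 1 z| :=
        mul_le_mul_of_nonneg_right h8 (abs_nonneg _)
      linarith
  have hom : ∀ z ∈ ρ.Z, 0 ≤ D.om (ev ρ.q 0 z) := by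
    intro z hz
    rw [← Bm.om_abs D, (hZ z hz).2.2.1]
    exact h.om_Q_nonneg
  have hB0 : ∀ z ∈ ρ.Z, ¬ ρ.Pin u.1 z → ev ρ.q 1 z = 0 := by
    intro z hz hp
    obtain ⟨h2, h3, h4, -⟩ := hZ z hz
    rcases h2.eq_or_lt with k | k
    · subst k
      have h5 : ρ.m < 0 := lt_of_le_of_ne hm fun e => hp (Or.inl ⟨e, e⟩)
      have h6 := hDm h5
      simp only [RD.Dm, RD.muAt, if_pos hz] at h6
      refine hcrit _ hz ?_
      rw [show ρ.mu ρ.m * ev ρ.q 1 ρ.m = -D.om (ev ρ.q 0 ρ.m) by linarith, abs_neg,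
        abs_of_nonneg (hom _ hz)]
    · rcases h3.eq_or_lt with l | l
      · subst l
        have h5 : u.1 < ρ.M := lt_of_le_of_ne hM fun e => hp (Or.inr ⟨e.symm, e.symm⟩)
        have h6 := hDM h5
        simp only [RD.DM, RD.muAt, if_pos hz] at h6
        refine hcrit _ hz ?_
        rw [show ρ.mu ρ.M * ev ρ.q 1 ρ.M = D.om (ev ρ.q 0 ρ.M) by linarith,
          abs_of_nonneg (hom _ hz)]
      · exact n_crit hF k l h4
  have hd0 : 0 < d := by
    obtain ⟨j, -⟩ := hnc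
    exact Fin.pos j
  by_cases hne : ∃ x0, x0 ∈ ρ.lev D u.1 ∨ x0 ∈ ρ.Z
  · obtain ⟨x0, hx0⟩ := hne
    have hw : ∀ x, x ∈ ρ.lev D u.1 ∨ x ∈ ρ.Z → ev ρ.q 0 x = ev ρ.q 0 x0 := by
      intro x hx
      by_contra k
      obtain ⟨h1, h2, h3⟩ := hnode x hx
      obtain ⟨h4, h5, h6⟩ := hnode x0 hx0
      have h7 := hs3 _ h3 _ h6 k
      have h8 := hb0 x x0 (hwin x h1 h2) (hwin x0 h4 h5)
      linarith
    have hfin : (ρ.lev D u.1).Finite :=
      (hnc.finite_level (ev ρ.q 0 x0)).1.subset fun x hx => hw x (Or.inl hx)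
    have hdj : Disjoint hfin.toFinset ρ.Z :=
      Finset.disjoint_left.2 fun x hx => hdis x (hfin.mem_toFinset.1 hx)
    have hcard : ρ.eN D u.1 =
        (hfin.toFinset ∪ ρ.Z).card + (ρ.Z.filter fun z => ¬ ρ.Pin u.1 z).card := by
      rw [RD.eN, Finset.card_union_of_disjoint hdj, Set.ncard_eq_toFinset_card _ hfin, add_assoc,
        Finset.card_filter, Finset.card_eq_sum_ones ρ.Z, ← Finset.sum_add_distrib]
      congr 1
      refine Finset.sum_congr rfl fun z _ => ?_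
      by_cases k : ρ.Pin u.1 z <;> simp [k]
    have hP : pol ρ.q - Polynomial.C (ev ρ.q 0 x0) = 0 := by
      refine eq_zero_of_zeros (n := d) ?_ (hfin.toFinset ∪ ρ.Z)
        (ρ.Z.filter fun z => ¬ ρ.Pin u.1 z)
        ((Finset.filter_subset _ _).trans Finset.subset_union_right) (fun x hx => ?_)
        (fun x hx => ?_) (hcard ▸ hd)
      · refine (Polynomial.degree_sub_le _ _).trans_lt (max_lt (degree_pol_lt _) ?_)
        exact Polynomial.degree_C_le.trans_lt (by exact_mod_cast hd0)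
      · have h1 := hw x (by simpa using hx)
        rw [ev_eq_eval ρ.q 0 x] at h1
        simp only [Function.iterate_zero, id] at h1
        simp [h1]
      · rw [Finset.mem_filter] at hx
        have h1 := hB0 x hx.1 hx.2
        rw [ev_eq_eval] at h1
        simpa using h1
    apply (nonconst_iff ρ.q).1 hnc
    have := congrArg Polynomial.derivative hP
    simpa using this
  · push Not at hne
    have h1 : ρ.lev D u.1 = ∅ := Set.eq_empty_of_forall_notMem fun x => (hne x).1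
    have h2 : ρ.Z = ∅ := Finset.eq_empty_of_forall_notMem fun x => (hne x).2
    rw [RD.eN, h1, h2] at hd
    simp at hd
    omega

end Pool.Agent.P.MP_a0f0ad_al.Fi
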