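import Pool.Agent.P.MP_a0f0ad_al.Fi.N.Iface
import Pool.Agent.P.MP_a0f0ad_al.Fi.V.Iface
import Pool.Agent.P.MP_a0f0ad_al.Fi.N.Iface2
import Pool.Agent.P.MP_a0f0ad_al.Fi.N.Basic
import Pool.Agent.P.MP_a0f0ad_al.Fi.Z.Bm

/-! Step STABR of the filiform project. -/

namespace Pool.Agent.P.MP_a0f0ad_al.Fi

open Finset MeasureTheory

namespace StabrA

theorem pw {h : ℝ} (h0 : 0 < h) (h1 : h ≤ 1) {a b : ℕ} (hab : a ≤ b) : h ^ b ≤ h ^ a :=
  pow_le_pow_of_le_one h0.le h1 hab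

/-- a separating test polynomial is impossible -/
theorem nt (hNYQ : S_NYQ) (hNATM : S_NATM) (d : ℕ) (S : Finset (G d)) (D : LD d)
    (hD : D.Spec S) : ∃ C : ℝ, 1 ≤ C ∧ ∀ (v h pa m0 M0 : ℝ) (u u' : E d) (ρ ρ' : RD d)
      (f : Fin d → ℝ), NFar D v h pa u u' ρ ρ' → C * h ≤ v ^ 4 → Nonconst ρ.q →
      ‖u' - u‖ ≤ h ^ 16 → D.om D.Q = 0 → |ρ'.Dm D| ≤ h ^ 13 → |ρ'.DM D| ≤ h ^ 13 →
      |m0| ≤ D.Lam → |M0| ≤ D.Lam → |ρ'.m - m0| ≤ h ^ 5 → |ρ'.M - M0| ≤ h ^ 5 → ‖f‖ ≤ 1 →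
      (∀ x, ρ.IsT u.1 x → ρ'.m - h ^ 5 ≤ x → x ≤ ρ'.M + h ^ 5 → ev f 0 x * ev ρ.q 0 x ≤ 0) →
      dot f u.2 - dot f (D.Yq ρ.q m0 M0 u.1) < v := by
  by_cases h0 : D.om D.Q = 0
  swap
  · exact ⟨1, le_rfl, fun _ _ _ _ _ _ _ _ _ _ _ _ _ _ h => absurd h h0⟩
  obtain ⟨C4, hC4, h4⟩ := hNYQ d S D hD
  obtain ⟨C5, hC5, h5⟩ := hNATM d S D hD h0
  have hd : (0 : ℝ) ≤ d := Nat.cast_nonneg d
  refine ⟨1 + d + C4 + 2 * C5, by linarith, ?_⟩
  intro v h pa m0 M0 u u' ρ ρ' f H hC hq hu _ hDm hDM hm0 hM0 hm hM hf hs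
  have hv := H.v0
  have hv1 := H.v1
  have hh := H.h0
  have v43 : v ^ 4 ≤ v ^ 3 := pw hv hv1 (by norm_num)
  have v31 : v ^ 3 ≤ v := by simpa using pw hv hv1 (show 1 ≤ 3 by norm_num)
  have e1 : 0 ≤ (d : ℝ) * h := by positivity
  have e2 : 0 < C4 * h := by positivity
  have e3 : 0 < C5 * h := by positivity
  have hhv : h ≤ v := by linarith
  have h1 : h ≤ 1 := by linarith
  have p51 : h ^ 5 ≤ h := by simpa using pw hh h1 (show 1 ≤ 5 by norm_num)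
  have p165 : h ^ 16 ≤ h ^ 5 := pw hh h1 (by norm_num)
  have p135 : h ^ 13 ≤ h ^ 5 := pw hh h1 (by norm_num)
  have pq : ∀ c : ℝ, 0 < c → c * h ≤ v → c * ‖ρ'.q - ρ.q‖ ≤ v * (h ^ 5) ^ 2 := by
    intro c hc hch
    calc c * ‖ρ'.q - ρ.q‖ ≤ c * h ^ 16 := by gcongr; exact H.dq
      _ ≤ c * h ^ 11 := by gcongr c * ?_; exact pw hh h1 (by norm_num)
      _ = c * h * (h ^ 5) ^ 2 := by ring
      _ ≤ v * (h ^ 5) ^ 2 := by gcongr
  have ha := H.good.ha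
  have hda := abs_le.1 H.da
  have haM : u.1 ≤ ρ.M := H.opt.1.2.1
  have k1 := h4 u ρ ρ'.q f v (h ^ 5) m0 M0 u.1 ρ'.m ρ'.M u'.1 hv hv1 hq H.good (by positivity)
    (by linarith) (pq C4 hC4 (by linarith)) hf hm0 hM0
    (by rw [abs_of_nonneg (by linarith)]; linarith [H.bM, le_abs_self ρ.M]) H.bm' H.bM' H.rep.1
    (by linarith [hda.1]) H.rep.2.1 hm hM (H.da.trans p165)
  have k2 := h5 u u' ρ ρ' f v (h ^ 5) (h ^ 13) hv hv1 H.good H.rep H.bm' H.bM' (by positivity)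
    (by nlinarith) (pq C5 hC5 (by linarith)) hf H.mass hDm hDM hs
  have k3 : dot f u'.2 = dot f (D.Yq ρ'.q ρ'.m ρ'.M u'.1) + ∑ z ∈ ρ'.Z, ρ'.mu z * ev f 0 z := by
    rw [H.rep.2.2.2.2.2, dot_add_right, dot_sum_right]
    simp only [dot_smul_right, ev]
  have k4 : |dot f u'.2 - dot f u.2| ≤ d * h := by
    rw [← dot_sub_right]
    refine (abs_dot_le _ _).trans ?_
    have : ‖u'.2 - u.2‖ ≤ h := (norm_snd_le (u' - u)).trans (by linarith)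
    calc (d : ℝ) * ‖f‖ * ‖u'.2 - u.2‖ ≤ d * 1 * h := by gcongr
      _ = d * h := by ring
  rw [abs_le] at k1 k4
  by_contra hc
  have k5 : v - d * h - C4 * h ≤ ∑ z ∈ ρ'.Z, ρ'.mu z * ev f 0 z := by
    have : C4 * h ^ 5 ≤ C4 * h := by gcongr
    linarith [k1.2, k4.1, not_lt.1 hc]
  have k6 : v ^ 2 * (v - d * h - C4 * h) ≤ C5 * (h + h) :=
    (mul_le_mul_of_nonneg_left k5 (by positivity)).trans (k2.trans (by gcongr <;> linarith))
  have v2 : v ^ 2 ≤ 1 := by nlinarith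
  have k7 : v ^ 2 * (d * h + C4 * h) ≤ 1 * (d * h + C4 * h) := by gcongr
  nlinarith

end StabrA

theorem p_STABR (hHOM : S_HOM) (hPUB : S_PUB) (hNLOC : S_NLOC) (hNCMP : S_NCMP) (hNOM : S_NOM) (hNYQ : S_NYQ) (hNATM : S_NATM) (hNFLA : S_NFLA) (hNFLB : S_NFLB) (hNFRA : S_NFRA) (hNFRB : S_NFRB) :
    S_STABR := by
  refine ⟨16, by norm_num, fun d S D hD => ?_⟩
  obtain ⟨-, -, hH3, ⟨L0, hL0⟩, -⟩ := hHOM d S D hD
  obtain ⟨K, hK, hb⟩ := n_bd d D.Lam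
  obtain ⟨C1, hC1, h1⟩ := hNCMP d S D (max L0 D.Lam) hD
  obtain ⟨C2, hC2, h2⟩ := hNOM d S D hD
  obtain ⟨C3, hC3, h3⟩ := StabrA.nt hNYQ hNATM d S D hD
  obtain ⟨C4, hC4, h4⟩ := hNFLA d S D hD
  obtain ⟨C5, hC5, h5⟩ := hNFLB d S D hD
  obtain ⟨C6, hC6, h6⟩ := hNFRA d S D hD
  obtain ⟨C7, hC7, h7⟩ := hNFRB d S D hD
  have hK0 : 0 < K := by linarith
  have c8 : 0 < C2 * K := by positivity
  have c9 : 0 < C2 * (1 + C2 + C2 * K) := by positivity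
  refine ⟨2 + K + C1 + C2 * K + 2 * (C2 * (1 + C2 + C2 * K)) + C3 + C4 + C5 + C6 + C7,
    by linarith, ?_⟩
  intro v h pa u u' ρ ρ' hv hv1 hh hC hN hq ho hg hr hl hu hdq hB
  have v4 : v ^ 16 ≤ v ^ 4 := StabrA.pw hv hv1 (by norm_num)
  have v1 : v ^ 4 ≤ v := by simpa using StabrA.pw hv hv1 (show 1 ≤ 4 by norm_num)
  have sm : ∀ c : ℝ, c ≤ 2 + K + C1 + C2 * K + 2 * (C2 * (1 + C2 + C2 * K)) + C3 + C4 + C5 + C6 +
      C7 → c * h ≤ v ^ 4 := fun c hc =>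
    (mul_le_mul_of_nonneg_right hc hh.le).trans (hC.trans v4)
  have h2v : 2 * h ≤ v := (sm 2 (by linarith)).trans v1
  have hh1 : h ≤ 1 := by linarith
  have pw : ∀ {a b : ℕ}, a ≤ b → h ^ b ≤ h ^ a := fun hab => StabrA.pw hh hh1 hab
  have p1 : ∀ {b : ℕ}, 1 ≤ b → h ^ b ≤ h := fun hb => by simpa using pw hb
  have g0 := hg.1
  have ha := g0.ha
  have hda : |u'.1 - u.1| ≤ h ^ 16 := (norm_fst_le (u' - u)).trans hu
  have ha' : 0 ≤ u'.1 := by linarith [(abs_le.1 hda).1, p1 (show 1 ≤ 16 by norm_num)]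
  obtain ⟨hm0, haM, hmM, hF, hZ, hy⟩ := ho.1
  obtain ⟨hm0', haM', hmM', hF', -, -⟩ := id hr
  have hP := hPUB d S D hD u ρ (by linarith) ho.1
  have hP' := hPUB d S D hD u' ρ' ha' hr
  have hw := hD.win hm0 (by linarith : 0 ≤ ρ.M) (by
    have := (hH3 u ρ.m ρ.M hm0 (by linarith) haM hmM).2
    rw [hP.1, ho.2.1] at this
    linarith)
  have hw' := hD.win hm0' (by linarith : 0 ≤ ρ'.M) hl
  have hLam := le_max_right L0 D.Lam
  have hqv : ‖ρ.q‖ ≤ v⁻¹ := by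
    rw [← one_div, le_div_iff₀ hv, mul_comm]; exact g0.hq
  have hcmp := h1 u u' ρ ρ' v⁻¹ (h ^ 16) ho.1 hr (by linarith) ha'
    (by linarith [hw.1, neg_abs_le ρ.m]) (by linarith [hw.2, le_abs_self ρ.M])
    (by linarith [hw'.1, neg_abs_le ρ'.m]) (by linarith [hw'.2, le_abs_self ρ'.M])
    ((hL0 u (by linarith) (by linarith)).trans (le_max_left _ _)) (one_le_inv₀ hv |>.2 hv1) hqv
    ((p1 (by norm_num)).trans hh1) hu hdq (by rwa [ho.2.1])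
  have e15 : C1 * v⁻¹ * h ^ 16 ≤ h ^ 15 := by
    have : C1 * h * v⁻¹ ≤ 1 := by
      rw [← div_eq_mul_inv, div_le_one hv]; exact (sm C1 (by linarith)).trans v1
    calc C1 * v⁻¹ * h ^ 16 = C1 * h * v⁻¹ * h ^ 15 := by ring
      _ ≤ 1 * h ^ 15 := by gcongr
      _ = h ^ 15 := one_mul _
  have H : NFar D v h pa u u' ρ ρ' :=
    ⟨hv, hv1, hh, ho, g0, hr, hw.1, hw.2, hw'.1, hw'.2,
      by linarith [hP'.2, (abs_le.1 hB).2, p1 (show 1 ≤ 16 by norm_num)], hda, hdq,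
      hcmp.2.1.trans e15, hcmp.2.2.trans e15⟩
  have hsum := abs_le.1 (hcmp.1.trans (e15.trans (pw (show 4 ≤ 15 by norm_num))))
  -- almost feasible intervals
  have eK : K * h ^ 16 ≤ 1 := by
    have := (sm K (by linarith)).trans v1
    have : K * h ^ 16 ≤ K * h := by gcongr; exact p1 (by norm_num)
    linarith
  have key : ∀ s t : ℝ, s ≤ t → (ρ.m ≤ s ∧ t ≤ ρ.M) ∨ (ρ'.m ≤ s ∧ t ≤ ρ'.M) →
      -(C2 * K * h ^ 4) ≤ ∫ x in s..t, D.om (ev ρ.q 0 x) ∧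
      ∫ x in s..t, D.om (ev ρ.q 0 x) ≤ C2 * (t - s) ∧
      (∫ x in s..t, D.om (ev ρ.q 0 x) ≤ (1 + C2 + C2 * K) * h ^ 4 → t - s ≤ h) := by
    intro s t hst hI
    have hin : ∀ x, s ≤ x → x ≤ t → |x| + 1 ≤ D.Lam := by
      intro x hx1 hx2
      rcases hI with k | k <;> rcases abs_cases x with k' | k' <;>
        linarith [k.1, k.2, k'.1, hw.1, hw.2, hw'.1, hw'.2, neg_abs_le ρ.m, neg_abs_le ρ'.m,
          le_abs_self ρ.M, le_abs_self ρ'.M]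
    have hf : ∀ x ∈ Set.Icc s t, |ev ρ.q 0 x| ≤ D.Q + K * h ^ 16 := by
      intro x hx
      rcases hI with k | k
      · have := hF x ⟨k.1.trans hx.1, hx.2.trans k.2⟩
        have : 0 ≤ K * h ^ 16 := by positivity
        linarith
      · have k1 := hF' x ⟨k.1.trans hx.1, hx.2.trans k.2⟩
        have hx' : |x| ≤ D.Lam := by linarith [hin x hx.1 hx.2]
        have k2 := (hb (ρ'.q - ρ.q) 0 x x hx' hx').1
        rw [ev_sub] at k2
        have k3 : K * ‖ρ'.q - ρ.q‖ ≤ K * h ^ 16 := by gcongr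
        have k4 := abs_sub_abs_le_abs_sub (ev ρ.q 0 x) (ev ρ'.q 0 x)
        rw [abs_sub_comm] at k4
        linarith
    obtain ⟨k1, k2, k3⟩ := h2 u ρ v s t (K * h ^ 16) hv hv1 hq g0 (hin s le_rfl hst)
      (hin t hst le_rfl) hst (by positivity) eK hf
    refine ⟨le_trans ?_ k1, k2, fun hle => ?_⟩
    · rw [neg_le_neg_iff, ← mul_assoc]
      gcongr C2 * K * ?_
      exact pw (by norm_num)
    · by_contra hc
      have k4 := k3 h hh (by linarith) (not_le.1 hc).le (by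
        calc C2 * (K * h ^ 16) ≤ C2 * (K * h ^ 3) := by
              gcongr C2 * (K * ?_); exact pw (by norm_num)
          _ = C2 * K * h * h ^ 2 := by ring
          _ ≤ v * h ^ 2 := by gcongr; exact (sm _ (by linarith)).trans v1)
      have k5 : C2 * ∫ x in s..t, D.om (ev ρ.q 0 x) ≤ C2 * ((1 + C2 + C2 * K) * h ^ 4) := by gcongr
      have k6 := (sm (2 * (C2 * (1 + C2 + C2 * K))) (by linarith)).trans v1
      have k7 : 0 < h ^ 3 := by positivity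
      have k8 : 2 * (C2 * (1 + C2 + C2 * K)) * h * h ^ 3 ≤ v * h ^ 3 := by gcongr
      have k9 : 0 < v * h ^ 3 := by positivity
      nlinarith
  have h40 : 0 < h ^ 4 := by positivity
  have c10 : 0 < C2 * K * h ^ 4 := by positivity
  have c11 : 0 < C2 * h ^ 4 := by positivity
  have p4 : h ^ 4 ≤ h := p1 (by norm_num)
  have p5 : h ^ 5 ≤ h := p1 (by norm_num)
  have noT : ∀ x z, ρ.IsT u.1 x → ρ.IsT u.1 z → |x - z| ≤ v → x = z := by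
    intro x z hx hz hxz
    have := (hNLOC d D u ρ v hv hv1 g0).1 z x hz hxz
    rw [hx.2.2, abs_zero] at this
    have : |x - z| ≤ 0 := by
      by_contra k
      exact absurd this (not_le.2 (mul_pos hv (not_le.1 k)))
    exact sub_eq_zero.1 (abs_nonpos_iff.1 this)
  have hyy : ∀ f : Fin d → ℝ, dot f u.2 = dot f (D.Yq ρ.q ρ.m ρ.M u.1) +
      ∑ z ∈ ρ.Z, ρ.mu z * ev f 0 z := fun f => by
    rw [hy, dot_add_right, dot_sum_right]
    simp only [dot_smul_right, ev]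
  rcases le_total ρ'.m ρ.m with hm | hm <;> rcases le_total ρ.M ρ'.M with hM | hM
  · obtain ⟨a1, -, a3⟩ := key ρ'.m ρ.m hm (Or.inr ⟨le_rfl, by linarith⟩)
    obtain ⟨b1, -, b3⟩ := key ρ.M ρ'.M hM (Or.inr ⟨by linarith, le_rfl⟩)
    left
    rw [abs_of_nonpos (by linarith), abs_of_nonneg (by linarith)]
    exact ⟨by linarith [a3 (by linarith [hsum.2])], b3 (by linarith [hsum.2])⟩
  · obtain ⟨a1, a2, a3⟩ := key ρ'.m ρ.m hm (Or.inr ⟨le_rfl, by linarith⟩)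
    obtain ⟨b1, b2, b3⟩ := key ρ'.M ρ.M hM (Or.inl ⟨by linarith, le_rfl⟩)
    rw [intervalIntegral.integral_symm ρ'.M ρ.M] at hsum
    rw [abs_of_nonpos (by linarith), abs_of_nonpos (by linarith)]
    by_cases f1 : ρ'.m + h ^ 4 ≤ ρ.m
    swap
    · have : C2 * (ρ.m - ρ'.m) ≤ C2 * h ^ 4 := by gcongr; linarith
      exact Or.inl ⟨by linarith, by linarith [b3 (by linarith [hsum.1])]⟩
    by_cases f2 : ρ'.M + h ^ 4 ≤ ρ.M
    swap
    · have : C2 * (ρ.M - ρ'.M) ≤ C2 * h ^ 4 := by gcongr; linarith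
      exact Or.inl ⟨by linarith [a3 (by linarith [hsum.2])], by linarith⟩
    obtain ⟨t1, t2, t3, t4⟩ := h4 v h pa u u' ρ ρ' H (sm _ (by linarith)) f1 f2
    obtain ⟨α, z, s1, s2, s3, s4, s5, s6, s7, s8, s9, s10⟩ :=
      h5 v h pa u u' ρ ρ' H (sm _ (by linarith)) f1 f2 t3 t4
    rcases hg.2.2.1 t1 t2 α z s1 s2 s3 s4 s5 s6 s7 s8 with ⟨f, r1, r2, r3⟩ | ⟨r1, σ, r2, r3, r4, r5, r6⟩
    · exfalso
      have k1 := h3 v h pa α z u u' ρ ρ' f H (sm _ (by linarith)) hq hu t1 t3 t4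
        (abs_le.2 ⟨s1, by linarith [hw.1, abs_nonneg ρ.m]⟩)
        (abs_le.2 ⟨by linarith [hw.1, abs_nonneg ρ.m], by linarith [hw.2, le_abs_self ρ.M]⟩) s9 s10 r1
        (fun x hx _ hx2 => r2 x hx (by
          by_contra k
          have := noT x z hx s6 (abs_le.2 ⟨by linarith, by linarith [(abs_le.1 s10).2]⟩)
          linarith))
      have k2 := hD.dot_Yq_sub ρ.q f α z ρ.m ρ.M u.1
      have k3 : D.Ib ρ.q f ρ.m α = -D.Ib ρ.q f α ρ.m := intervalIntegral.integral_symm _ _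
      linarith [hyy f]
    · right
      refine ⟨lt_of_le_of_ne hm0 fun k => t2.2.1 (Or.inl ⟨k, k⟩), r1, σ, r2, r3, r6, ?_, ?_⟩
      · rw [r4]; linarith
      · rw [r5]; linarith
  · obtain ⟨a1, a2, a3⟩ := key ρ.m ρ'.m hm (Or.inl ⟨le_rfl, by linarith⟩)
    obtain ⟨b1, b2, b3⟩ := key ρ.M ρ'.M hM (Or.inr ⟨by linarith, le_rfl⟩)
    rw [intervalIntegral.integral_symm ρ.m ρ'.m] at hsum
    rw [abs_of_nonneg (by linarith), abs_of_nonneg (by linarith)]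
    by_cases f1 : ρ.m + h ^ 4 ≤ ρ'.m
    swap
    · have : C2 * (ρ'.m - ρ.m) ≤ C2 * h ^ 4 := by gcongr; linarith
      exact Or.inl ⟨by linarith, by linarith [b3 (by linarith [hsum.2])]⟩
    by_cases f2 : ρ.M + h ^ 4 ≤ ρ'.M
    swap
    · have : C2 * (ρ'.M - ρ.M) ≤ C2 * h ^ 4 := by gcongr; linarith
      exact Or.inl ⟨by linarith [a3 (by linarith [hsum.1])], by linarith⟩
    obtain ⟨t1, t2, t3, t4⟩ := h6 v h pa u u' ρ ρ' H (sm _ (by linarith)) f1 f2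
    obtain ⟨α, z, s1, s2, s3, s4, s5, s6, s7, s8, s9, s10⟩ :=
      h7 v h pa u u' ρ ρ' H (sm _ (by linarith)) f1 f2 t3 t4
    rcases hg.2.2.2 t1 t2 α z s1 s2 s3 s4 s5 s6 s7 s8 with ⟨f, r1, r2, r3⟩ | ⟨r1, σ, r2, r3, r4, r5, r6⟩
    · exfalso
      have k1 := h3 v h pa z α u u' ρ ρ' f H (sm _ (by linarith)) hq hu t1 t3 t4
        (abs_le.2 ⟨by linarith [hw.1, neg_abs_le ρ.m], by linarith [hw.1, abs_nonneg ρ.m]⟩)
        (abs_le.2 ⟨by linarith [hw.1, abs_nonneg ρ.m], s1⟩) s9 s10 r1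
        (fun x hx hx2 _ => r2 x hx (by
          by_contra k
          have := noT x z hx s6 (abs_le.2 ⟨by linarith [(abs_le.1 s9).1], by linarith⟩)
          linarith))
      have k2 := hD.dot_Yq_sub ρ.q f z α ρ.m ρ.M u.1
      have k3 : D.Ib ρ.q f α ρ.M = -D.Ib ρ.q f ρ.M α := intervalIntegral.integral_symm _ _
      linarith [hyy f]
    · right
      refine ⟨by linarith, r1, σ, r2, r3, r6, ?_, ?_⟩
      · rw [r4]; linarith
      · rw [r5]; linarith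
  · obtain ⟨a1, -, a3⟩ := key ρ.m ρ'.m hm (Or.inl ⟨le_rfl, by linarith⟩)
    obtain ⟨b1, -, b3⟩ := key ρ'.M ρ.M hM (Or.inl ⟨by linarith, le_rfl⟩)
    rw [intervalIntegral.integral_symm ρ.m ρ'.m, intervalIntegral.integral_symm ρ'.M ρ.M] at hsum
    left
    rw [abs_of_nonneg (by linarith), abs_of_nonpos (by linarith)]
    exact ⟨a3 (by linarith [hsum.1]), by linarith [b3 (by linarith [hsum.1])]⟩

end Pool.Agent.P.MP_a0f0ad_al.Fi
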